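import Pool.Agent.Lib.H53S.C0
import Pool.Agent.Lib.H67T.CS

set_option autoImplicit false

/-!
H53S, CHUNK C1 (M).  The cone over an affine curve, without the spanning condition.
-/

open MvPolynomial Module Pool.Agent.H89.GCurve
open Pool.Agent.H89.Sect Pool.Agent.H89.Kummer Pool.Agent.H89.Poly Pool.Agent.H89.Arr

namespace Pool.Agent.H53S

open Pool.Agent.H67T

attribute [local instance] MvPolynomial.gradedAlgebra

theorem c1_lf_sum {m n : ℕ} (s : Fin m → ℂ) (c : Fin m → Fin n → ℂ) :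
    lf (∑ l, s l • c l) = ∑ l, C (s l) * lf (c l) := by
  unfold lf
  simp only [Finset.sum_apply, Pi.smul_apply, smul_eq_mul, map_sum, map_mul, Finset.sum_mul, Finset.mul_sum]
  rw [Finset.sum_comm]
  refine Finset.sum_congr rfl fun l _ => Finset.sum_congr rfl fun j _ => ?_
  ring

theorem c1_mk_sum {m n : ℕ} (I : Ideal (MvPolynomial (Fin n) ℂ)) (s : Fin m → ℂ) (c : Fin m → Fin n → ℂ) :
    ∑ l, s l • Ideal.Quotient.mk I (lf (c l)) = Ideal.Quotient.mk I (lf (∑ l, s l • c l)) := by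
  rw [c1_lf_sum, map_sum]
  refine Finset.sum_congr rfl fun l _ => ?_
  rw [← smul_eq_C_mul]
  rfl

theorem c1_eval_lf {n : ℕ} (c y : Fin n → ℂ) : eval y (lf c) = lin c y := by
  unfold lf Pool.Agent.H67T.lin
  rw [map_sum]
  refine Finset.sum_congr rfl fun j _ => ?_
  rw [map_mul, eval_C, eval_X]

theorem c1_lin_sum {m n : ℕ} (s : Fin m → ℂ) (c : Fin m → Fin n → ℂ) (y : Fin n → ℂ) :
    lin (∑ l, s l • c l) y = ∑ l, s l * lin (c l) y := by
  rw [← c1_eval_lf, c1_lf_sum, map_sum]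
  refine Finset.sum_congr rfl fun l _ => ?_
  rw [map_mul, eval_C, c1_eval_lf]

/-- Coordinates of a spanning family with respect to a basis of the span. -/
theorem c1_basis {E : Type*} [AddCommGroup E] [Module ℂ E] {n : ℕ} (a : Fin n → E) :
    ∃ (m : ℕ) (a'' : Fin m → E) (cc : Fin m → Fin n → ℂ), LinearIndependent ℂ a'' ∧
      Submodule.span ℂ (Set.range a'') = Submodule.span ℂ (Set.range a) ∧
      (∀ k, a k = ∑ l, cc l k • a'' l) ∧ ∀ s : Fin m → ℂ, ∑ l, s l • cc l = 0 → s = 0 := by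
  set T := Submodule.span ℂ (Set.range a) with hT
  have hTf : FiniteDimensional ℂ T := FiniteDimensional.span_of_finite ℂ (Set.finite_range a)
  have haT : ∀ j, a j ∈ T := fun j => Submodule.subset_span ⟨j, rfl⟩
  let bs := Module.finBasis ℂ T
  refine ⟨finrank ℂ T, fun l => (bs l : E), fun l k => bs.repr ⟨a k, haT k⟩ l, ?_, ?_, ?_, ?_⟩
  · exact bs.linearIndependent.map' T.subtype T.ker_subtype
  · have h1 : Set.range (fun l => (bs l : E)) = T.subtype '' Set.range bs := by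
      rw [← Set.range_comp]
      rfl
    rw [h1, ← Submodule.map_span, bs.span_eq, Submodule.map_subtype_top]
  · intro k
    have h1 := congrArg (fun x : T => (x : E)) (bs.sum_repr ⟨a k, haT k⟩)
    simp only [Submodule.coe_sum, Submodule.coe_smul] at h1
    exact h1.symm
  · intro s hs
    have hφ : ∀ x : T, bs.constr ℂ s x = 0 := by
      rintro ⟨x, hx⟩
      obtain ⟨c, hc⟩ := (Submodule.mem_span_range_iff_exists_fun ℂ).mp hx
      have h1 : (⟨x, hx⟩ : T) = ∑ k, c k • ⟨a k, haT k⟩ := by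
        apply Subtype.ext
        rw [Submodule.coe_sum]
        exact hc.symm
      rw [h1, map_sum]
      refine Finset.sum_eq_zero fun k _ => ?_
      rw [map_smul, Module.Basis.constr_apply_fintype]
      have h2 := congrFun hs k
      rw [Finset.sum_apply, Pi.zero_apply] at h2
      have h3 : ∑ i, bs.equivFun ⟨a k, haT k⟩ i • s i = 0 := by
        rw [← h2]
        refine Finset.sum_congr rfl fun l _ => ?_
        rw [Pi.smul_apply, smul_eq_mul, smul_eq_mul, mul_comm]
        rfl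
      rw [h3, smul_zero]
    funext l
    have h1 := hφ (bs l)
    rw [Module.Basis.constr_basis] at h1
    exact h1

/-- CHUNK C1 (M).  Copy of `hasQ_cone` (Lib/H67T/CC.lean).  Changes.  (1) Instead of `LinearIndependent ℂ a` (which used `hspan`): `T` is finite
dimensional, let `m = finrank T` and `a''` be the basis `Module.finBasis ℂ T` (coerced to `Polynomial A`), `cc k l` the coordinates:
`a k = ∑ l, cc l k • a'' l` with `cc : Fin m → Fin (n + 1) → ℂ`.  `cc` is linearly independent: the `a k` span `T`, i.e. if `∑ l, s l • cc l = 0` then the linear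
form `∑ l, s l (coordinate l)` vanishes at all `a k`, hence on `T`, hence `s = 0`.  `pb i l = ε i (a'' l)`; `p i k = ε i (a k) = ∑ l, cc l k * pb i l`, so
`p i = ∑ l, pb i l • cc l`.  (2) `b l = Ideal.Quotient.mk I (lf (cc l))`: linearly independent by `hnd` and the independence of the `cc l`
(`∑ s l • b l = mk (lf (∑ s l • cc l))`); `Bands b (∑ l, ε i (a'' l) • b l)`: this element is `mk (lf (p i))`, so `bands_quot hI (hnd _ (hp0 i)) (hred i) cc`.
(3) `hasQ_abstract a'' ..` (`span (range a'') = T`), it gives `Pb`; `P = aeval (fun l => lf (cc l)) Pb`; `P ∉ I` because `mk P = aeval b Pb`.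
`eval (y z) P = eval (fun l => lin (cc l) (y z)) Pb`.  (4) For `y` with `CurvePos N p y` (constant `c₀`), `N + 1 ≤ k`: with the first `N + 1` indices,
`c₀ ‖y z‖ ≤ ∑ a, ‖lin (pb ..) (ȳ z)‖ ≤ A ‖ȳ z‖`: so `ȳ` has no zero, is `IsHol`, and `hasQ_transfer` applies. -/
theorem hasQ_coneR {A : Type*} [CommRing A] [IsDomain A] [Algebra ℂ A] {n k q c N : ℕ}
    (t : Fin n → A) {F : ℕ → Submodule ℂ A}
    (hF : IsFilt F) (htF : ∀ j, t j ∈ F 1) (hgrow : ∀ s, finrank ℂ (F s) ≤ q * s + c)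
    (τ : Fin q → (A →ₐ[ℂ] ℂ)) (hτ : ∀ l m, l ≠ m → ∃ j, τ l (t j) ≠ τ m (t j))
    (y₀ : Fin (n + 1) → ℂ) (hy₀ne : ∑ j, y₀ j • (Fin.cons 1 t : Fin (n + 1) → A) j ≠ 0)
    (hy₀ : ∀ l, τ l (∑ j, y₀ j • (Fin.cons 1 t : Fin (n + 1) → A) j) = 0)
    (L : (Fin (n + 1) → ℂ) ≃ₗ[ℂ] (Fin (n + 1) → ℂ)) (p : Fin k → Fin (n + 1) → ℂ)
    (hNk : N + 1 ≤ k)
    (h0 : ∀ i, trh L (p i) 0 ≠ 0) (ε' : Fin k → (A →ₐ[ℂ] ℂ))
    (hε' : ∀ l j, ε' l (t j) * trh L (p l) 0 = trh L (p l) j.succ)
    (hε'sep : ∀ l m, l ≠ m → ∃ j, ε' l (t j) ≠ ε' m (t j))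
    (hkq : q < k)
    (I : Ideal (MvPolynomial (Fin (n + 1)) ℂ)) [I.IsPrime]
    (hI : I.IsHomogeneous (homogeneousSubmodule (Fin (n + 1)) ℂ))
    (hnd : ∀ y : Fin (n + 1) → ℂ, y ≠ 0 → lf y ∉ I) (hred : ∀ i, ReducedSection I (p i)) :
    ∃ P : MvPolynomial (Fin (n + 1)) ℂ, P ∉ I ∧
      ∀ y : ℂ → Fin (n + 1) → ℂ, IsHol y → CurvePos N p y → (∃ z, eval (y z) P ≠ 0) → HasQ p q y := by
  set a' : Fin (n + 1) → Polynomial A := cn t with ha'
  set ε : Fin k → (Polynomial A →ₐ[ℂ] ℂ) := fun l => pev (ε' l) (trh L (p l) 0) with hε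
  have hεa' : ∀ l j, ε l (a' j) = trh L (p l) j := by
    intro l j
    refine Fin.cases ?_ (fun j => ?_) j
    · exact pev_cn_zero _ _ _
    · rw [hε, ha']
      simp only
      rw [pev_cn_succ, hε']
  have hp0 : ∀ i, p i ≠ 0 := by
    intro i h1
    apply h0 i
    rw [h1]
    simp [trh]
  -- the elements corresponding to the original coordinates
  set a : Fin (n + 1) → Polynomial A := fun k => ∑ j, L.symm (Pi.single k 1) j • a' j
    with ha
  have hεa : ∀ l k, ε l (a k) = p l k := by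
    intro l k
    simp only [ha, map_sum, map_smul, smul_eq_mul, hεa']
    have h1 := sum_trh L (p l) (L.symm (Pi.single k 1))
    rw [LinearEquiv.apply_symm_apply] at h1
    have h2 : ∑ j, p l j * (Pi.single k 1 : Fin (n + 1) → ℂ) j = p l k := by
      simp [Pi.single_apply]
    rw [h2] at h1
    rw [← h1]
    exact Finset.sum_congr rfl fun j _ => mul_comm _ _
  have haa' : ∀ v : Fin (n + 1) → ℂ, ∑ j, v j • a' j = ∑ k, L v k • a k := by
    intro v
    have h1 : ∀ j, ∑ k, L v k * L.symm (Pi.single k 1) j = v j := by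
      intro j
      have h2 := congrFun (map_eq_sum L.symm.toLinearMap (L v)) j
      have h3 : L.symm.toLinearMap (L v) = v := L.symm_apply_apply v
      rw [h3] at h2
      rw [h2, Finset.sum_apply]
      rfl
    simp only [ha, Finset.smul_sum, smul_smul]
    rw [Finset.sum_comm]
    refine Finset.sum_congr rfl fun j _ => ?_
    rw [← Finset.sum_smul, h1]
  obtain ⟨m, a'', cc, hli, hspan'', hacc, hccli⟩ := c1_basis a
  set T := Submodule.span ℂ (Set.range a) with hT
  have hTa' : T = Submodule.span ℂ (Set.range a') := by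
    apply le_antisymm
    · rw [hT, Submodule.span_le]
      rintro _ ⟨k, rfl⟩
      exact Submodule.sum_mem _ fun j _ => Submodule.smul_mem _ _ (Submodule.subset_span ⟨j, rfl⟩)
    · rw [Submodule.span_le]
      rintro _ ⟨j, rfl⟩
      have h1 := haa' (Pi.single j 1)
      have h2 : ∑ j', (Pi.single j 1 : Fin (n + 1) → ℂ) j' • a' j' = a' j := by
        simp [Pi.single_apply]
      rw [h2] at h1
      rw [h1]
      exact Submodule.sum_mem _ fun k _ => Submodule.smul_mem _ _ (Submodule.subset_span ⟨k, rfl⟩)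
  have haT' : ∀ j, a' j ∈ T := fun j => by rw [hTa']; exact Submodule.subset_span ⟨j, rfl⟩
  have hX : (Polynomial.X : Polynomial A) ∈ T := by
    have h1 : (Polynomial.X : Polynomial A) = a' 0 := by
      rw [ha', cn, Fin.cons_zero, map_one, one_mul]
    rw [h1]
    exact haT' 0
  have hsepT : ∀ (f g : A →ₐ[ℂ] ℂ) (c c' : ℂ), c ≠ 0 → c' ≠ 0 → (∃ j, f (t j) ≠ g (t j)) →
      ∃ x ∈ T, pev f c x ≠ 0 ∧ pev g c' x = 0 := by
    rintro f g c c' hc hc' ⟨j, hj⟩
    refine ⟨a' j.succ - g (t j) • a' 0, T.sub_mem (haT' _) (T.smul_mem _ (haT' _)), ?_, ?_⟩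
    · rw [map_sub, map_smul, ha', pev_cn_succ, pev_cn_zero, smul_eq_mul, ← sub_mul]
      exact mul_ne_zero (sub_ne_zero.mpr hj) hc
    · rw [map_sub, map_smul, ha', pev_cn_succ, pev_cn_zero, smul_eq_mul, sub_self]
  have hnonT : ∀ (f : A →ₐ[ℂ] ℂ) (c : ℂ), c ≠ 0 → ∃ x ∈ T, pev f c x ≠ 0 := by
    intro f c hc
    exact ⟨_, hX, by rw [pev_X]; exact hc⟩
  have hη : ∑ j, y₀ j • a' j =
      Polynomial.C (∑ j, y₀ j • (Fin.cons 1 t : Fin (n + 1) → A) j) * Polynomial.X := by
    rw [map_sum, Finset.sum_mul]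
    refine Finset.sum_congr rfl fun j _ => ?_
    rw [ha', cn, ← smul_mul_assoc, Polynomial.smul_C]
  have g1 : ∀ s, finrank ℂ ↥(T ^ s) ≤ q * s + c := by
    intro s
    rw [hTa']
    exact (finrank_span_cn_pow_le hF htF s).trans (hgrow s)
  -- the coordinates with respect to the basis
  have hpcc : ∀ i, p i = ∑ l, ε i (a'' l) • cc l := by
    intro i
    funext j
    rw [← hεa i j, hacc j, map_sum, Finset.sum_apply]
    refine Finset.sum_congr rfl fun l _ => ?_
    rw [map_smul, Pi.smul_apply, smul_eq_mul, smul_eq_mul, mul_comm]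
  -- the coordinate ring
  set b : Fin m → MvPolynomial (Fin (n + 1)) ℂ ⧸ I := fun l => Ideal.Quotient.mk I (lf (cc l))
    with hb
  have hbli : LinearIndependent ℂ b := by
    rw [Fintype.linearIndependent_iff]
    intro s hs
    rw [hb] at hs
    simp only at hs
    rw [c1_mk_sum, Ideal.Quotient.eq_zero_iff_mem] at hs
    have h1 : ∑ l, s l • cc l = 0 := by
      by_contra hcon
      exact hnd _ hcon hs
    intro j
    rw [hccli s h1]
    rfl
  have hBands : ∀ i, Bands b (∑ l, ε i (a'' l) • b l) := by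
    intro i
    have h1 : ∑ l, ε i (a'' l) • b l = Ideal.Quotient.mk I (lf (p i)) := by
      rw [hb]
      simp only
      rw [c1_mk_sum, ← hpcc i]
    rw [h1]
    exact bands_quot hI (hnd _ (hp0 i)) (hred i) cc
  rw [← hspan''] at g1 hsepT hnonT haT'
  obtain ⟨Pb, hPb, hmain⟩ := hasQ_abstract a'' hli g1 (fun l => pev (τ l) 1)
    (fun l => hnonT _ _ one_ne_zero)
    (fun l m hlm => hsepT _ _ _ _ one_ne_zero one_ne_zero (hτ l m hlm))
    (∑ j, y₀ j • a' j)
    (Submodule.sum_mem _ fun j _ => Submodule.smul_mem _ _ (haT' j))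
    (by
      rw [hη]
      exact mul_ne_zero (Polynomial.C_ne_zero.mpr hy₀ne) Polynomial.X_ne_zero)
    (fun l => by
      rw [hη, map_mul, pev_C, pev_X, mul_one]
      exact hy₀ l) ε (fun l => hnonT _ _ (h0 _))
    (fun l m hlm => hsepT _ _ _ _ (h0 _) (h0 _) (hε'sep l m hlm)) hkq b hbli hBands
  refine ⟨aeval (fun l => lf (cc l)) Pb, fun h1 => hPb ?_, fun y hy hpos hyP => ?_⟩
  · have h2 : Ideal.Quotient.mkₐ ℂ I (aeval (fun l => lf (cc l)) Pb) = aeval b Pb := by
      rw [comp_aeval_apply]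
      rfl
    rw [← h2]
    exact Ideal.Quotient.eq_zero_iff_mem.mpr h1
  · obtain ⟨c₀, hc₀, hc⟩ := hpos
    have hle : ∀ z, c₀ * ‖y z‖ ≤ (∑ i : Fin (N + 1), ∑ l, ‖ε (Fin.castLE hNk i) (a'' l)‖) *
        ‖fun l => lin (cc l) (y z)‖ := by
      intro z
      refine (hc (Fin.castLE hNk) (Fin.castLE_injective hNk) z).trans ?_
      rw [Finset.sum_mul]
      refine Finset.sum_le_sum fun i _ => ?_
      rw [hpcc, c1_lin_sum, Finset.sum_mul]
      refine (norm_sum_le _ _).trans (Finset.sum_le_sum fun l _ => ?_)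
      rw [norm_mul]
      exact mul_le_mul_of_nonneg_left (norm_le_pi_norm (fun l => lin (cc l) (y z)) l) (norm_nonneg _)
    have hB0 : 0 ≤ (∑ i : Fin (N + 1), ∑ l, ‖ε (Fin.castLE hNk i) (a'' l)‖) / c₀ :=
      div_nonneg (Finset.sum_nonneg fun i _ => Finset.sum_nonneg fun l _ => norm_nonneg _) hc₀.le
    have hyB : ∀ z, ‖y z‖ ≤ (∑ i : Fin (N + 1), ∑ l, ‖ε (Fin.castLE hNk i) (a'' l)‖) / c₀ *
        ‖fun l => lin (cc l) (y z)‖ := by
      intro z
      rw [div_mul_eq_mul_div, le_div_iff₀ hc₀, mul_comm ‖y z‖]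
      exact hle z
    refine hasQ_transfer hpcc hy hB0 hyB (hmain _ ⟨fun l => ?_, fun z hz => ?_⟩ ?_)
    · unfold Pool.Agent.H67T.lin
      exact Differentiable.fun_sum fun j _ => (differentiable_const _).mul (hy.diff j)
    · have h1 := hyB z
      rw [hz, norm_zero, mul_zero] at h1
      exact hy.ne_zero z (norm_le_zero_iff.1 h1)
    · obtain ⟨z, hz⟩ := hyP
      refine ⟨z, fun h1 => hz ?_⟩
      have h2 : eval (y z) (aeval (fun l => lf (cc l)) Pb) = eval (fun l => lin (cc l) (y z)) Pb := by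
        have h3 : (aeval (y z) : MvPolynomial (Fin (n + 1)) ℂ →ₐ[ℂ] ℂ) (aeval (fun l => lf (cc l)) Pb) =
            aeval (fun l => lin (cc l) (y z)) Pb := by
          rw [comp_aeval_apply]
          have h4 : (fun l => (aeval (y z) : MvPolynomial (Fin (n + 1)) ℂ →ₐ[ℂ] ℂ) (lf (cc l))) =
              fun l => lin (cc l) (y z) := by
            funext l
            rw [← c1_eval_lf]
            rfl
          rw [h4]
        exact h3
      rw [h2]
      exact h1

end Pool.Agent.H53S
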