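import Pool.Agent.Lib.H53S.C1

set_option autoImplicit false

/-!
H53S, CHUNK C2 (S, copy).  Curves in the dual projective space through many of the given points.
-/

open MvPolynomial Module Pool.Agent.H89.GCurve
open Pool.Agent.H89.Sect Pool.Agent.H89.Kummer Pool.Agent.H89.Poly Pool.Agent.H89.Arr

namespace Pool.Agent.H53S

open Pool.Agent.H67T

attribute [local instance] MvPolynomial.gradedAlgebra

/-- CHUNK C2.  Copy of `exists_curve_hasQ` (Lib/H67T/CS.lean): no `hgp`, no `hspan`; `hasQ_coneR` with `N + 1 ≤ Z.card` (`hZN`); for `y` with `CurvePos N p y`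
the subfamily has `CurvePos N (fun l => p (κ l)) y` (compose with the injective `κ`). -/
theorem exists_curve_hasQR (n N R : ℕ) (hn : 1 ≤ n) : ∃ K₀ : ℕ, ∀ (ι : Type) [Fintype ι]
    (p : ι → Fin (n + 1) → ℂ), (∀ i j, i ≠ j → ∀ c : ℂ, p i ≠ c • p j) →
    ∀ (I : Ideal (MvPolynomial (Fin (n + 1)) ℂ)), I.IsPrime →
      I.IsHomogeneous (homogeneousSubmodule (Fin (n + 1)) ℂ) →
      (∀ y : Fin (n + 1) → ℂ, y ≠ 0 → lf y ∉ I) → (∀ i, ReducedSection I (p i)) →
    ∀ U : Finset ι, K₀ ≤ U.card → ∃ (k d : ℕ) (κ : Fin k → ι), Function.Injective κ ∧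
      (∀ l, κ l ∈ U) ∧ 1 ≤ d ∧ R * d ≤ k ∧ 1 ≤ k ∧
      ∃ P : MvPolynomial (Fin (n + 1)) ℂ, P ∉ I ∧
        ∀ y : ℂ → Fin (n + 1) → ℂ, IsHol y → CurvePos N p y → (∃ z, eval (y z) P ≠ 0) →
          HasQ (fun l => p (κ l)) d y := by
  classical
  obtain ⟨k₀, hk₀⟩ := exists_curve n (max R (N + 2)) hn
  refine ⟨max k₀ 2, fun ι _ p hp I hIp hI hnd hred U hU => ?_⟩
  have hU2 : 2 ≤ U.card := (le_max_right _ _).trans hU
  have hnt : Nontrivial ι := by
    rw [← Fintype.one_lt_card_iff_nontrivial]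
    exact lt_of_lt_of_le one_lt_two (hU2.trans (Finset.card_le_univ U))
  have hp0 : ∀ i, p i ≠ 0 := by
    intro i h0
    obtain ⟨j, hj⟩ := exists_ne i
    exact hp i j hj.symm 0 (by rw [h0, zero_smul])
  -- a point on none of the hyperplanes
  obtain ⟨y, -, hy⟩ := Pool.Agent.H89.Disc.exists_forall_ne (⊤ : Submodule ℂ (Fin (n + 1) → ℂ))
    (fun i : ι => ∑ j, p i j • (LinearMap.proj j : (Fin (n + 1) → ℂ) →ₗ[ℂ] ℂ)) (by
      intro i
      obtain ⟨j, hj⟩ := Function.ne_iff.mp (hp0 i)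
      refine ⟨Pi.single j 1, Submodule.mem_top, ?_⟩
      simpa [LinearMap.sum_apply, Pi.single_apply] using hj)
  have hy' : ∀ i, ∑ j, p i j * y j ≠ 0 := by
    intro i
    simpa [LinearMap.sum_apply] using hy i
  have hy0 : y ≠ 0 := by
    rintro rfl
    obtain ⟨i, -⟩ := hnt.exists_pair_ne
    exact hy' i (by simp)
  obtain ⟨L, hL⟩ : ∃ L : (Fin (n + 1) → ℂ) ≃ₗ[ℂ] (Fin (n + 1) → ℂ), L (Pi.single 0 1) = y := by
    obtain ⟨L, hL⟩ := SeparatingDual.exists_continuousLinearEquiv_apply_eq (R := ℂ)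
      (x := (Pi.single 0 1 : Fin (n + 1) → ℂ)) (y := y) (by
        intro h1
        have := congrFun h1 0
        simp at this) hy0
    exact ⟨L.toLinearEquiv, hL⟩
  -- transformed points
  set p' : ι → Fin (n + 1) → ℂ := fun i => trh L (p i) with hp'
  have h0 : ∀ i, p' i 0 ≠ 0 := by
    intro i
    simp only [hp', trh, hL]
    exact hy' i
  have hz : Function.Injective (az p') := by
    intro i i' hii
    by_contra hne
    apply hp i i' hne (p' i 0 / p' i' 0)
    rw [← sub_eq_zero]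
    apply trh_inj L
    rw [trh_sub, trh_smul]
    change p' i - (p' i 0 / p' i' 0) • p' i' = 0
    have h1 := h0 i
    have h2 := h0 i'
    ext j
    rw [Pi.sub_apply, Pi.smul_apply, smul_eq_mul, Pi.zero_apply, sub_eq_zero]
    refine Fin.cases ?_ (fun j => ?_) j
    · field_simp
    · have h3 := congrFun hii j
      simp only [az] at h3
      rw [div_eq_div_iff h1 h2] at h3
      field_simp
      linear_combination h3
  -- the curve
  obtain ⟨pp, d, hpv, hpd⟩ := hk₀ (U.image (az p')) (by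
    rw [Finset.card_image_of_injective _ hz]
    exact (le_max_left _ _).trans hU)
  have hpp := hpv.prime
  set Z := on (U.image (az p')) pp with hZ
  have hκ : ∀ w : Z, ∃ i, i ∈ U ∧ az p' i = w.1 := by
    intro w
    have h1 := (mem_on.mp w.2).1
    rw [Finset.mem_image] at h1
    obtain ⟨i, hiU, hi⟩ := h1
    exact ⟨i, hiU, hi⟩
  choose κ' hκU' hκ' using hκ
  obtain ⟨κ, hκinj, hκU, hκp⟩ : ∃ κ : Fin Z.card → ι, Function.Injective κ ∧ (∀ l, κ l ∈ U) ∧
      ∀ l, ∀ f ∈ pp, eval (az p' (κ l)) f = 0 := by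
    let eZ : Fin Z.card ≃ Z := (Finset.equivFinOfCardEq rfl).symm
    refine ⟨fun l => κ' (eZ l), fun l l' hll => ?_, fun l => hκU' _, fun l => ?_⟩
    · apply eZ.injective
      apply Subtype.ext
      rw [← hκ', ← hκ' (eZ l')]
      exact congrArg (az p') hll
    · rw [hκ']
      exact (mem_on.mp (eZ l).2).2
  have hd1 := hpv.pos
  have hZR : R * d ≤ Z.card := (Nat.mul_le_mul_right _ (le_max_left _ _)).trans hpd
  have hZN' : (N + 2) * d ≤ Z.card := (Nat.mul_le_mul_right _ (le_max_right _ _)).trans hpd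
  have hZN : N + 2 ≤ Z.card := by
    calc N + 2 = (N + 2) * 1 := by omega
      _ ≤ (N + 2) * d := Nat.mul_le_mul_left _ hd1
      _ ≤ _ := hZN'
  have hdZ : d < Z.card := by
    have h1 : 2 * d ≤ (N + 2) * d := Nat.mul_le_mul_right _ (by omega)
    omega
  choose ε' hε' using fun l => exists_pt (hκp l)
  have hε'' : ∀ l j, ε' l (Ideal.Quotient.mk pp (X j)) * trh L (p (κ l)) 0 =
      trh L (p (κ l)) j.succ := by
    intro l j
    rw [hε']
    exact div_mul_cancel₀ _ (h0 _)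
  obtain ⟨τ', y₀, hτ'inj, hy₀ne, hy₀⟩ := exists_section' hpv
  have g1 : ∀ s, finrank ℂ (Fil pp s) ≤ d * s + d := by
    intro s
    have h1 := hpv.upper s
    rw [B_one] at h1
    calc finrank ℂ (Fil pp s) ≤ d * (s + 1) := h1
      _ = d * s + d := by ring
  have g3 : ∀ l m, l ≠ m →
      ∃ j, τ' l (Ideal.Quotient.mk pp (X j)) ≠ τ' m (Ideal.Quotient.mk pp (X j)) := by
    intro l m hlm
    by_contra hcon
    push Not at hcon
    exact hlm (hτ'inj (algHom_ext_quot hcon))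
  have g8 : ∀ l m, l ≠ m →
      ∃ j, ε' l (Ideal.Quotient.mk pp (X j)) ≠ ε' m (Ideal.Quotient.mk pp (X j)) := by
    intro l m hlm
    by_contra hcon
    push Not at hcon
    apply hlm
    apply hκinj
    apply hz
    ext j
    rw [← hε', ← hε']
    exact hcon j
  obtain ⟨P, hP, hmain⟩ := hasQ_coneR (N := N) (fun j => Ideal.Quotient.mk pp (X j))
    (isFilt_Fil pp) (fun j => mk_mem_Fil (by rw [totalDegree_X])) g1 τ' g3 y₀ hy₀ne hy₀ L
    (fun l => p (κ l)) (by omega) (fun l => h0 _) ε' hε'' g8 hdZ I hI hnd (fun l => hred _)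
  refine ⟨Z.card, d, κ, hκinj, hκU, hd1, hZR, by omega, P, hP, fun y hyh hyp hyP => ?_⟩
  refine hmain y hyh ?_ hyP
  obtain ⟨c, hc, hcp⟩ := hyp
  exact ⟨c, hc, fun s hs z => hcp (fun a => κ (s a)) (hκinj.comp hs) z⟩

end Pool.Agent.H53S
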