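import Pool.Agent.Lib.H53S.D0

set_option autoImplicit false

/-!
H53S, CHUNK V1 (M).  A basis of the forms of degree `δ` modulo an ideal.
-/

open MvPolynomial Module
open Pool.Agent.H89.Sect Pool.Agent.H89.Arr

namespace Pool.Agent.H53S

open Pool.Agent.H67T

/-- CHUNK V1.  PROOF.  `W = (homogeneousSubmodule (Fin n) ℂ δ)` is spanned by the monomials `monomial μ 1` with `μ.degree = δ` (`homogeneousSubmodule_eq_span_X_pow..` or
directly `as_sum`), which are finitely many: all such `μ` satisfy `μ j ≤ δ`, so they are the image of an injective map into `Fin n → Fin (δ + 1)`, cardinality `(δ + 1) ^ n`.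
Let `Q` be the image of `W` in `MvPolynomial (Fin n) ℂ ⧸ I` (`W.map (Ideal.Quotient.mkₐ ℂ I).toLinearMap`), finite dimensional, `M = finrank Q ≤ (δ + 1) ^ n`
(`finrank_span_le_card` or `finrank_map_le` and `finrank_range_le_card`); `Module.finBasis ℂ Q`, choose `g l ∈ W` over the basis vectors.  `indep`: the basis is independent (`map_sum`,
`Ideal.Quotient.eq_zero_iff_mem`; `C c * g = c • g`).  `span`: coordinates. -/
theorem exists_basisD {n : ℕ} (I : Ideal (MvPolynomial (Fin n) ℂ)) (δ : ℕ) :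
    ∃ (M : ℕ) (g : Fin M → MvPolynomial (Fin n) ℂ), M ≤ (δ + 1) ^ n ∧ BasisD I δ g := by
  classical
  obtain ⟨q, hq⟩ : ∃ q : MvPolynomial (Fin n) ℂ →ₗ[ℂ] (MvPolynomial (Fin n) ℂ ⧸ I),
      ∀ F, q F = Ideal.Quotient.mk I F := ⟨(Ideal.Quotient.mkₐ ℂ I).toLinearMap, fun _ => rfl⟩
  have hq0 : ∀ F, q F = 0 ↔ F ∈ I := fun F => by
    rw [hq, Ideal.Quotient.eq_zero_iff_mem]
  obtain ⟨m, hm⟩ : ∃ m : (Fin n → Fin (δ + 1)) → MvPolynomial (Fin n) ℂ,
      ∀ s, m s = monomial (Finsupp.equivFunOnFinite.symm (fun j => (s j : ℕ))) 1 :=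
    ⟨_, fun _ => rfl⟩
  have hW : homogeneousSubmodule (Fin n) ℂ δ ≤ Submodule.span ℂ (Set.range m) := by
    intro F hF
    rw [F.as_sum]
    apply Submodule.sum_mem
    intro μ hμ
    have hF' : F.IsHomogeneous δ := (mem_homogeneousSubmodule δ F).1 hF
    have hd : μ.degree = δ := by
      have := hF' (mem_support_iff.1 hμ)
      rw [Finsupp.degree_eq_weight_one]
      exact this
    have hj : ∀ j, μ j < δ + 1 := fun j => by
      have := Finsupp.le_degree j μ
      omega
    have he : monomial μ (coeff μ F) = (coeff μ F) • m (fun j => ⟨μ j, hj j⟩) := by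
      rw [hm, smul_monomial, smul_eq_mul, mul_one]
      congr 1
      ext j
      simp
    rw [he]
    exact Submodule.smul_mem _ _ (Submodule.subset_span ⟨_, rfl⟩)
  have hle : (homogeneousSubmodule (Fin n) ℂ δ).map q ≤ Submodule.span ℂ (Set.range (q ∘ m)) := by
    refine (Submodule.map_mono hW).trans ?_
    rw [Submodule.map_span, ← Set.range_comp]
  have hfin : FiniteDimensional ℂ (Submodule.span ℂ (Set.range (q ∘ m))) :=
    FiniteDimensional.span_of_finite ℂ (Set.finite_range _)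
  have hfinQ : FiniteDimensional ℂ ((homogeneousSubmodule (Fin n) ℂ δ).map q) :=
    Submodule.finiteDimensional_of_le hle
  have hcard : finrank ℂ ((homogeneousSubmodule (Fin n) ℂ δ).map q) ≤ (δ + 1) ^ n := by
    refine (Submodule.finrank_mono hle).trans ?_
    refine (finrank_range_le_card (q ∘ m)).trans ?_
    simp
  obtain ⟨b, hb⟩ : ∃ b : Basis (Fin (finrank ℂ ((homogeneousSubmodule (Fin n) ℂ δ).map q))) ℂ
      ((homogeneousSubmodule (Fin n) ℂ δ).map q), b = Module.finBasis ℂ _ := ⟨_, rfl⟩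
  have hg : ∀ l, ∃ g ∈ homogeneousSubmodule (Fin n) ℂ δ, q g = (b l : MvPolynomial (Fin n) ℂ ⧸ I) :=
    fun l => (Submodule.mem_map).1 (b l).2
  choose g hgW hgq using hg
  have hsum : ∀ c : Fin (finrank ℂ ((homogeneousSubmodule (Fin n) ℂ δ).map q)) → ℂ,
      q (∑ l, C (c l) * g l) =
        ((∑ l, c l • b l : (homogeneousSubmodule (Fin n) ℂ δ).map q) :
          MvPolynomial (Fin n) ℂ ⧸ I) := by
    intro c
    rw [map_sum, Submodule.coe_sum]
    refine Finset.sum_congr rfl fun l _ => ?_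
    rw [← smul_eq_C_mul, map_smul, hgq]
    rfl
  refine ⟨_, g, hcard, ⟨fun l => (mem_homogeneousSubmodule δ _).1 (hgW l), ?_, ?_⟩⟩
  · intro c hc
    have h1 := (hq0 _).2 hc
    rw [hsum] at h1
    have h2 : ∑ l, c l • b l = 0 := Subtype.ext h1
    have h3 := (Fintype.linearIndependent_iff.1 b.linearIndependent) c h2
    exact funext h3
  · intro F hF
    have hFQ : q F ∈ (homogeneousSubmodule (Fin n) ℂ δ).map q :=
      Submodule.mem_map_of_mem ((mem_homogeneousSubmodule δ F).2 hF)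
    refine ⟨fun l => b.repr ⟨q F, hFQ⟩ l, (hq0 _).1 ?_⟩
    rw [map_sub, hsum, b.sum_repr]
    exact sub_self _

end Pool.Agent.H53S
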