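import Pool.Agent.Lib.H53S.V2a

set_option autoImplicit false

/-!
H53S, CHUNK V2b (M).  Reducedness under the Veronese embedding.
-/

open MvPolynomial Module Real MeasureTheory
open Pool.Agent.H89.Sect Pool.Agent.H89.Arr

namespace Pool.Agent.H53S

open Pool.Agent.H67T

attribute [local instance] MvPolynomial.gradedAlgebra

theorem V2b_lf {n M : ℕ} (g : Fin M → MvPolynomial (Fin n) ℂ) (p : Fin M → ℂ) :
    aeval g (lf p) = ∑ l, C (p l) * g l := by
  unfold lf
  rw [map_sum]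
  refine Finset.sum_congr rfl fun l _ => ?_
  rw [map_mul, aeval_X, aeval_C, algebraMap_eq]

/-- CHUNK V2b (M).  Reducedness.  `I' = I.comap (aeval g)`.  PROOF.  `r₀' = r₀ + 1` (then `δ * r ≥ r₀` as `1 ≤ δ`, and `r ≥ 1`).  Let `V` be homogeneous of degree `r ≥ r₀'`,
`V ^ s ∈ I' ⊔ (lf p)`.  Then `W = aeval g V` is homogeneous of degree `δ * r` (`IsHomogeneous.aeval`-like lemma: `MvPolynomial.IsHomogeneous.aeval`/`eval₂`) and
`W ^ s ∈ I ⊔ (F)` since `aeval g (lf p) = ∑ l, C (p l) * g l ≡ F mod I`.  So `W ∈ I ⊔ (F)` by `hred`, `W = a + b * F` with `a ∈ I`; take the homogeneous component of degree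
`δ * r` (`I` homogeneous, `F` homogeneous of degree `δ`): `W ≡ b₀ * F mod I` with `b₀` homogeneous of degree `δ * (r - 1)`; `veronese_lift` for `b₀` gives `V₀`,
and `aeval g (V - V₀ * lf p) ∈ I`. -/
theorem reduced_veronese {n M δ : ℕ} (hδ : 1 ≤ δ) {I : Ideal (MvPolynomial (Fin n) ℂ)}
    (hI : I.IsHomogeneous (homogeneousSubmodule (Fin n) ℂ)) {g : Fin M → MvPolynomial (Fin n) ℂ}
    (hg : BasisD I δ g) {F : MvPolynomial (Fin n) ℂ} (hF : F.IsHomogeneous δ) (hred : ReducedF I F)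
    {p : Fin M → ℂ} (hp : F - ∑ l, C (p l) * g l ∈ I) :
    ReducedSection (I.comap (aeval g : MvPolynomial (Fin M) ℂ →ₐ[ℂ] MvPolynomial (Fin n) ℂ)) p := by
  obtain ⟨r₀, hr₀⟩ := hred
  refine ⟨r₀ + 1, fun r hr V hV hVrad => ?_⟩
  have hlf := V2b_lf g p
  have hle : I.comap (aeval g : MvPolynomial (Fin M) ℂ →ₐ[ℂ] MvPolynomial (Fin n) ℂ) ⊔
      Ideal.span {lf p} ≤ (I ⊔ Ideal.span {F}).comap
        (aeval g : MvPolynomial (Fin M) ℂ →ₐ[ℂ] MvPolynomial (Fin n) ℂ) := by
    refine sup_le (Ideal.comap_mono le_sup_left) ?_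
    rw [Ideal.span_singleton_le_iff_mem, Ideal.mem_comap, hlf]
    have h1 : ∑ l, C (p l) * g l = F - (F - ∑ l, C (p l) * g l) := by ring
    rw [h1]
    exact sub_mem ((le_sup_right : Ideal.span {F} ≤ _) (Ideal.mem_span_singleton_self F))
      ((le_sup_left : I ≤ _) hp)
  have hW : (aeval g V).IsHomogeneous (δ * r) := hV.aeval g hg.forms
  have hWrad : aeval g V ∈ (I ⊔ Ideal.span {F}).radical := by
    obtain ⟨s, hs⟩ := hVrad
    refine ⟨s, ?_⟩
    have h1 := hle hs
    rw [Ideal.mem_comap, map_pow] at h1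
    exact h1
  have hrr : r₀ ≤ δ * r := by nlinarith
  have hWmem := hr₀ (δ * r) hrr _ hW hWrad
  obtain ⟨a, ha, b', hb', hab⟩ := Submodule.mem_sup.1 hWmem
  obtain ⟨b, rfl⟩ := Ideal.mem_span_singleton'.1 hb'
  obtain ⟨r', rfl⟩ : ∃ r', r = r' + 1 := ⟨r - 1, by omega⟩
  have ha₀ : homogeneousComponent (δ * (r' + 1)) a ∈ I := homogeneousComponent_mem_of_mem hI ha _
  have hdec : aeval g V = homogeneousComponent (δ * (r' + 1)) a +
      F * homogeneousComponent (δ * r') b := by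
    have h1 : homogeneousComponent (δ * (r' + 1)) (aeval g V) = aeval g V := by
      rw [homogeneousComponent_of_mem hW, if_pos rfl]
    have h2 : δ * (r' + 1) = δ + δ * r' := by ring
    rw [← h1, ← hab, map_add, mul_comm b F]
    congr 1
    rw [h2]
    exact hc_mul hF b (δ * r')
  obtain ⟨V₀, hV₀, hV₀I⟩ := veronese_lift hg r' (homogeneousComponent_isHomogeneous (δ * r') b)
  have hmem : V - V₀ * lf p ∈
      I.comap (aeval g : MvPolynomial (Fin M) ℂ →ₐ[ℂ] MvPolynomial (Fin n) ℂ) := by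
    rw [Ideal.mem_comap, map_sub, map_mul, hlf, hdec]
    have h1 : homogeneousComponent (δ * (r' + 1)) a + F * homogeneousComponent (δ * r') b -
        aeval g V₀ * ∑ l, C (p l) * g l =
        homogeneousComponent (δ * (r' + 1)) a +
          F * (homogeneousComponent (δ * r') b - aeval g V₀) +
          aeval g V₀ * (F - ∑ l, C (p l) * g l) := by ring
    rw [h1]
    exact add_mem (add_mem ha₀ (I.mul_mem_left _ hV₀I)) (I.mul_mem_left _ hp)
  have hV' : V = (V - V₀ * lf p) + V₀ * lf p := by ring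
  rw [hV']
  exact Submodule.add_mem_sup hmem (Ideal.mem_span_singleton'.2 ⟨V₀, rfl⟩)

end Pool.Agent.H53S
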