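import Pool.Agent.Lib.H53S.D1
import Pool.Agent.Lib.H53S.V2b

set_option autoImplicit false

/-!
H53S, CHUNK W2 (S/M).  The hypotheses `DataR` for the Veronese image of `Y`.
-/

open MvPolynomial Module Real MeasureTheory
open Pool.Agent.H89.Sect Pool.Agent.H89.Arr

namespace Pool.Agent.H53S

open Pool.Agent.H67T

attribute [local instance] MvPolynomial.gradedAlgebra

/-- CHUNK W2.  PROOF.  Prime: `Ideal.comap_isPrime`.  Homogeneous: `imageIdeal_isHomogeneous` (Lib/H89/Arr/Criterion.lean) with `J := I`, `f := g`, `D := δ`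
(`imageIdeal I g = I.comap (aeval g)` by definition).  Nondegenerate: `aeval g (lf c) = ∑ l, C (c l) * g l`, `hg.indep`.  Distinct: `p i = c • p j` gives `F i - C c * F j ∈ I`.
Reduced: `reduced_veronese`. -/
theorem dataR_comap {n δ M : ℕ} (hδ : 1 ≤ δ) {I : Ideal (MvPolynomial (Fin n) ℂ)} (hIp : I.IsPrime)
    (hI : I.IsHomogeneous (homogeneousSubmodule (Fin n) ℂ))
    {g : Fin (M + 1) → MvPolynomial (Fin n) ℂ} (hg : BasisD I δ g) {ι : Type}
    {F : ι → MvPolynomial (Fin n) ℂ} (hFδ : ∀ i, (F i).IsHomogeneous δ) (hF : HypI I F)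
    {p : ι → Fin (M + 1) → ℂ} (hp : ∀ i, F i - ∑ l, C (p i l) * g l ∈ I) :
    DataR p (I.comap (aeval g : MvPolynomial (Fin (M + 1)) ℂ →ₐ[ℂ] MvPolynomial (Fin n) ℂ)) where
  distinct := by
    intro i j hij c hc
    refine hF.distinct i j hij c ?_
    have h1 : ∑ l, C (p i l) * g l = C c * ∑ l, C (p j l) * g l := by
      rw [Finset.mul_sum]
      refine Finset.sum_congr rfl fun l _ => ?_
      rw [hc, Pi.smul_apply, smul_eq_mul, C_mul, mul_assoc]
    have h2 : F i - C c * F j = (F i - ∑ l, C (p i l) * g l) -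
        C c * (F j - ∑ l, C (p j l) * g l) := by
      rw [h1]
      ring
    rw [h2]
    exact sub_mem (hp i) (Ideal.mul_mem_left _ _ (hp j))
  prime := Ideal.comap_isPrime _ _
  homogeneous := imageIdeal_isHomogeneous (D := δ) hδ hI hg.forms
  nondegenerate := by
    intro y hy hmem
    rw [Ideal.mem_comap, V2b_lf] at hmem
    exact hy (hg.indep y hmem)
  reduced := fun i => reduced_veronese hδ hI hg (hFδ i) (hF.reduced i) (hp i)

end Pool.Agent.H53S
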