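import Pool.Agent.Lib.H53S.W3a

set_option autoImplicit false

/-!
H53S, CHUNK W3b (M).  The Veronese curve: no common zeros, position.
-/

open MvPolynomial Module Real MeasureTheory
open Pool.Agent.H89.Sect Pool.Agent.H89.Arr

namespace Pool.Agent.H53S

open Pool.Agent.H67T

attribute [local instance] MvPolynomial.gradedAlgebra

/-- CHUNK W3b.  PROOF.  `IsHol`: `differentiable_eval`, and `veronese_normI` (`y z ≠ 0`).  `lin (p i) (g (y)) = eval y (F i)` at zeros of `I` by `hp`.  Position: `‖g (y)‖ ≤ A' ‖y‖ ^ δ` for forms of degree `δ`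
(`A' = 1 + ∑ l, ∑ |coefficients|`; compare `avg_form_le` in Lib/H67T/GH4.lean, or H89T), so `c / A' * ‖g (y)‖ ≤ c * ‖y‖ ^ δ ≤ ∑ a, ‖eval y (F (s a))‖`. -/
theorem veronese_curveI {n δ M N : ℕ} (hδ : 1 ≤ δ) {I : Ideal (MvPolynomial (Fin n) ℂ)}
    {g : Fin M → MvPolynomial (Fin n) ℂ} (hg : BasisD I δ g) {ι : Type}
    {F : ι → MvPolynomial (Fin n) ℂ} {p : ι → Fin M → ℂ}
    (hp : ∀ i, F i - ∑ l, C (p i l) * g l ∈ I)
    {y : ℂ → Fin n → ℂ} (hy : IsHol y) (hyI : ∀ z, ∀ G ∈ I, eval (y z) G = 0)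
    (hpos : CurvePosF N (fun _ => δ) F y) :
    IsHol (fun z l => eval (y z) (g l)) ∧ CurvePos N p (fun z l => eval (y z) (g l)) ∧
      ∀ i z, lin (p i) (fun l => eval (y z) (g l)) = eval (y z) (F i) := by
  have hne : ∀ z, (fun l => eval (y z) (g l)) ≠ 0 := by
    intro z h0
    obtain ⟨A, hA, hb⟩ := veronese_normI hδ hg
    have h1 := hb (y z) (hyI z)
    rw [h0, norm_zero, mul_zero] at h1
    have h2 : 0 < ‖y z‖ ^ δ := pow_pos (norm_pos_iff.mpr (hy.ne_zero z)) _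
    linarith
  have hlin : ∀ i z, lin (p i) (fun l => eval (y z) (g l)) = eval (y z) (F i) := by
    intro i z
    have h1 := hyI z _ (hp i)
    rw [map_sub, sub_eq_zero, map_sum] at h1
    rw [h1, H67T.lin]
    refine Finset.sum_congr rfl fun l _ => ?_
    rw [map_mul, eval_C]
  refine ⟨⟨fun l => differentiable_eval hy.diff (g l), hne⟩, ?_, hlin⟩
  obtain ⟨c, hc, hs⟩ := hpos
  set A : ℝ := 1 + ∑ l, (1 + ∑ t ∈ (g l).support, ‖(g l).coeff t‖) with hA
  have hA0 : 0 < A := by positivity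
  have hup : ∀ z, ‖fun l => eval (y z) (g l)‖ ≤ A * ‖y z‖ ^ δ := by
    intro z
    refine (pi_norm_le_iff_of_nonneg (by positivity)).2 fun l => ?_
    refine (GH4_eval_le (hg.forms l) (y z)).trans ?_
    refine mul_le_mul_of_nonneg_right ?_ (by positivity)
    have h1 : (1 + ∑ t ∈ (g l).support, ‖(g l).coeff t‖) ≤
        ∑ l, (1 + ∑ t ∈ (g l).support, ‖(g l).coeff t‖) :=
      Finset.single_le_sum (f := fun l => 1 + ∑ t ∈ (g l).support, ‖(g l).coeff t‖)
        (fun i _ => by positivity) (Finset.mem_univ l)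
    linarith
  refine ⟨c / A, by positivity, fun s hsi z => ?_⟩
  have h1 := hs s hsi z
  have hy0 : 0 < ‖y z‖ ^ δ := pow_pos (norm_pos_iff.mpr (hy.ne_zero z)) _
  have h2 : c * ‖y z‖ ^ δ ≤ ∑ a, ‖eval (y z) (F (s a))‖ := by
    rw [← Finset.sum_div, le_div_iff₀ hy0] at h1
    exact h1
  calc c / A * ‖fun l => eval (y z) (g l)‖ ≤ c / A * (A * ‖y z‖ ^ δ) :=
        mul_le_mul_of_nonneg_left (hup z) (by positivity)
    _ = c * ‖y z‖ ^ δ := by field_simp
    _ ≤ ∑ a, ‖eval (y z) (F (s a))‖ := h2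
    _ = ∑ a, ‖lin (p (s a)) (fun l => eval (y z) (g l))‖ :=
        Finset.sum_congr rfl fun a _ => by rw [hlin]

end Pool.Agent.H53S
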