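import Pool.Agent.Lib.H53S.G2
import Pool.Agent.Lib.H89T.T3

set_option autoImplicit false

/-!
H53S, G3.  The polynomial `P` can be taken homogeneous.
-/

open MvPolynomial Module Real MeasureTheory
open Pool.Agent.H89.Sect Pool.Agent.H89.Arr

namespace Pool.Agent.H53S

open Pool.Agent.H67T Pool.Agent.H89T

/-- A polynomial whose values on all multiples of `y` by the `D`-th powers vanish has all its homogeneous
components zero at `y`. -/
theorem component_zero {n D : ℕ} (hD : 1 ≤ D) {P : MvPolynomial (Fin n) ℂ} {y : Fin n → ℂ}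
    (h : ∀ t : ℂ, t ≠ 0 → eval (t ^ D • y) P = 0) (b : ℕ) : eval y (homogeneousComponent b P) = 0 := by
  refine Pool.Agent.H89.Kummer.eval_homogeneousComponent_eq_zero (fun c hc => ?_) b
  obtain ⟨t, ht⟩ := IsAlgClosed.exists_pow_nat_eq c (show 0 < D by omega)
  have ht0 : t ≠ 0 := by
    rintro rfl
    rw [zero_pow (by omega)] at ht
    exact hc ht.symm
  rw [← ht]
  exact h t ht0

theorem eval_f_act {m n D : ℕ} {w : Fin m → ℕ} {f : Fin (n + 1) → MvPolynomial (Fin m) ℂ}
    (hf : ∀ j, (f j).IsWeightedHomogeneous w D) (t : ℂ) (x : Fin m → ℂ) :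
    (fun j => eval (act w t x) (f j)) = t ^ D • fun j => eval x (f j) := by
  funext j
  rw [eval_act (hf j)]
  rfl

theorem eval_smul_hom {n d : ℕ} {F : MvPolynomial (Fin n) ℂ} (hF : F.IsHomogeneous d) (c : ℂ)
    (y : Fin n → ℂ) : eval (c • y) F = c ^ d * eval y F := by
  have h := eval_act (w := fun _ => 1) (F := F) (D := d) hF c y
  have h1 : act (fun _ => 1) c y = c • y := by
    funext i
    simp [act]
  rw [h1] at h
  exact h

/-- Forms in the `f j` are forms. -/
theorem aeval_isWH {m n D b : ℕ} {w : Fin m → ℕ} {f : Fin (n + 1) → MvPolynomial (Fin m) ℂ}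
    (hf : ∀ j, (f j).IsWeightedHomogeneous w D) {P : MvPolynomial (Fin (n + 1)) ℂ}
    (hP : P.IsHomogeneous b) :
    (aeval f P : MvPolynomial (Fin m) ℂ).IsWeightedHomogeneous w (D * b) := by
  rw [MvPolynomial.aeval_def, MvPolynomial.eval₂_eq']
  refine IsWeightedHomogeneous.sum _ _ _ fun s hs => ?_
  have hs1 : ∑ i, s i = b := by
    have h1 := hP.degree_eq_sum_deg_support hs
    rw [h1]
    exact (Finset.sum_subset (Finset.subset_univ _) fun i _ hi =>
      Finsupp.notMem_support_iff.1 hi).symm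
  have h1 : (∏ i, f i ^ s i).IsWeightedHomogeneous w (∑ i, s i • D) :=
    IsWeightedHomogeneous.prod _ _ _ fun i _ => (hf i).pow (s i)
  have h2 : (∑ i, s i • D) = D * b := by
    rw [← hs1, Finset.mul_sum]
    exact Finset.sum_congr rfl fun i _ => by rw [smul_eq_mul, mul_comm]
  rw [h2] at h1
  have h3 := (isWeightedHomogeneous_C w (coeff s P)).mul h1
  rwa [zero_add] at h3

/-- **Covers ramified over hypersurfaces**, homogeneous version. -/
theorem coversH (n N δ : ℕ) (ε : ℝ) (hε : 0 < ε) : ∃ k₀ : ℕ, 1 ≤ k₀ ∧ ∀ (ι : Type) [Fintype ι],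
    k₀ ≤ Fintype.card ι → ∀ (d : ι → ℕ) (F : ι → MvPolynomial (Fin (n + 1)) ℂ)
    (m D : ℕ) (w : Fin m → ℕ) (J : Ideal (MvPolynomial (Fin m) ℂ))
    (f : Fin (n + 1) → MvPolynomial (Fin m) ℂ), WMapD w J D f → (∀ i, 1 ≤ d i ∧ d i ≤ δ) →
    (∀ i, (F i).IsHomogeneous (d i)) → HypI (imageIdeal J f) F → PosX N J f F →
    ∃ (b : ℕ) (P : MvPolynomial (Fin (n + 1)) ℂ), P.IsHomogeneous b ∧ P ∉ imageIdeal J f ∧
      ∀ (e a : ℕ) (R : MvPolynomial (Fin m) ℂ), 1 ≤ e → R.IsWeightedHomogeneous w a →
        (a : ℝ) ≤ e * ((1 - ε) * (∑ i, d i : ℕ) * D) →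
        ∀ u : ℂ → Fin m → ℂ, IsHol u → (∀ z, ∀ G ∈ J, eval (u z) G = 0) →
          (∃ z z', ∀ t : ℂ, u z' ≠ act w t (u z)) →
          (∀ (z : ℂ) (U : Finset ι), (∀ i ∈ U, eval (fun j => eval (u z) (f j)) (F i) = 0) →
            ((e * U.card : ℕ) : ℕ∞) ≤ analyticOrderAt (fun z => eval (u z) R) z) →
          ∀ z, eval (fun j => eval (u z) (f j)) P * eval (u z) R = 0 := by
  classical
  obtain ⟨k₀, hk₀, h⟩ := coversW n N δ ε hε
  refine ⟨k₀, hk₀, fun ι _ hk d F m D w J f hX hd hF hI hpos => ?_⟩
  obtain ⟨P, hP, hcov⟩ := h ι hk d F m D w J f hX hd hF hI hpos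
  obtain ⟨b, hb⟩ : ∃ b, homogeneousComponent b P ∉ imageIdeal J f := by
    by_contra hcon
    push Not at hcon
    apply hP
    rw [← sum_homogeneousComponent P]
    exact Ideal.sum_mem _ fun b _ => hcon b
  refine ⟨b, homogeneousComponent b P, homogeneousComponent_isHomogeneous b P, hb, ?_⟩
  intro e a R he hR ha u hu huJ hnc hord z
  by_cases hRz : eval (u z) R = 0
  · rw [hRz, mul_zero]
  · have hact : ∀ t : ℂ, t ≠ 0 → eval (t ^ D • fun j => eval (u z) (f j)) P = 0 := by
      intro t ht
      have hut : IsHol fun z => act w t (u z) := by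
        refine ⟨fun i => ?_, fun z h0 => ?_⟩
        · exact (hu.diff i).const_mul (t ^ w i)
        · apply hu.ne_zero z
          funext i
          have h1 := congrFun h0 i
          have h2 : t ^ w i * u z i = 0 := h1
          exact (mul_eq_zero.1 h2).resolve_left (pow_ne_zero _ ht)
      have hutJ : ∀ z, ∀ G ∈ J, eval (act w t (u z)) G = 0 := fun z =>
        eval_act_mem hX.homogeneous (huJ z) t
      have hutnc : ∃ z z', ∀ s : ℂ, act w t (u z') ≠ act w s (act w t (u z)) := by
        obtain ⟨z₁, z₂, h1⟩ := hnc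
        refine ⟨z₁, z₂, fun s hs => h1 s ?_⟩
        funext i
        have h2 := congrFun hs i
        have h3 : t ^ w i * u z₂ i = s ^ w i * (t ^ w i * u z₁ i) := h2
        have h4 : t ^ w i * u z₂ i = t ^ w i * (s ^ w i * u z₁ i) := by rw [h3]; ring
        exact mul_left_cancel₀ (pow_ne_zero _ ht) h4
      have h1 := hcov e a R he hR ha (fun z => act w t (u z)) hut hutJ hutnc (by
        intro z' U hU
        have h2 : (fun z => eval (act w t (u z)) R) = fun z => t ^ a * eval (u z) R := by
          funext z''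
          exact eval_act hR t (u z'')
        rw [h2]
        have h3 : ∀ i ∈ U, eval (fun j => eval (u z') (f j)) (F i) = 0 := by
          intro i hi
          have h4 := hU i hi
          rw [eval_f_act hX.forms, eval_smul_hom (hF i)] at h4
          exact (mul_eq_zero.1 h4).resolve_left (pow_ne_zero _ (pow_ne_zero _ ht))
        refine (hord z' U h3).trans (le_of_eq ?_)
        have hRd := differentiable_eval hu.diff R
        have h5 : (fun z => t ^ a * eval (u z) R) = (fun _ : ℂ => t ^ a) * fun z => eval (u z) R := rfl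
        rw [h5, analyticOrderAt_mul analyticAt_const (hRd.analyticAt z')]
        have h6 : analyticOrderAt (fun _ : ℂ => t ^ a) z' = 0 := by
          rw [analyticAt_const.analyticOrderAt_eq_zero]
          exact pow_ne_zero _ ht
        rw [h6, zero_add]) z
      rw [map_mul] at h1
      have h2 : eval (act w t (u z)) R ≠ 0 := by
        rw [eval_act hR]
        exact mul_ne_zero (pow_ne_zero _ ht) hRz
      have h3 := (mul_eq_zero.1 h1).resolve_right h2
      rw [← eval_f_act hX.forms]
      have h4 : eval (act w t (u z)) (aeval f P) = eval (fun j => eval (act w t (u z)) (f j)) P := by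
        rw [MvPolynomial.aeval_def, MvPolynomial.hom_eval₂]
        unfold MvPolynomial.eval
        simp only [coe_eval₂Hom]
        congr 1
        ext z
        simp
      rw [← h4]
      exact h3
    rw [component_zero hX.pos hact b, zero_mul]

end Pool.Agent.H53S
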