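import Pool.Agent.Lib.H53S.C2
import Pool.Agent.Lib.H67T.SM1

set_option autoImplicit false

/-!
H53S, CHUNK S1 (S, copy).  Covering the hyperplanes by curves.
-/

open MvPolynomial Module Real MeasureTheory
open Pool.Agent.H89.Sect Pool.Agent.H89.Arr

namespace Pool.Agent.H53S

open Pool.Agent.H67T

attribute [local instance] MvPolynomial.gradedAlgebra

/-- CHUNK S1.  Copy of `cover_smt` (Lib/H67T/SM1.lean) with `exists_curve_hasQR`; the hypothesis `CurvePos N p y` is passed on. -/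
theorem cover_smtR (n N R₀ : ℕ) (hn : 1 ≤ n) (hR₀ : 2 ≤ R₀) : ∃ K₁ : ℕ, ∀ (ι : Type) [Fintype ι]
    (p : ι → Fin (n + 1) → ℂ) (I : Ideal (MvPolynomial (Fin (n + 1)) ℂ)), DataR p I →
    ∀ U : Finset ι, ∃ P : MvPolynomial (Fin (n + 1)) ℂ, P ∉ I ∧
      ∀ y : ℂ → Fin (n + 1) → ℂ, IsHol y → CurvePos N p y → (∃ z, eval (y z) P ≠ 0) →
        ∃ C : ℝ, 0 ≤ C ∧ ∀ r R : ℝ, 1 ≤ r → r < R →
          (1 - 2 / (R₀ : ℝ)) * ((U.card : ℝ) - K₁) * chi y r ≤
            ∑ i ∈ U, N1 (fun z => lin (p i) (y z)) r + C * err y r R := by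
  classical
  obtain ⟨K₀, hK₀⟩ := exists_curve_hasQR n N R₀ hn
  refine ⟨max K₀ 2, fun ι _ p I hD U => ?_⟩
  have hR₀' : (2 : ℝ) ≤ R₀ := by exact_mod_cast hR₀
  have hR₀pos : (0 : ℝ) < R₀ := by linarith
  set θ : ℝ := 1 - 2 / (R₀ : ℝ) with hθ
  have hθ0 : 0 ≤ θ := by
    rw [hθ, sub_nonneg, div_le_one hR₀pos]
    exact hR₀'
  set K : ℕ := max K₀ 2 with hK
  have hprime := hD.prime
  induction U using Finset.strongInduction with
  | H U ih =>
  by_cases hU : U.card < K
  · refine ⟨1, fun h1 => hprime.ne_top ((Ideal.eq_top_iff_one I).mpr h1), fun y hy _ _ => ?_⟩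
    have hUr : (U.card : ℝ) ≤ K := by exact_mod_cast hU.le
    refine ⟨θ * ((K : ℝ) - U.card) * |chi y 1|,
      mul_nonneg (mul_nonneg hθ0 (by linarith)) (abs_nonneg _), fun r R hr hrR => ?_⟩
    have hchi : -|chi y 1| ≤ chi y r := (neg_abs_le _).trans (chi_mono hy one_pos hr)
    have h1 : 0 ≤ ∑ i ∈ U, N1 (fun z => lin (p i) (y z)) r :=
      Finset.sum_nonneg fun i _ => N1_nonneg _ hr
    have h2 : 0 ≤ θ * ((K : ℝ) - U.card) * (chi y r + |chi y 1|) :=
      mul_nonneg (mul_nonneg hθ0 (by linarith)) (by linarith)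
    have h3 : θ * ((K : ℝ) - U.card) * |chi y 1| ≤
        θ * ((K : ℝ) - U.card) * |chi y 1| * err y r R :=
      le_mul_of_one_le_right (mul_nonneg (mul_nonneg hθ0 (by linarith)) (abs_nonneg _))
        (NS2_err_ge y r R)
    nlinarith [h1, h2, h3]
  · push Not at hU
    have hU1 : K₀ ≤ U.card := (le_max_left _ _).trans hU
    have hU2 : 2 ≤ U.card := (le_max_right _ _).trans hU
    have hnt : Nontrivial ι := by
      rw [← Fintype.one_lt_card_iff_nontrivial]
      exact lt_of_lt_of_le one_lt_two (hU2.trans (Finset.card_le_univ U))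
    have hp0 : ∀ i, p i ≠ 0 := by
      intro i h0
      obtain ⟨j, hj⟩ := exists_ne i
      exact hD.distinct i j hj.symm 0 (by rw [h0, zero_smul])
    obtain ⟨k, d, κ, hκ, hκU, hd, hdk, hk1, P₁, hP₁, hmain⟩ :=
      hK₀ ι p hD.distinct I hD.prime hD.homogeneous hD.nondegenerate hD.reduced U hU1
    set V : Finset ι := Finset.univ.image κ with hV
    have hVU : V ⊆ U := by
      intro i hi
      obtain ⟨l, -, rfl⟩ := Finset.mem_image.mp hi
      exact hκU l
    have hVcard : V.card = k := by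
      rw [hV, Finset.card_image_of_injective _ hκ, Finset.card_univ, Fintype.card_fin]
    have hss : U \ V ⊂ U := by
      refine Finset.sdiff_ssubset hVU ?_
      rw [← Finset.card_pos, hVcard]
      omega
    obtain ⟨P₂, hP₂, hmain₂⟩ := ih (U \ V) hss
    have hlfX : ∀ j : Fin (n + 1), lf (Pi.single j (1 : ℂ)) = X j := by
      intro j
      rw [lf, Finset.sum_eq_single j]
      · simp
      · intro i _ hi
        rw [Pi.single_eq_of_ne hi, map_zero, zero_mul]
      · intro h; exact absurd (Finset.mem_univ _) h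
    refine ⟨P₁ * P₂ * (∏ l, lf (p (κ l))) * ∏ j, X j, ?_, ?_⟩
    · intro h1
      rcases hprime.mem_or_mem h1 with h1 | h1
      · rcases hprime.mem_or_mem h1 with h1 | h1
        · rcases hprime.mem_or_mem h1 with h1 | h1
          · exact hP₁ h1
          · exact hP₂ h1
        · obtain ⟨l, -, hl⟩ := hprime.prod_mem_iff.mp h1
          exact hD.nondegenerate _ (hp0 _) hl
      · obtain ⟨j, -, hj⟩ := hprime.prod_mem_iff.mp h1
        rw [← hlfX] at hj
        refine hD.nondegenerate _ ?_ hj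
        intro h2
        have h3 := congrFun h2 j
        simp at h3
    · rintro y hy hcp ⟨z, hz⟩
      simp only [map_mul, map_prod, eval_X, eval_lf, mul_ne_zero_iff, Finset.prod_ne_zero_iff,
        Finset.mem_univ, true_implies] at hz
      obtain ⟨⟨⟨hz1, hz2⟩, hz3⟩, hz4⟩ := hz
      obtain ⟨C₁, hC₁, hC₁'⟩ := curve_smt hy (p := fun l => p (κ l)) (fun l => ⟨z, hz3 l⟩)
        (fun j => ⟨z, hz4 j⟩) (hmain y hy hcp ⟨z, hz1⟩)
      obtain ⟨C₂, hC₂, hC₂'⟩ := hmain₂ y hy hcp ⟨z, hz2⟩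
      set δ : ℝ := 2 / (R₀ : ℝ) * k - 2 * d with hδ
      have hδ0 : 0 ≤ δ := by
        have h1 : (R₀ : ℝ) * d ≤ k := by exact_mod_cast hdk
        have h2 : 2 / (R₀ : ℝ) * ((R₀ : ℝ) * d) ≤ 2 / (R₀ : ℝ) * k :=
          mul_le_mul_of_nonneg_left h1 (by positivity)
        have h3 : 2 / (R₀ : ℝ) * ((R₀ : ℝ) * d) = 2 * d := by
          field_simp
        rw [hδ]
        linarith
      refine ⟨C₁ + C₂ + δ * |chi y 1|, by positivity, fun r R hr hrR => ?_⟩
      have hchi : -|chi y 1| ≤ chi y r := (neg_abs_le _).trans (chi_mono hy one_pos hr)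
      have h1 := hC₁' r R hr hrR
      have h2 := hC₂' r R hr hrR
      have h3 : ∑ i ∈ U, N1 (fun z => lin (p i) (y z)) r =
          ∑ l, N1 (fun z => lin (p (κ l)) (y z)) r +
            ∑ i ∈ U \ V, N1 (fun z => lin (p i) (y z)) r := by
        rw [← Finset.sum_sdiff hVU, add_comm, hV, Finset.sum_image fun a _ b _ h => hκ h]
      have h4 : ((U \ V).card : ℝ) = U.card - k := by
        rw [Finset.card_sdiff_of_subset hVU, hVcard, Nat.cast_sub]
        rw [← hVcard]
        exact Finset.card_le_card hVU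
      have h5 : δ * |chi y 1| ≤ δ * |chi y 1| * err y r R :=
        le_mul_of_one_le_right (mul_nonneg hδ0 (abs_nonneg _)) (NS2_err_ge y r R)
      have h6 : 0 ≤ δ * (chi y r + |chi y 1|) := mul_nonneg hδ0 (by linarith)
      have h7 : θ * k = k - 2 * d - δ := by
        rw [hθ, hδ]
        ring
      rw [h3]
      rw [h4] at h2
      have h8 : θ * ((U.card : ℝ) - K) * chi y r =
          θ * ((U.card : ℝ) - k - K) * chi y r + (k - 2 * d - δ) * chi y r := by
        rw [← h7]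
        ring
      rw [h8]
      nlinarith [h1, h2, h5, h6]

end Pool.Agent.H53S
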