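import Pool.Agent.Lib.H53S.S1
import Pool.Agent.Lib.H67T.SM2
import Pool.Agent.Lib.H67T.NB
import Pool.Agent.Lib.H67T.NSE
import Pool.Agent.Lib.H67T.NM2

set_option autoImplicit false

/-!
H53S, CHUNK S2 (S, copy).  The second main theorem for hyperplane sections in subgeneral position along the curve.
-/

open MvPolynomial Module Real MeasureTheory
open Pool.Agent.H89.Sect Pool.Agent.H89.Arr

namespace Pool.Agent.H53S

open Pool.Agent.H67T

attribute [local instance] MvPolynomial.gradedAlgebra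

/-- The purely numerical part of the second main theorem. -/
private theorem SM2_num {K₁ : ℕ} {R₀ : ℕ} {k ε c T K β C L S er δ : ℝ}
    (h2R : 2 / (R₀ : ℝ) ≤ ε / 3) (hR0 : 0 ≤ 2 / (R₀ : ℝ)) (hK₁ : (K₁ : ℝ) ≤ ε / 3 * k)
    (hβ : β = (1 - 2 / (R₀ : ℝ)) * (k - K₁) - (1 - ε) * k)
    (hk : 0 ≤ k) (hC : 0 ≤ C) (hT1 : 1 ≤ T) (hcT : T - 2 * K ≤ c) (hβ0 : 0 < ε / 3 * k)
    (hδ : δ = ε / 3 * k / (5 * C + 1)) (her : er ≤ 5 * (log T + L))
    (h : (1 - 2 / (R₀ : ℝ)) * (k - K₁) * c ≤ S + C * er) :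
    (1 - ε) * k * c ≤ S + 5 * C * L + (2 * K * β + 5 * C * |log δ|) := by
  have hβge : ε / 3 * k ≤ β := by
    rw [hβ]
    have h1 : 2 / (R₀ : ℝ) * k ≤ ε / 3 * k := mul_le_mul_of_nonneg_right h2R hk
    have h2 : 0 ≤ 2 / (R₀ : ℝ) * K₁ := mul_nonneg hR0 (Nat.cast_nonneg _)
    nlinarith
  have hβpos : 0 < β := lt_of_lt_of_le hβ0 hβge
  have hδpos : 0 < δ := by rw [hδ]; positivity
  have e1 : (1 - ε) * k * c = (1 - 2 / (R₀ : ℝ)) * (k - K₁) * c - β * c := by rw [hβ]; ring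
  have e2 : β * (T - 2 * K) ≤ β * c := mul_le_mul_of_nonneg_left hcT hβpos.le
  have e3 : C * er ≤ C * (5 * (log T + L)) := mul_le_mul_of_nonneg_left her hC
  have hTpos : 0 < T := by linarith
  have e4 : log T ≤ δ * T - log δ := by
    have h1 := Real.log_le_sub_one_of_pos (mul_pos hδpos hTpos)
    rw [Real.log_mul hδpos.ne' hTpos.ne'] at h1
    linarith
  have e5 : 5 * C * log T ≤ 5 * C * (δ * T - log δ) := mul_le_mul_of_nonneg_left e4 (by positivity)
  have e6 : 5 * C * δ ≤ β := by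
    refine le_trans ?_ hβge
    rw [hδ, ← mul_div_assoc, div_le_iff₀ (by positivity)]
    nlinarith
  have e7 : 5 * C * δ * T ≤ β * T := mul_le_mul_of_nonneg_right e6 hTpos.le
  have e8 : -(5 * C * log δ) ≤ 5 * C * |log δ| := by
    have := mul_le_mul_of_nonneg_left (neg_abs_le (log δ)) (by positivity : 0 ≤ 5 * C)
    linarith
  rw [e1]
  nlinarith

/-- CHUNK S2.  Copy of `smt` (Lib/H67T/SM2.lean; the private lemma `SM2_num` must be copied too) with `cover_smtR`. -/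
theorem smtR (n N : ℕ) (hn : 1 ≤ n) (ε : ℝ) (hε : 0 < ε) : ∃ k₀ : ℕ, ∀ (ι : Type) [Fintype ι],
    k₀ ≤ Fintype.card ι → ∀ (p : ι → Fin (n + 1) → ℂ)
    (I : Ideal (MvPolynomial (Fin (n + 1)) ℂ)), DataR p I →
    ∃ P : MvPolynomial (Fin (n + 1)) ℂ, P ∉ I ∧
      ∀ y : ℂ → Fin (n + 1) → ℂ, IsHol y → CurvePos N p y → (∃ z, eval (y z) P ≠ 0) →
        ∃ (C : ℝ) (E : Set ℝ), volume E < ⊤ ∧ ∀ r : ℝ, 2 ≤ r → r ∉ E →
          (1 - ε) * Fintype.card ι * chi y r ≤
            ∑ i, N1 (fun z => lin (p i) (y z)) r + C * log r := by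
  obtain ⟨R₀, hR₀⟩ : ∃ R₀ : ℕ, 6 / ε + 2 ≤ R₀ := exists_nat_ge _
  have h6 : 0 < 6 / ε := by positivity
  have hR2' : (2 : ℝ) ≤ R₀ := by linarith
  have hR2 : 2 ≤ R₀ := by exact_mod_cast hR2'
  have hRpos : (0 : ℝ) < R₀ := by linarith
  have h2R : 2 / (R₀ : ℝ) ≤ ε / 3 := by
    rw [div_le_iff₀ hRpos]
    have h1 : 6 / ε ≤ R₀ := by linarith
    rw [div_le_iff₀ hε] at h1
    linarith
  obtain ⟨K₁, hcov⟩ := cover_smtR n N R₀ hn hR2
  obtain ⟨k₀, hk₀⟩ : ∃ k₀ : ℕ, 3 * (K₁ : ℝ) / ε + 1 ≤ k₀ := exists_nat_ge _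
  refine ⟨k₀, fun ι _ hcard p I hD => ?_⟩
  obtain ⟨P, hPI, hP⟩ := hcov ι p I hD Finset.univ
  refine ⟨P, hPI, fun y hy hpos hPy => ?_⟩
  obtain ⟨C, hC0, hC⟩ := hP y hy hpos hPy
  set k : ℝ := (Fintype.card ι : ℝ) with hkdef
  have hkk : (k₀ : ℝ) ≤ k := by rw [hkdef]; exact_mod_cast hcard
  have hK₁0 : (0 : ℝ) ≤ 3 * (K₁ : ℝ) / ε := by positivity
  have hk1 : 1 ≤ k := by linarith
  have hK₁k : (K₁ : ℝ) ≤ ε / 3 * k := by
    have h1 : 3 * (K₁ : ℝ) / ε ≤ k := by linarith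
    rw [div_le_iff₀ hε] at h1
    linarith
  set K : ℝ := max 1 |chi y 1| with hK
  have hK1 : 1 ≤ K := le_max_left _ _
  have hlow : ∀ r : ℝ, 1 ≤ r → -K ≤ chi y r := by
    intro r hr
    have h1 := chi_mono hy (r := 1) (R := r) one_pos hr
    have h2 := neg_abs_le (chi y 1)
    have h3 : |chi y 1| ≤ K := le_max_right _ _
    linarith
  set T : ℝ → ℝ := fun r => max K (chi y r) with hT
  have hTmono : MonotoneOn T (Set.Ici 1) := by
    intro a ha b hb hab
    exact max_le_max le_rfl (chi_mono hy (lt_of_lt_of_le one_pos ha) hab)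
  have hT1 : ∀ r, 1 ≤ r → 1 ≤ T r := fun r _ => hK1.trans (le_max_left _ _)
  obtain ⟨E, hEm, hEv, hE⟩ := borel hTmono hT1
  have hβ0 : 0 < ε / 3 * k := by positivity
  set β : ℝ := (1 - 2 / (R₀ : ℝ)) * (k - K₁) - (1 - ε) * k with hβ
  set δ : ℝ := ε / 3 * k / (5 * C + 1) with hδ
  have hlog2 : 0 < log 2 := Real.log_pos (by norm_num)
  refine ⟨5 * C + abs (2 * K * β + 5 * C * |log δ|) / log 2, E, lt_of_le_of_lt hEv (by simp), ?_⟩
  intro r hr hrE
  have hr1 : 1 ≤ r := by linarith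
  have hTr := hT1 r hr1
  have hTpos : 0 < T r := by linarith
  have hR := hE r hr1 hrE
  have hR1 : 1 ≤ r + 1 / T r := by
    have : 0 < 1 / T r := by positivity
    linarith
  have hrR : r < r + 1 / T r := by
    have : 0 < 1 / T r := by positivity
    linarith
  have habs : |chi y (r + 1 / T r)| ≤ 2 * T r := by
    rw [abs_le]
    constructor
    · have h1 := hlow _ hR1
      have h2 : K ≤ T r := le_max_left _ _
      linarith
    · exact le_trans (le_max_right _ _) hR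
  have herr := err_le (y := y) hr hTr habs
  have hcT : T r - 2 * K ≤ chi y r := by
    have h1 := hlow r hr1
    have h2 : T r = max K (chi y r) := rfl
    rcases le_total K (chi y r) with h3 | h3
    · rw [h2, max_eq_right h3]; linarith
    · rw [h2, max_eq_left h3]; linarith
  have hmain := hC r (r + 1 / T r) hr1 hrR
  rw [Finset.card_univ] at hmain
  have hnum := SM2_num (K₁ := K₁) (R₀ := R₀) (k := k) (ε := ε) (c := chi y r) (T := T r) (K := K)
    (β := β) (C := C) (L := log r) (S := ∑ i, N1 (fun z => lin (p i) (y z)) r)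
    (er := err y r (r + 1 / T r)) (δ := δ) h2R (by positivity) hK₁k hβ (by linarith) hC0 hTr hcT hβ0
    hδ herr hmain
  refine hnum.trans ?_
  have hlr : log 2 ≤ log r := Real.log_le_log (by norm_num) hr
  have h9 : 2 * K * β + 5 * C * |log δ| ≤ abs (2 * K * β + 5 * C * |log δ|) / log 2 * log r := by
    calc 2 * K * β + 5 * C * |log δ| ≤ abs (2 * K * β + 5 * C * |log δ|) := le_abs_self _
      _ = abs (2 * K * β + 5 * C * |log δ|) / log 2 * log 2 := by
        rw [div_mul_cancel₀ _ hlog2.ne']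
      _ ≤ _ := mul_le_mul_of_nonneg_left hlr (by positivity)
  linarith

end Pool.Agent.H53S
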