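import Pool.Agent.Lib.H53S.W3a

set_option autoImplicit false

/-!
H53S, CHUNK W3 (S).  The characteristic function of the Veronese curve.
-/

open MvPolynomial Module Real MeasureTheory
open Pool.Agent.H89.Sect Pool.Agent.H89.Arr

namespace Pool.Agent.H53S

open Pool.Agent.H67T

attribute [local instance] MvPolynomial.gradedAlgebra

/-- CHUNK W3.  PROOF.  `veronese_normI` and `chi_comp_ge` (Lib/H67T/GH3.lean) with `D := δ`, `δ := 1 / A`, `u := y`. -/
theorem veronese_chiI {n δ M : ℕ} (hδ : 1 ≤ δ) {I : Ideal (MvPolynomial (Fin n) ℂ)}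
    {g : Fin M → MvPolynomial (Fin n) ℂ} (hg : BasisD I δ g)
    {y : ℂ → Fin n → ℂ} (hy : IsHol y) (hyI : ∀ z, ∀ G ∈ I, eval (y z) G = 0)
    (hy' : IsHol (fun z l => eval (y z) (g l))) :
    ∃ K : ℝ, ∀ r : ℝ, 0 < r → δ * chi y r - K ≤ chi (fun z l => eval (y z) (g l)) r := by
  obtain ⟨A, hA, hn⟩ := veronese_normI hδ hg
  refine ⟨log A, fun r hr => ?_⟩
  have h := chi_comp_ge hy hy' (one_div_pos.mpr hA) (D := δ) (fun z => ?_) hr
  · rw [one_div, log_inv] at h
    linarith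
  · have h1 := hn (y z) (hyI z)
    rw [one_div, inv_mul_le_iff₀ hA]
    exact h1

end Pool.Agent.H53S
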