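import Pool.Agent.Lib.H53S.G3

set_option autoImplicit false

/-!
H53S, G5.  Covers ramified over hypersurfaces; the exceptional set depends on `Y` and the
hypersurfaces only.
-/

open MvPolynomial Module Real MeasureTheory
open Pool.Agent.H89.Sect Pool.Agent.H89.Arr

namespace Pool.Agent.H53S

open Pool.Agent.H67T Pool.Agent.H89T

attribute [local instance] MvPolynomial.gradedAlgebra

/-- Homogeneous components of `P`. -/
theorem covers_component {m n D : ℕ} {ι : Type} [Fintype ι] {ε : ℝ} {d : ι → ℕ}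
    {F : ι → MvPolynomial (Fin (n + 1)) ℂ} {w : Fin m → ℕ} {J : Ideal (MvPolynomial (Fin m) ℂ)}
    {f : Fin (n + 1) → MvPolynomial (Fin m) ℂ} (hX : WMapD w J D f)
    (hF : ∀ i, (F i).IsHomogeneous (d i)) {P : MvPolynomial (Fin (n + 1)) ℂ}
    (hcov :
      ∀ (e a : ℕ) (R : MvPolynomial (Fin m) ℂ), 1 ≤ e → R.IsWeightedHomogeneous w a →
        (a : ℝ) ≤ e * ((1 - ε) * (∑ i, d i : ℕ) * D) →
        ∀ u : ℂ → Fin m → ℂ, IsHol u → (∀ z, ∀ G ∈ J, eval (u z) G = 0) →
          (∃ z z', ∀ t : ℂ, u z' ≠ act w t (u z)) →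
          (∀ (z : ℂ) (U : Finset ι), (∀ i ∈ U, eval (fun j => eval (u z) (f j)) (F i) = 0) →
            ((e * U.card : ℕ) : ℕ∞) ≤ analyticOrderAt (fun z => eval (u z) R) z) →
          ∀ z, eval (u z) (aeval f P * R) = 0) (b : ℕ) :
      ∀ (e a : ℕ) (R : MvPolynomial (Fin m) ℂ), 1 ≤ e → R.IsWeightedHomogeneous w a →
        (a : ℝ) ≤ e * ((1 - ε) * (∑ i, d i : ℕ) * D) →
        ∀ u : ℂ → Fin m → ℂ, IsHol u → (∀ z, ∀ G ∈ J, eval (u z) G = 0) →
          (∃ z z', ∀ t : ℂ, u z' ≠ act w t (u z)) →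
          (∀ (z : ℂ) (U : Finset ι), (∀ i ∈ U, eval (fun j => eval (u z) (f j)) (F i) = 0) →
            ((e * U.card : ℕ) : ℕ∞) ≤ analyticOrderAt (fun z => eval (u z) R) z) →
          ∀ z, eval (fun j => eval (u z) (f j)) (homogeneousComponent b P) * eval (u z) R = 0 := by
  intro e a R he hR ha u hu huJ hnc hord z
  by_cases hRz : eval (u z) R = 0
  · rw [hRz, mul_zero]
  · have hact : ∀ t : ℂ, t ≠ 0 → eval (t ^ D • fun j => eval (u z) (f j)) P = 0 := by
      intro t ht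
      have hut : IsHol fun z => act w t (u z) := by
        refine ⟨fun i => ?_, fun z h0 => ?_⟩
        · exact (hu.diff i).const_mul (t ^ w i)
        · apply hu.ne_zero z
          funext i
          have h1 := congrFun h0 i
          have h2 : t ^ w i * u z i = 0 := h1
          exact (mul_eq_zero.1 h2).resolve_left (pow_ne_zero _ ht)
      have hutJ : ∀ z, ∀ G ∈ J, eval (act w t (u z)) G = 0 := fun z =>
        eval_act_mem hX.homogeneous (huJ z) t
      have hutnc : ∃ z z', ∀ s : ℂ, act w t (u z') ≠ act w s (act w t (u z)) := by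
        obtain ⟨z₁, z₂, h1⟩ := hnc
        refine ⟨z₁, z₂, fun s hs => h1 s ?_⟩
        funext i
        have h2 := congrFun hs i
        have h3 : t ^ w i * u z₂ i = s ^ w i * (t ^ w i * u z₁ i) := h2
        have h4 : t ^ w i * u z₂ i = t ^ w i * (s ^ w i * u z₁ i) := by rw [h3]; ring
        exact mul_left_cancel₀ (pow_ne_zero _ ht) h4
      have h1 := hcov e a R he hR ha (fun z => act w t (u z)) hut hutJ hutnc (by
        intro z' U hU
        have h2 : (fun z => eval (act w t (u z)) R) = fun z => t ^ a * eval (u z) R := by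
          funext z''
          exact eval_act hR t (u z'')
        rw [h2]
        have h3 : ∀ i ∈ U, eval (fun j => eval (u z') (f j)) (F i) = 0 := by
          intro i hi
          have h4 := hU i hi
          rw [eval_f_act hX.forms, eval_smul_hom (hF i)] at h4
          exact (mul_eq_zero.1 h4).resolve_left (pow_ne_zero _ (pow_ne_zero _ ht))
        refine (hord z' U h3).trans (le_of_eq ?_)
        have hRd := differentiable_eval hu.diff R
        have h5 : (fun z => t ^ a * eval (u z) R) = (fun _ : ℂ => t ^ a) * fun z => eval (u z) R := rfl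
        rw [h5, analyticOrderAt_mul analyticAt_const (hRd.analyticAt z')]
        have h6 : analyticOrderAt (fun _ : ℂ => t ^ a) z' = 0 := by
          rw [analyticAt_const.analyticOrderAt_eq_zero]
          exact pow_ne_zero _ ht
        rw [h6, zero_add]) z
      rw [map_mul] at h1
      have h2 : eval (act w t (u z)) R ≠ 0 := by
        rw [eval_act hR]
        exact mul_ne_zero (pow_ne_zero _ ht) hRz
      have h3 := (mul_eq_zero.1 h1).resolve_right h2
      rw [← eval_f_act hX.forms]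
      have h4 : eval (act w t (u z)) (aeval f P) = eval (fun j => eval (act w t (u z)) (f j)) P := by
        rw [MvPolynomial.aeval_def, MvPolynomial.hom_eval₂]
        unfold MvPolynomial.eval
        simp only [coe_eval₂Hom]
        congr 1
        ext z
        simp
      rw [← h4]
      exact h3
    rw [component_zero hX.pos hact b, zero_mul]

/-- **Covers ramified over hypersurfaces**, with an exceptional set that depends on `Y` and the
hypersurfaces only. -/
theorem coversU (n N δ : ℕ) (ε : ℝ) (hε : 0 < ε) : ∃ k₀ : ℕ, 1 ≤ k₀ ∧ ∀ (ι : Type) [Fintype ι],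
    k₀ ≤ Fintype.card ι → ∀ (d : ι → ℕ) (F : ι → MvPolynomial (Fin (n + 1)) ℂ)
    (I : Ideal (MvPolynomial (Fin (n + 1)) ℂ)), I.IsPrime →
    I.IsHomogeneous (homogeneousSubmodule (Fin (n + 1)) ℂ) → (∀ i, 1 ≤ d i ∧ d i ≤ δ) →
    (∀ i, (F i).IsHomogeneous (d i)) → HypI I F →
    (∀ y : Fin (n + 1) → ℂ, y ≠ 0 → (∀ G ∈ I, eval y G = 0) → ∀ s : Fin (N + 1) → ι,
      Function.Injective s → ∃ a, eval y (F (s a)) ≠ 0) →
    ∃ (b : ℕ) (P : MvPolynomial (Fin (n + 1)) ℂ), P.IsHomogeneous b ∧ P ∉ I ∧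
      ∀ (m D : ℕ) (w : Fin m → ℕ) (J : Ideal (MvPolynomial (Fin m) ℂ))
      (f : Fin (n + 1) → MvPolynomial (Fin m) ℂ), WMapD w J D f → imageIdeal J f = I →
      ∀ (e a : ℕ) (R : MvPolynomial (Fin m) ℂ), 1 ≤ e → R.IsWeightedHomogeneous w a →
        (a : ℝ) ≤ e * ((1 - ε) * (∑ i, d i : ℕ) * D) →
        ∀ u : ℂ → Fin m → ℂ, IsHol u → (∀ z, ∀ G ∈ J, eval (u z) G = 0) →
          (∃ z z', ∀ t : ℂ, u z' ≠ act w t (u z)) →
          (∀ (z : ℂ) (U : Finset ι), (∀ i ∈ U, eval (fun j => eval (u z) (f j)) (F i) = 0) →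
            ((e * U.card : ℕ) : ℕ∞) ≤ analyticOrderAt (fun z => eval (u z) R) z) →
          ∀ z, eval (fun j => eval (u z) (f j)) P * eval (u z) R = 0 := by
  classical
  suffices hmain : ∃ k₀ : ℕ, 1 ≤ k₀ ∧ ∀ (ι : Type) [Fintype ι],
      k₀ ≤ Fintype.card ι → ∀ (d : ι → ℕ) (F : ι → MvPolynomial (Fin (n + 1)) ℂ)
      (I : Ideal (MvPolynomial (Fin (n + 1)) ℂ)), I.IsPrime →
      I.IsHomogeneous (homogeneousSubmodule (Fin (n + 1)) ℂ) → (∀ i, 1 ≤ d i ∧ d i ≤ δ) →
      (∀ i, (F i).IsHomogeneous (d i)) → HypI I F →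
      (∀ y : Fin (n + 1) → ℂ, y ≠ 0 → (∀ G ∈ I, eval y G = 0) → ∀ s : Fin (N + 1) → ι,
        Function.Injective s → ∃ a, eval y (F (s a)) ≠ 0) →
      ∃ P : MvPolynomial (Fin (n + 1)) ℂ, P ∉ I ∧
        ∀ (m D : ℕ) (w : Fin m → ℕ) (J : Ideal (MvPolynomial (Fin m) ℂ))
        (f : Fin (n + 1) → MvPolynomial (Fin m) ℂ), WMapD w J D f → imageIdeal J f = I →
      ∀ (e a : ℕ) (R : MvPolynomial (Fin m) ℂ), 1 ≤ e → R.IsWeightedHomogeneous w a →
          (a : ℝ) ≤ e * ((1 - ε) * (∑ i, d i : ℕ) * D) →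
          ∀ u : ℂ → Fin m → ℂ, IsHol u → (∀ z, ∀ G ∈ J, eval (u z) G = 0) →
            (∃ z z', ∀ t : ℂ, u z' ≠ act w t (u z)) →
            (∀ (z : ℂ) (U : Finset ι), (∀ i ∈ U, eval (fun j => eval (u z) (f j)) (F i) = 0) →
              ((e * U.card : ℕ) : ℕ∞) ≤ analyticOrderAt (fun z => eval (u z) R) z) →
            ∀ z, eval (u z) (aeval f P * R) = 0 by
    obtain ⟨k₀, hk₀, h⟩ := hmain
    refine ⟨k₀, hk₀, fun ι _ hcard d F I hIp hIh hd hF hI hpos => ?_⟩
    obtain ⟨P, hP, hcov⟩ := h ι hcard d F I hIp hIh hd hF hI hpos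
    obtain ⟨b, hb⟩ : ∃ b, homogeneousComponent b P ∉ I := by
      by_contra hcon
      push Not at hcon
      apply hP
      rw [← sum_homogeneousComponent P]
      exact Ideal.sum_mem _ fun b _ => hcon b
    refine ⟨b, homogeneousComponent b P, homogeneousComponent_isHomogeneous b P, hb, ?_⟩
    intro m D w J f hX hJI
    exact covers_component hX hF (hcov m D w J f hX hJI) b
  rcases lt_or_ge 1 ε with hε1 | hε1
  · refine ⟨1, le_rfl, fun ι _ hcard d F I hIp hIh hd hF hI hpos => ⟨1, ?_, ?_⟩⟩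
    · intro h
      exact hIp.ne_top ((Ideal.eq_top_iff_one _).2 h)
    · intro m D w J f hX hJI e a R he hR ha
      exfalso
      have h1 : (1 : ℝ) ≤ (∑ i, d i : ℕ) := by
        obtain ⟨i⟩ : Nonempty ι := Fintype.card_pos_iff.1 (by omega)
        have h2 : d i ≤ ∑ i, d i := Finset.single_le_sum (fun j _ => Nat.zero_le _) (Finset.mem_univ i)
        have h3 := (hd i).1
        exact_mod_cast h3.trans h2
      have h2 : (1 : ℝ) ≤ D := by exact_mod_cast hX.pos
      have h3 : (1 : ℝ) ≤ e := by exact_mod_cast he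
      have h4 : (0 : ℝ) ≤ a := Nat.cast_nonneg a
      have h5 : 0 < (e : ℝ) * ((ε - 1) * (∑ i, d i : ℕ) * D) := by
        have : 0 < ε - 1 := by linarith
        positivity
      have h6 : (e : ℝ) * ((1 - ε) * (∑ i, d i : ℕ) * D) = -((e : ℝ) * ((ε - 1) * (∑ i, d i : ℕ) * D)) := by
        ring
      linarith
  obtain ⟨k₀, hk₀⟩ := smtI (n + 1) N δ (ε / 2) (by linarith) (by linarith)
  refine ⟨max k₀ 1, le_max_right _ _, fun ι _ hcard d F I hIp hIh hd hF hI hpos => ?_⟩
  obtain ⟨P₀, hP₀, hsmt⟩ := hk₀ ι ((le_max_left _ _).trans hcard) d F I hIp hIh hd hF hI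
  refine ⟨P₀ * ∏ i, F i, ?_, ?_⟩
  · intro h
    rcases hIp.mem_or_mem h with h1 | h1
    · exact hP₀ h1
    · obtain ⟨i, _, hi⟩ := hIp.prod_mem_iff.1 h1
      exact hI.nonzero i hi
  · intro m D w J f hX hJI e a R he hR ha u hu huJ hnc hord z₁
    have hfI : ∀ x : Fin m → ℂ, (∀ G ∈ J, eval x G = 0) →
        ∀ G ∈ I, eval (fun j => eval x (f j)) G = 0 := by
      intro x hxJ G hG
      rw [← hJI] at hG
      rw [← G2_eval]
      exact hxJ _ (mem_imageIdeal.mp hG)
    have hposX : PosX N J f F := by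
      intro x hx hxJ s hs
      refine hpos _ ?_ (hfI x hxJ) s hs
      obtain ⟨j, hj⟩ := hX.free x hx hxJ
      exact fun h => hj (congrFun h j)
    have hB : (1 : ℝ) ≤ (∑ i, d i : ℕ) := by
      obtain ⟨i⟩ : Nonempty ι := Fintype.card_pos_iff.1 (by have := le_max_right k₀ 1; omega)
      have h2 : d i ≤ ∑ i, d i := Finset.single_le_sum (fun j _ => Nat.zero_le _) (Finset.mem_univ i)
      have h3 := (hd i).1
      exact_mod_cast h3.trans h2
    refine cov_eq_zeroS (ε := ε / 2) (κ := (1 - ε) * (∑ i, d i : ℕ)) (B := (∑ i, d i : ℕ)) he ?_ hX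
      ?_ hR ha hu huJ hord hnc z₁
    · nlinarith
    · intro v hv hvJ hvP
      have hyh : IsHol fun z j => eval (v z) (f j) := by
        refine ⟨fun j => differentiable_eval hv.diff (f j), fun z h => ?_⟩
        obtain ⟨j, hj⟩ := hX.free (v z) (hv.ne_zero z) (hvJ z)
        exact hj (congrFun h j)
      have hyI : ∀ z, ∀ G ∈ I, eval (fun j => eval (v z) (f j)) G = 0 := fun z =>
        hfI (v z) (hvJ z)
      obtain ⟨z₀, hz₀⟩ := hvP
      rw [map_mul, map_prod] at hz₀
      refine ⟨fun i => ⟨z₀, fun h => ?_⟩, ?_⟩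
      · exact hz₀ (mul_eq_zero_of_right _ (Finset.prod_eq_zero (Finset.mem_univ i) h))
      · obtain ⟨c, hc, hcb⟩ := posX_bound hX hF hposX
        exact hsmt _ hyh hyI ⟨c, hc, fun s hs z => hcb s hs (v z) (hv.ne_zero z) (hvJ z)⟩
          ⟨z₀, left_ne_zero_of_mul hz₀⟩

end Pool.Agent.H53S
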