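import Pool.Agent.Lib.H53S.D0

set_option autoImplicit false

/-!
H53S, CHUNK C0 (S/M).  Transfer of the function `Q` from a projection of the curve.
-/

open MvPolynomial Module Real MeasureTheory
open Pool.Agent.H89.Sect Pool.Agent.H89.Arr

namespace Pool.Agent.H53S

open Pool.Agent.H67T

attribute [local instance] MvPolynomial.gradedAlgebra

theorem C0_lin_lin {n m : ℕ} (c : Fin m → Fin n → ℂ) (b : Fin m → ℂ) (v : Fin n → ℂ) :
    lin b (fun l => lin (c l) v) = lin (∑ l, b l • c l) v := by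
  unfold H67T.lin
  simp only [Finset.sum_apply, Pi.smul_apply, smul_eq_mul, Finset.mul_sum, Finset.sum_mul]
  rw [Finset.sum_comm]
  refine Finset.sum_congr rfl fun j _ => Finset.sum_congr rfl fun l _ => ?_
  ring

theorem C0_dv {n m : ℕ} (c : Fin m → Fin n → ℂ) {y : ℂ → Fin n → ℂ} (hy : IsHol y) (z : ℂ) :
    dv (fun z l => lin (c l) (y z)) z = fun l => lin (c l) (dv y z) := by
  funext l
  unfold dv H67T.lin
  have h : (fun z => ∑ j, c l j * y z j) = ∑ j, fun z => c l j * y z j := by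
    funext z
    simp [Finset.sum_apply]
  show deriv (fun z => ∑ j, c l j * y z j) z = _
  rw [h, deriv_sum (fun j _ => ((hy.diff j).differentiableAt.const_mul (c l j)))]
  refine Finset.sum_congr rfl fun j _ => ?_
  exact deriv_const_mul_field (c l j)

theorem C0_norm {n m : ℕ} (c : Fin m → Fin n → ℂ) (v : Fin n → ℂ) :
    ‖fun l => lin (c l) v‖ ≤ (1 + ∑ l, ∑ j, ‖c l j‖) * ‖v‖ := by
  have hA : 0 ≤ 1 + ∑ l, ∑ j, ‖c l j‖ := by positivity
  rw [pi_norm_le_iff_of_nonneg (by positivity)]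
  intro l
  unfold H67T.lin
  calc ‖∑ j, c l j * v j‖ ≤ ∑ j, ‖c l j * v j‖ := norm_sum_le _ _
    _ ≤ ∑ j, ‖c l j‖ * ‖v‖ := by
        refine Finset.sum_le_sum fun j _ => ?_
        rw [norm_mul]
        exact mul_le_mul_of_nonneg_left (norm_le_pi_norm v j) (norm_nonneg _)
    _ = (∑ j, ‖c l j‖) * ‖v‖ := by rw [Finset.sum_mul]
    _ ≤ (1 + ∑ l, ∑ j, ‖c l j‖) * ‖v‖ := by
        refine mul_le_mul_of_nonneg_right ?_ (norm_nonneg _)
        have h1 : ∑ j, ‖c l j‖ ≤ ∑ l, ∑ j, ‖c l j‖ :=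
          Finset.single_le_sum (f := fun l => ∑ j, ‖c l j‖) (fun l _ => by positivity)
            (Finset.mem_univ l)
        linarith

/-- CHUNK C0 (S/M).  Transfer of `HasQ` from `ȳ = (lin (c l) y)_l` to `y`.  Here `p i = ∑ l, pb i l • c l`, so
`lin (p i) y = lin (pb i) ȳ`, and the same for `dv` (`dv ȳ = (lin (c l) (dv y))_l`: derivative of a finite sum).
Norms: `‖ȳ‖ ≤ A ‖y‖`, `‖dv ȳ - t • ȳ‖ ≤ A ‖dv y - t • y‖` with `A = 1 + ∑ l, ∑ j, ‖c l j‖` (sup norms, `pi_norm_le_iff_of_nonneg`), and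
`‖y‖ ≤ B ‖ȳ‖` (hypothesis).  From `‖Q‖ ‖ȳ‖ ^ k ≤ C (∏ ..) ‖ȳ‖ ^ (q + r) (∑ .. + ‖dv ȳ - t ȳ‖ / ‖ȳ‖) ^ r` get the bound for `y` with the constant
`B ^ k * C * A ^ (q + r) * (1 + A * B) ^ r` (each of the two summands in the last factor is at most `(1 + A B)` times the new one). -/
theorem hasQ_transfer {n k q m : ℕ} {c : Fin m → Fin n → ℂ} {pb : Fin k → Fin m → ℂ} {p : Fin k → Fin n → ℂ}
    (hp : ∀ i, p i = ∑ l, pb i l • c l) {y : ℂ → Fin n → ℂ} (hy : IsHol y) {B : ℝ} (hB : 0 ≤ B)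
    (hyB : ∀ z, ‖y z‖ ≤ B * ‖fun l => lin (c l) (y z)‖)
    (h : HasQ pb q (fun z l => lin (c l) (y z))) : HasQ p q y := by
  obtain ⟨Q, r, C, hQ, hQ0, hr, hC, hb, ho⟩ := h
  have hpl : ∀ i v, lin (pb i) (fun l => lin (c l) v) = lin (p i) v := by
    intro i v
    rw [C0_lin_lin, ← hp i]
  set A : ℝ := 1 + ∑ l, ∑ j, ‖c l j‖ with hA
  have hA0 : 0 ≤ A := by positivity
  refine ⟨Q, r, B ^ k * C * A ^ (q + r) * (1 + A * B) ^ r, hQ, hQ0, hr, by positivity, ?_, ?_⟩
  · intro z t hz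
    have hb1 := hb z t (by
      intro i
      rw [hpl]
      exact hz i)
    rw [C0_dv c hy z] at hb1
    simp only [hpl] at hb1
    have hsm : ((fun l => lin (c l) (dv y z)) - t • fun l => lin (c l) (y z)) =
        fun l => lin (c l) (dv y z - t • y z) := by
      funext l
      simp only [H67T.lin, Pi.sub_apply, Pi.smul_apply, smul_eq_mul, mul_sub, Finset.sum_sub_distrib,
        Finset.mul_sum]
      congr 1
      refine Finset.sum_congr rfl fun j _ => ?_
      ring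
    rw [hsm] at hb1
    have hy0 : 0 < ‖y z‖ := norm_pos_iff.mpr (hy.ne_zero z)
    have hyb := hyB z
    have hle1 : ‖fun l => lin (c l) (y z)‖ ≤ A * ‖y z‖ := C0_norm c (y z)
    have hle2 : ‖fun l => lin (c l) (dv y z - t • y z)‖ ≤ A * ‖dv y z - t • y z‖ :=
      C0_norm c (dv y z - t • y z)
    set a : ℝ := ‖fun l => lin (c l) (y z)‖ with ha
    have ha0 : 0 < a := by
      rcases (norm_nonneg (fun l => lin (c l) (y z))).lt_or_eq with h1 | h1
      · exact h1
      · exfalso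
        rw [← ha] at h1
        rw [← h1, mul_zero] at hyb
        linarith
    set S : ℝ := ∑ i, ‖lin (p i) (dv y z) / lin (p i) (y z) - t‖ with hS
    have hS0 : 0 ≤ S := by positivity
    set P : ℝ := ∏ i, ‖lin (p i) (y z)‖ with hP
    have hP0 : 0 ≤ P := by positivity
    set d : ℝ := ‖dv y z - t • y z‖ with hd
    have hd0 : 0 ≤ d := norm_nonneg _
    set e : ℝ := ‖fun l => lin (c l) (dv y z - t • y z)‖ with he
    have he0 : 0 ≤ e := norm_nonneg _
    have h2 : e / a ≤ A * B * (d / ‖y z‖) := by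
      rw [div_le_iff₀ ha0]
      calc e ≤ A * d := hle2
        _ = A * (d / ‖y z‖) * ‖y z‖ := by field_simp
        _ ≤ A * (d / ‖y z‖) * (B * a) := by gcongr
        _ = A * B * (d / ‖y z‖) * a := by ring
    have hdy : 0 ≤ d / ‖y z‖ := by positivity
    have h3 : S + e / a ≤ (1 + A * B) * (S + d / ‖y z‖) := by
      have h4 : 0 ≤ A * B * S := by positivity
      nlinarith
    have h5 : 0 ≤ S + e / a := by positivity
    calc ‖Q z‖ * ‖y z‖ ^ k ≤ ‖Q z‖ * (B * a) ^ k := by gcongr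
      _ = B ^ k * (‖Q z‖ * a ^ k) := by ring
      _ ≤ B ^ k * (C * P * a ^ (q + r) * (S + e / a) ^ r) := by gcongr
      _ ≤ B ^ k * (C * P * (A * ‖y z‖) ^ (q + r) * ((1 + A * B) * (S + d / ‖y z‖)) ^ r) := by
          gcongr
      _ = B ^ k * C * A ^ (q + r) * (1 + A * B) ^ r * P * ‖y z‖ ^ (q + r) *
          (S + d / ‖y z‖) ^ r := by
          rw [mul_pow, mul_pow]
          ring
  · intro z m' hm
    refine ho z m' fun i => ?_
    have h1 : (fun z => lin (pb i) ((fun z l => lin (c l) (y z)) z)) = fun z => lin (p i) (y z) := by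
      funext w
      exact hpl i (y w)
    rw [h1]
    exact hm i

end Pool.Agent.H53S
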