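import Pool.Agent.Lib.H67T.GG2

set_option autoImplicit false

/-!
H53S: second main theorem with truncation level one for hypersurfaces on projective varieties, in
`N`-subgeneral position on the variety (MP_2a5ae2_ag, weight 25; replaces RamifiedCovers).

Definitions.  See PROOF.md.
-/

open MvPolynomial Module Real MeasureTheory
open Pool.Agent.H89.Sect Pool.Agent.H89.Arr

namespace Pool.Agent.H53S

open Pool.Agent.H67T

attribute [local instance] MvPolynomial.gradedAlgebra

/-- No point of the curve `y` is close to more than `N` of the hyperplanes `p i`. -/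
def CurvePos {n : ℕ} {ι : Type} (N : ℕ) (p : ι → Fin n → ℂ) (y : ℂ → Fin n → ℂ) : Prop :=
  ∃ c : ℝ, 0 < c ∧ ∀ s : Fin (N + 1) → ι, Function.Injective s →
    ∀ z, c * ‖y z‖ ≤ ∑ a, ‖lin (p (s a)) (y z)‖

/-- The hypotheses on the variety and the hyperplanes (without the position). -/
structure DataR {n : ℕ} {ι : Type} (p : ι → Fin (n + 1) → ℂ)
    (I : Ideal (MvPolynomial (Fin (n + 1)) ℂ)) : Prop where
  distinct : ∀ i j, i ≠ j → ∀ c : ℂ, p i ≠ c • p j
  prime : I.IsPrime
  homogeneous : I.IsHomogeneous (homogeneousSubmodule (Fin (n + 1)) ℂ)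
  nondegenerate : ∀ y : Fin (n + 1) → ℂ, y ≠ 0 → lf y ∉ I
  reduced : ∀ i, ReducedSection I (p i)

/-- The section `F = 0` of the closed subset defined by `I` is reduced. -/
def ReducedF {n : ℕ} (I : Ideal (MvPolynomial (Fin n) ℂ)) (F : MvPolynomial (Fin n) ℂ) : Prop :=
  ∃ r₀ : ℕ, ∀ r, r₀ ≤ r → ∀ W : MvPolynomial (Fin n) ℂ, W.IsHomogeneous r →
    W ∈ (I ⊔ Ideal.span {F}).radical → W ∈ I ⊔ Ideal.span {F}

/-- `X` (defined by `J`) is an irreducible projective variety, `f : X → ℙⁿ` a finite morphism given by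
forms of degree `D`. -/
structure MapD {m n : ℕ} (J : Ideal (MvPolynomial (Fin m) ℂ)) (D : ℕ)
    (f : Fin (n + 1) → MvPolynomial (Fin m) ℂ) : Prop where
  prime : J.IsPrime
  homogeneous : J.IsHomogeneous (homogeneousSubmodule (Fin m) ℂ)
  pos : 1 ≤ D
  forms : ∀ j, (f j).IsHomogeneous D
  free : ∀ x : Fin m → ℂ, x ≠ 0 → (∀ G ∈ J, eval x G = 0) → ∃ j, eval x (f j) ≠ 0

/-- The hypersurfaces `F i = 0` on the image of `f`: not two of them have the same section, the sections
are reduced, at most `N` of them meet in a point of `X`. -/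
structure HypD {m n : ℕ} {ι : Type} (N : ℕ) (J : Ideal (MvPolynomial (Fin m) ℂ))
    (f : Fin (n + 1) → MvPolynomial (Fin m) ℂ) (F : ι → MvPolynomial (Fin (n + 1)) ℂ) : Prop where
  distinct : ∀ i j, i ≠ j → ∀ c : ℂ, F i - C c * F j ∉ imageIdeal J f
  nonzero : ∀ i, F i ∉ imageIdeal J f
  reduced : ∀ i, ReducedF (imageIdeal J f) (F i)
  position : ∀ x : Fin m → ℂ, x ≠ 0 → (∀ G ∈ J, eval x G = 0) → ∀ s : Fin (N + 1) → ι,
    Function.Injective s → ∃ a, eval (fun j => eval x (f j)) (F (s a)) ≠ 0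

/-- `g` is a basis of the forms of degree `δ` modulo `I`. -/
structure BasisD {n M : ℕ} (I : Ideal (MvPolynomial (Fin n) ℂ)) (δ : ℕ)
    (g : Fin M → MvPolynomial (Fin n) ℂ) : Prop where
  forms : ∀ l, (g l).IsHomogeneous δ
  indep : ∀ c : Fin M → ℂ, ∑ l, C (c l) * g l ∈ I → c = 0
  span : ∀ F : MvPolynomial (Fin n) ℂ, F.IsHomogeneous δ → ∃ c : Fin M → ℂ, F - ∑ l, C (c l) * g l ∈ I

end Pool.Agent.H53S
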