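import Pool.Agent.Lib.H53S.D0
import Pool.Agent.Lib.H89T.DP5

set_option autoImplicit false

/-!
H53S, definitions for curves in `Y` (closed in projective space, ideal `I`) and for weighted projective covers.
-/

open MvPolynomial Module Real MeasureTheory
open Pool.Agent.H89.Sect Pool.Agent.H89.Arr

namespace Pool.Agent.H53S

open Pool.Agent.H67T

/-- No point of the curve `y` is close to more than `N` of the hypersurfaces `F i = 0` (`F i` of degree `d i`). -/
def CurvePosF {n : ℕ} {ι : Type} (N : ℕ) (d : ι → ℕ) (F : ι → MvPolynomial (Fin n) ℂ)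
    (y : ℂ → Fin n → ℂ) : Prop :=
  ∃ c : ℝ, 0 < c ∧ ∀ s : Fin (N + 1) → ι, Function.Injective s →
    ∀ z, c ≤ ∑ a, ‖eval (y z) (F (s a))‖ / ‖y z‖ ^ d (s a)

/-- Not two of the forms `F i` are proportional modulo `I`, none is in `I`, the sections are reduced. -/
structure HypI {n : ℕ} {ι : Type} (I : Ideal (MvPolynomial (Fin n) ℂ)) (F : ι → MvPolynomial (Fin n) ℂ) :
    Prop where
  distinct : ∀ i j, i ≠ j → ∀ c : ℂ, F i - C c * F j ∉ I
  nonzero : ∀ i, F i ∉ I
  reduced : ∀ i, ReducedF I (F i)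

/-- `X` (defined by `J`) is an irreducible variety in a weighted projective space, `f : X → ℙⁿ` a finite
morphism given by forms of degree `D`. -/
structure WMapD {m n : ℕ} (w : Fin m → ℕ) (J : Ideal (MvPolynomial (Fin m) ℂ)) (D : ℕ)
    (f : Fin (n + 1) → MvPolynomial (Fin m) ℂ) : Prop where
  weights : ∀ i, 1 ≤ w i
  prime : J.IsPrime
  homogeneous : ∀ G ∈ J, ∀ d, weightedHomogeneousComponent w d G ∈ J
  pos : 1 ≤ D
  forms : ∀ j, (f j).IsWeightedHomogeneous w D
  free : ∀ x : Fin m → ℂ, x ≠ 0 → (∀ G ∈ J, eval x G = 0) → ∃ j, eval x (f j) ≠ 0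

/-- At most `N` of the hypersurfaces meet in a point of `X`. -/
def PosX {m n : ℕ} {ι : Type} (N : ℕ) (J : Ideal (MvPolynomial (Fin m) ℂ))
    (f : Fin (n + 1) → MvPolynomial (Fin m) ℂ) (F : ι → MvPolynomial (Fin (n + 1)) ℂ) : Prop :=
  ∀ x : Fin m → ℂ, x ≠ 0 → (∀ G ∈ J, eval x G = 0) → ∀ s : Fin (N + 1) → ι,
    Function.Injective s → ∃ a, eval (fun j => eval x (f j)) (F (s a)) ≠ 0

end Pool.Agent.H53S
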