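import Pool.Agent.Lib.H53S.D1

set_option autoImplicit false

/-!
H53S, CHUNK G1 (M, port of Lib/H53L/Cov.lean `cov_R_eq_zero`).  Entire curves in weakly ramified covers.
-/

open MvPolynomial Module Real MeasureTheory
open Pool.Agent.H89.Sect Pool.Agent.H89.Arr

namespace Pool.Agent.H53S

open Pool.Agent.H67T Pool.Agent.H89T

attribute [local instance] MvPolynomial.gradedAlgebra

/-- CHUNK G1.  Port of `cov_R_eq_zero` (Lib/H53L/Cov.lean).  Changes: the factor `aeval f P` in the conclusion (`aeval f P` at `u z` is `eval (f (u z)) P`): suppose `eval (u z₁) (aeval f P * R) ≠ 0`, so at some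
`w₀ ≠ 0` (density) `eval (u w₀) (aeval f P * R) ≠ 0`; for `v = u ∘ exp`, `hP v` gives `hpi` (no `F i` vanishes identically along `v`) and the second main theorem; `counting_le` with the family
`g i z = eval (fun j => eval (v z) (f j)) (F i)` (index `ι` instead of `Unit`): `e * ∑ i, N1 (..) r ≤ circleAverage (log ‖R (v)‖) + K₁`; order condition for `v` from `hord` for `u` as
there; `form_le` with `Stable w J` (`fun x hx t => eval_act_mem hX.homogeneous hx t`); the end of the proof with `B` for `k`. -/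
theorem cov_eq_zeroS {m n D a e : ℕ} {ι : Type} [Fintype ι] (he : 1 ≤ e) {ε κ B : ℝ} (hκ : κ < (1 - ε) * B)
    {w : Fin m → ℕ} {J : Ideal (MvPolynomial (Fin m) ℂ)} {f : Fin (n + 1) → MvPolynomial (Fin m) ℂ}
    (hX : WMapD w J D f) {F : ι → MvPolynomial (Fin (n + 1)) ℂ} {P : MvPolynomial (Fin (n + 1)) ℂ}
    (hP : ∀ v : ℂ → Fin m → ℂ, IsHol v → (∀ z, ∀ G ∈ J, eval (v z) G = 0) →
      (∃ z, eval (fun j => eval (v z) (f j)) P ≠ 0) →
        (∀ i, ∃ z, eval (fun j => eval (v z) (f j)) (F i) ≠ 0) ∧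
        ∃ (C : ℝ) (E : Set ℝ), volume E < ⊤ ∧ ∀ r : ℝ, 2 ≤ r → r ∉ E →
          (1 - ε) * B * chi (fun z j => eval (v z) (f j)) r ≤
            ∑ i, N1 (fun z => eval (fun j => eval (v z) (f j)) (F i)) r + C * log r)
    {R : MvPolynomial (Fin m) ℂ} (hR : R.IsWeightedHomogeneous w a) (ha : (a : ℝ) ≤ e * (κ * D))
    {u : ℂ → Fin m → ℂ} (hu : IsHol u) (huJ : ∀ z, ∀ G ∈ J, eval (u z) G = 0)
    (hord : ∀ (z : ℂ) (U : Finset ι), (∀ i ∈ U, eval (fun j => eval (u z) (f j)) (F i) = 0) →
        ((e * U.card : ℕ) : ℕ∞) ≤ analyticOrderAt (fun z => eval (u z) R) z)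
    (hnc : ∃ z z', ∀ t : ℂ, u z' ≠ act w t (u z)) (z₁ : ℂ) :
    eval (u z₁) (aeval f P * R) = 0 := by
  classical
  have hJ : Stable w J := fun x hx t => eval_act_mem hX.homogeneous hx t
  have hPe : ∀ x : Fin m → ℂ, eval x (aeval f P) = eval (fun j => eval x (f j)) P := by
    intro x
    rw [aeval_def, ← MvPolynomial.coe_aeval_eq_eval, MvPolynomial.hom_eval₂]
    simp only [MvPolynomial.coe_aeval_eq_eval]
    rw [MvPolynomial.eval, MvPolynomial.coe_eval₂Hom]
    congr 1
    ext c
    simp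
  have hord2 : ∀ (z : ℂ) (U : Finset ι),
      (∀ i ∈ U, eval (fun j => eval (u (Complex.exp z)) (f j)) (F i) = 0) →
      ((e * U.card : ℕ) : ℕ∞) ≤ analyticOrderAt (fun z => eval (u (Complex.exp z)) R) z := by
    intro z U hz
    have h1 := analyticOrderAt_comp_of_deriv_ne_zero (f := fun z => eval (u z) R)
      (Complex.differentiable_exp.analyticAt z) (by rw [Complex.deriv_exp]; exact Complex.exp_ne_zero z)
    have h2 : (fun z => eval (u z) R) ∘ Complex.exp = fun z => eval (u (Complex.exp z)) R := rfl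
    rw [← h2, h1]
    exact hord _ U hz
  by_contra hz₁
  have hφ : Differentiable ℂ fun z => eval (u z) (aeval f P * R) := differentiable_eval hu.diff _
  obtain ⟨w₀, hw0, hw₀'⟩ : ∃ w₀ : ℂ, w₀ ≠ 0 ∧ eval (u w₀) (aeval f P * R) ≠ 0 := by
    by_contra hcon
    push Not at hcon
    apply hz₁
    have h1 : (fun z => eval (u z) (aeval f P * R)) = fun _ => 0 := by
      apply hφ.continuous.ext_on (dense_compl_singleton (0 : ℂ)) continuous_const
      intro z hz
      exact hcon z hz
    exact congrFun h1 z₁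
  rw [map_mul] at hw₀'
  have hw₀ : eval (u w₀) R ≠ 0 := right_ne_zero_of_mul hw₀'
  have hw₀P : eval (fun j => eval (u w₀) (f j)) P ≠ 0 := by
    rw [← hPe]
    exact left_ne_zero_of_mul hw₀'
  -- the curve in projective space
  set y₀ : ℂ → Fin (n + 1) → ℂ := fun z j => eval (u z) (f j) with hy₀
  have hy₀h : IsHol y₀ := by
    refine ⟨fun j => differentiable_eval hu.diff (f j), fun z h => ?_⟩
    obtain ⟨j, hj⟩ := hX.free (u z) (hu.ne_zero z) (huJ z)
    exact hj (congrFun h j)
  have hy₀nc : ∃ z w, ∀ c : ℂ, y₀ w ≠ c • y₀ z :=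
    nonconstant_comp hX.weights hJ hX.pos hX.forms hX.free hu huJ hnc
  set v : ℂ → Fin m → ℂ := fun z => u (Complex.exp z) with hv
  have hvh : IsHol v := ⟨fun j => (hu.diff j).comp Complex.differentiable_exp,
    fun z => hu.ne_zero _⟩
  have hvJ : ∀ z, ∀ F ∈ J, eval (v z) F = 0 := fun z => huJ _
  set y : ℂ → Fin (n + 1) → ℂ := fun z => y₀ (Complex.exp z) with hy
  have hyh : IsHol y := ⟨fun j => (hy₀h.diff j).comp Complex.differentiable_exp,
    fun z => hy₀h.ne_zero _⟩
  have hvw : v (Complex.log w₀) = u w₀ := by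
    rw [hv]
    simp only
    rw [Complex.exp_log hw0]
  have hR0 : ∃ z, eval (v z) R ≠ 0 := ⟨Complex.log w₀, by rw [hvw]; exact hw₀⟩
  have hP0 : ∃ z, eval (fun j => eval (v z) (f j)) P ≠ 0 :=
    ⟨Complex.log w₀, by rw [hvw]; exact hw₀P⟩
  obtain ⟨hyF, C, E, hE, hsmt⟩ := hP v hvh hvJ hP0
  -- counting
  obtain ⟨K₁, hK₁⟩ := counting_le (ι := ι) (g := fun i z => eval (y z) (F i)) (e := e)
    (fun i => differentiable_eval hyh.diff (F i)) hyF (differentiable_eval hvh.diff R) hR0
    hord2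
  -- the average
  obtain ⟨A, hA1, hA⟩ := form_le hX.weights hJ hX.forms hX.free hR
  have havg : ∀ r : ℝ, 1 ≤ r → D * circleAverage (fun z => log ‖eval (v z) R‖) 0 r ≤
      a * chi y r + log A := by
    intro r hr
    have hdv := differentiable_eval hvh.diff R
    have hi : CircleIntegrable (fun z => log ‖y z‖) 0 r :=
      (GH4_continuous_log hyh).continuousOn.circleIntegrable'
    have h2 : CircleIntegrable (fun z => (a : ℝ) * log ‖y z‖) 0 r :=
      hi.const_smul (a := (a : ℝ))
    have hi' : CircleIntegrable (fun z => log ‖eval (v z) R‖) 0 r :=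
      MeromorphicOn.circleIntegrable_log_norm fun z _ => (hdv.analyticAt z).meromorphicAt
    have e1 : (a : ℝ) * chi y r + log A =
        circleAverage (fun z => (a : ℝ) * log ‖y z‖ + log A) 0 r := by
      have h3 : circleAverage (fun z => (a : ℝ) * log ‖y z‖) 0 r = (a : ℝ) * chi y r :=
        circleAverage_smul (a := (a : ℝ)) (f := fun z => log ‖y z‖) (c := 0) (R := r)
      rw [circleAverage_fun_add h2 (circleIntegrable_const _ _ _), h3, circleAverage_const]
    have e2 : (D : ℝ) * circleAverage (fun z => log ‖eval (v z) R‖) 0 r =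
        circleAverage (fun z => (D : ℝ) * log ‖eval (v z) R‖) 0 r :=
      (circleAverage_smul (a := (D : ℝ)) (f := fun z => log ‖eval (v z) R‖) (c := 0)
        (R := r)).symm
    rw [e1, e2]
    refine GH4_average_mono hdv hR0 (by linarith) (hi'.const_smul (a := (D : ℝ)))
      (h2.add (circleIntegrable_const _ _ _)) ?_
    intro z hz
    have h5 : 0 < ‖y z‖ := norm_pos_iff.mpr (hyh.ne_zero z)
    have h6 : 0 < ‖eval (v z) R‖ := norm_pos_iff.mpr hz
    have h4 := log_le_log (by positivity) (hA (v z) (hvh.ne_zero z) (hvJ z))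
    rw [log_mul (by linarith) (by exact (pow_pos h5 a).ne'), log_pow, log_pow] at h4
    have h7 : (fun j => eval (v z) (f j)) = y z := rfl
    rw [h7] at h4
    linarith
  obtain ⟨c₀, K₃, hc₀, hK₃⟩ := chi_exp_ge hy₀h hy₀nc
  -- numbers
  have hD0 : (1 : ℝ) ≤ D := by exact_mod_cast hX.pos
  have he0 : (1 : ℝ) ≤ e := by exact_mod_cast he
  obtain ⟨η, hη⟩ : ∃ η, η = (1 - ε) * B - κ := ⟨_, rfl⟩
  have hη0 : 0 < η := by rw [hη]; linarith
  obtain ⟨r, hr2, hr0, hrE, hbig⟩ := gg1_large hE (K₃ / c₀) (η * c₀) C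
    (η * K₃ + (D * K₁ + log A) / (D * e)) (by positivity)
  have b1 : (1 - ε) * B * chi y r ≤ ∑ i, N1 (fun z => eval (y z) (F i)) r + C * log r :=
    hsmt r hr2 hrE
  have b2 := hK₁ r (by linarith)
  have b3 := havg r (by linarith)
  have b5 : c₀ * r - K₃ ≤ chi y r := hK₃ r (by linarith)
  have b6 : 0 ≤ chi y r := by
    rw [div_le_iff₀ hc₀] at hr0
    linarith
  set NN := ∑ i, N1 (fun z => eval (y z) (F i)) r with hNN
  have b7 : NN ≤ κ * chi y r + (D * K₁ + log A) / (D * e) := by
    have h1 : (D * e : ℝ) * NN ≤ (D * e) *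
        (κ * chi y r + (D * K₁ + log A) / (D * e)) := by
      have h2 : (a : ℝ) * chi y r ≤ e * (κ * D) * chi y r :=
        mul_le_mul_of_nonneg_right ha b6
      have h3 : (D * e : ℝ) * ((D * K₁ + log A) / (D * e)) = D * K₁ + log A := by
        have : (D : ℝ) ≠ 0 := by positivity
        have : (e : ℝ) ≠ 0 := by positivity
        field_simp
      have h4 : (D : ℝ) * (e * NN) ≤
          D * (circleAverage (fun z => log ‖eval (v z) R‖) 0 r + K₁) :=
        mul_le_mul_of_nonneg_left b2 (by linarith)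
      rw [mul_add, h3]
      linarith
    exact le_of_mul_le_mul_left h1 (by positivity)
  have b9 : η * (c₀ * r - K₃) ≤ η * chi y r :=
    mul_le_mul_of_nonneg_left b5 hη0.le
  have b11 : (1 - ε) * B * chi y r = κ * chi y r + η * chi y r := by
    rw [hη]
    ring
  linarith

end Pool.Agent.H53S
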