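import Pool.Agent.Lib.H53S.D1

set_option autoImplicit false

/-!
H53S, CHUNK P1 (M).  Position on a weighted projective variety.
-/

open MvPolynomial Module Real MeasureTheory
open Pool.Agent.H89.Sect Pool.Agent.H89.Arr

namespace Pool.Agent.H53S

open Pool.Agent.H67T Pool.Agent.H89T

attribute [local instance] MvPolynomial.gradedAlgebra

/-- One family of hypersurfaces. -/
private theorem P1_one {m n D N : ℕ} {w : Fin m → ℕ} {J : Ideal (MvPolynomial (Fin m) ℂ)}
    {f : Fin (n + 1) → MvPolynomial (Fin m) ℂ} (hX : WMapD w J D f) {ι : Type} {d : ι → ℕ}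
    {F : ι → MvPolynomial (Fin (n + 1)) ℂ} (hF : ∀ i, (F i).IsHomogeneous (d i)) (hpos : PosX N J f F)
    (s : Fin (N + 1) → ι) (hs : Function.Injective s) :
    ∃ c : ℝ, 0 < c ∧ ∀ x : Fin m → ℂ, x ≠ 0 → (∀ G ∈ J, eval x G = 0) →
        c ≤ ∑ a, ‖eval (fun j => eval x (f j)) (F (s a))‖ / ‖fun j => eval x (f j)‖ ^ d (s a) := by
  have hfc : Continuous fun x : Fin m → ℂ => fun j => eval x (f j) :=
    continuous_pi fun j => (f j).continuous_eval
  have hφc : Continuous fun x : Fin m → ℂ => ‖fun j => eval x (f j)‖ := hfc.norm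
  have hp : ∀ x ∈ wS w J, 0 < ‖fun j => eval x (f j)‖ := by
    intro x hx
    obtain ⟨j, hj⟩ := hX.free x (wS_ne_zero hX.weights hx) hx.2
    rw [norm_pos_iff]
    intro h0
    exact hj (congrFun h0 j)
  have hst : Stable w J := fun x hx t => eval_act_mem hX.homogeneous hx t
  have hδ : ∃ δ : ℝ, 0 < δ ∧ ∀ x ∈ wS w J,
      δ ≤ ∑ a, ‖eval (fun j => eval x (f j)) (F (s a))‖ / ‖fun j => eval x (f j)‖ ^ d (s a) := by
    rcases (wS w J).eq_empty_or_nonempty with h | h
    · exact ⟨1, one_pos, by simp [h]⟩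
    · have hc : ContinuousOn (fun x : Fin m → ℂ =>
          ∑ a, ‖eval (fun j => eval x (f j)) (F (s a))‖ / ‖fun j => eval x (f j)‖ ^ d (s a)) (wS w J) := by
        refine continuousOn_finsetSum _ fun a _ => ?_
        refine ContinuousOn.div ?_ (hφc.pow _).continuousOn fun x hx => ?_
        · exact ((F (s a)).continuous_eval.comp hfc).norm.continuousOn
        · exact (pow_pos (hp x hx) _).ne'
      obtain ⟨x₀, hx₀, hmin⟩ := (wS_compact hX.weights J).exists_isMinOn h hc
      refine ⟨_, ?_, fun x hx => hmin hx⟩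
      obtain ⟨a, ha⟩ := hpos x₀ (wS_ne_zero hX.weights hx₀) hx₀.2 s hs
      refine Finset.sum_pos' (fun a _ => by positivity) ⟨a, Finset.mem_univ a, ?_⟩
      have h1 := hp x₀ hx₀
      have h2 : 0 < ‖eval (fun j => eval x₀ (f j)) (F (s a))‖ := norm_pos_iff.2 ha
      positivity
  obtain ⟨δ, hδ0, hδ⟩ := hδ
  refine ⟨δ, hδ0, fun x hx0 hx => ?_⟩
  obtain ⟨t, ht0, _, hmem⟩ := exists_scale hX.weights hst hx0 hx
  refine (hδ _ hmem).trans_eq ?_
  refine Finset.sum_congr rfl fun a _ => ?_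
  have h2 : (fun j => eval (act w t x) (f j)) = t ^ D • fun j => eval x (f j) := by
    funext j
    rw [eval_act (hX.forms j), Pi.smul_apply, smul_eq_mul]
  have h3 : t ^ D • (fun j => eval x (f j)) = act 1 (t ^ D) (fun j => eval x (f j)) := by
    funext j
    simp [act]
  have h4 : eval (t ^ D • fun j => eval x (f j)) (F (s a)) =
      (t ^ D) ^ d (s a) * eval (fun j => eval x (f j)) (F (s a)) := by
    rw [h3]
    exact eval_act (hF (s a)) _ _
  have h5 : 0 < ‖t ^ D‖ := norm_pos_iff.2 (pow_ne_zero _ ht0)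
  rw [h2, h4, norm_smul, norm_mul, norm_pow (t ^ D), mul_pow, mul_div_mul_left]
  exact (pow_pos h5 _).ne'

/-- CHUNK P1 (M).  PROOF.  Model: `form_le` (Lib/H89T/DP4.lean).  For one injective `s`: the function `φ x = ∑ a, ‖eval (f x) (F (s a))‖ / ‖f x‖ ^ d (s a)` (`f x = fun j => eval x (f j)`, `≠ 0` on `wS w J`) is continuous
and positive on the compact set `wS w J` (`wS_compact`, `wS_ne_zero`), so it has a positive minimum there (if `wS w J` is empty any constant will do); it is invariant under `act w t`, `t ≠ 0`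
(`eval_act`: `f (act w t x) = t ^ D • f x`, `F (t ^ D • y) = t ^ (D d) F (y)` for forms, `IsHomogeneous` -> `eval_smul`), and every `x ≠ 0` in the zeros of `J` is moved to `wS w J` (the lemma
used in `form_le`, DP4.lean line 133).  Minimum over the finitely many `s`. -/
theorem posX_bound {m n D N : ℕ} {w : Fin m → ℕ} {J : Ideal (MvPolynomial (Fin m) ℂ)}
    {f : Fin (n + 1) → MvPolynomial (Fin m) ℂ} (hX : WMapD w J D f) {ι : Type} [Fintype ι] {d : ι → ℕ}
    {F : ι → MvPolynomial (Fin (n + 1)) ℂ} (hF : ∀ i, (F i).IsHomogeneous (d i)) (hpos : PosX N J f F) :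
    ∃ c : ℝ, 0 < c ∧ ∀ s : Fin (N + 1) → ι, Function.Injective s →
      ∀ x : Fin m → ℂ, x ≠ 0 → (∀ G ∈ J, eval x G = 0) →
        c ≤ ∑ a, ‖eval (fun j => eval x (f j)) (F (s a))‖ / ‖fun j => eval x (f j)‖ ^ d (s a) := by
  classical
  have h : ∀ s : Fin (N + 1) → ι, ∃ c : ℝ, 0 < c ∧ (Function.Injective s →
      ∀ x : Fin m → ℂ, x ≠ 0 → (∀ G ∈ J, eval x G = 0) →
        c ≤ ∑ a, ‖eval (fun j => eval x (f j)) (F (s a))‖ / ‖fun j => eval x (f j)‖ ^ d (s a)) := by
    intro s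
    by_cases hs : Function.Injective s
    · obtain ⟨c, hc, h⟩ := P1_one hX hF hpos s hs
      exact ⟨c, hc, fun _ => h⟩
    · exact ⟨1, one_pos, fun h => absurd h hs⟩
  choose c hc h using h
  have hS : 0 < 1 + ∑ s, 1 / c s := by
    have : 0 ≤ ∑ s, 1 / c s := Finset.sum_nonneg fun s _ => (one_div_pos.2 (hc s)).le
    linarith
  refine ⟨1 / (1 + ∑ s, 1 / c s), one_div_pos.2 hS, fun s hs x hx0 hx => ?_⟩
  refine le_trans ?_ (h s hs x hx0 hx)
  rw [one_div_le hS (hc s)]
  have h1 : 1 / c s ≤ ∑ s, 1 / c s :=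
    Finset.single_le_sum (f := fun s => 1 / c s) (fun s _ => (one_div_pos.2 (hc s)).le)
      (Finset.mem_univ s)
  linarith

end Pool.Agent.H53S
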