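import Pool.Agent.Lib.H53S.D1

set_option autoImplicit false

/-!
H53S, CHUNK P2 (S/M).  The ideal of the image of a weighted projective variety.
-/

open MvPolynomial Module Real MeasureTheory
open Pool.Agent.H89.Sect Pool.Agent.H89.Arr

namespace Pool.Agent.H53S

open Pool.Agent.H67T Pool.Agent.H89T

attribute [local instance] MvPolynomial.gradedAlgebra

/-- A form of degree `j` in forms of weight `D` is a form of weight `D * j`. -/
theorem P2_aeval {m k D j : ℕ} {w : Fin m → ℕ} {f : Fin k → MvPolynomial (Fin m) ℂ}
    (hf : ∀ i, (f i).IsWeightedHomogeneous w D) {G : MvPolynomial (Fin k) ℂ}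
    (hG : G.IsHomogeneous j) : (aeval f G).IsWeightedHomogeneous w (D * j) := by
  rw [aeval_def, eval₂_eq]
  refine IsWeightedHomogeneous.sum _ _ _ fun d hd => ?_
  have h1 : (∏ i ∈ d.support, f i ^ d i).IsWeightedHomogeneous w (∑ i ∈ d.support, d i • D) :=
    IsWeightedHomogeneous.prod _ _ _ fun i _ => (hf i).pow _
  have h2 : ∑ i ∈ d.support, d i • D = D * j := by
    have h3 := hG (mem_support_iff.mp hd)
    rw [Finsupp.weight_apply, Finsupp.sum] at h3
    rw [← h3, Finset.mul_sum]
    refine Finset.sum_congr rfl fun i _ => ?_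
    simp [mul_comm]
  rw [h2] at h1
  have h3 := (isWeightedHomogeneous_C w (coeff d G)).mul h1
  rw [zero_add] at h3
  exact h3

/-- CHUNK P2.  PROOF.  Copy of `imageIdeal_isHomogeneous` (Lib/H89/Arr/Criterion.lean) with weighted homogeneous components: `aeval f (homogeneousComponent i G)` is weighted homogeneous
of degree `D * i` (`IsHomogeneous` of `G i`, `IsWeightedHomogeneous.aeval`-like: sums of products), it is the component of degree `D * i` of `aeval f G` (different `i` give different `D * i`,
`D ≥ 1`), hence in `J` if `aeval f G ∈ J`. -/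
theorem imageIdealW_isHomogeneous {m n D : ℕ} {w : Fin m → ℕ} {J : Ideal (MvPolynomial (Fin m) ℂ)}
    {f : Fin (n + 1) → MvPolynomial (Fin m) ℂ} (hX : WMapD w J D f) :
    (imageIdeal J f).IsHomogeneous (homogeneousSubmodule (Fin (n + 1)) ℂ) := by
  intro i G hG
  have hD : 0 < D := hX.pos
  have h1 : ∀ s : Finset ℕ,
      weightedHomogeneousComponent w (D * i) (aeval f (∑ j ∈ s, homogeneousComponent j G)) =
      aeval f (homogeneousComponent i (∑ j ∈ s, homogeneousComponent j G)) := by
    intro s
    rw [map_sum, map_sum, map_sum, map_sum]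
    refine Finset.sum_congr rfl fun j _ => ?_
    have h2 : (aeval f (homogeneousComponent j G)).IsWeightedHomogeneous w (D * j) :=
      P2_aeval hX.forms (homogeneousComponent_isHomogeneous j G)
    rw [homogeneousComponent_of_mem (homogeneousComponent_isHomogeneous j G)]
    by_cases hij : i = j
    · rw [if_pos hij, hij, IsWeightedHomogeneous.weightedHomogeneousComponent_same h2]
    · rw [if_neg hij, map_zero,
        IsWeightedHomogeneous.weightedHomogeneousComponent_ne _ h2
          (fun h3 => hij (Nat.eq_of_mul_eq_mul_left hD h3))]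
  have h2 := h1 (Finset.range (G.totalDegree + 1))
  rw [sum_homogeneousComponent] at h2
  change ((decomposition.decompose' G i : homogeneousSubmodule (Fin (n + 1)) ℂ i) :
    MvPolynomial (Fin (n + 1)) ℂ) ∈ imageIdeal J f
  rw [decomposition.decompose'_apply, mem_imageIdeal, ← h2]
  exact hX.homogeneous _ (mem_imageIdeal.mp hG) _

end Pool.Agent.H53S
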