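import Pool.Agent.Lib.H53S.W5
import Pool.Agent.Lib.H53S.P1
import Pool.Agent.Lib.H53S.P2
import Pool.Agent.Lib.H53S.G1

set_option autoImplicit false

/-!
H53S, CHUNK G2 (M).  Covers ramified over hypersurfaces.
-/

open MvPolynomial Module Real MeasureTheory
open Pool.Agent.H89.Sect Pool.Agent.H89.Arr

namespace Pool.Agent.H53S

open Pool.Agent.H67T Pool.Agent.H89T

attribute [local instance] MvPolynomial.gradedAlgebra

/-- Evaluation of a form in the `f j`. -/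
theorem G2_eval {m k : ℕ} (f : Fin k → MvPolynomial (Fin m) ℂ) (x : Fin m → ℂ)
    (P : MvPolynomial (Fin k) ℂ) : eval x (aeval f P) = eval (fun j => eval x (f j)) P := by
  rw [aeval_def, ← MvPolynomial.coe_aeval_eq_eval, MvPolynomial.hom_eval₂]
  simp only [MvPolynomial.coe_aeval_eq_eval]
  rw [MvPolynomial.eval, MvPolynomial.coe_eval₂Hom]
  congr 1
  ext c
  simp

/-- CHUNK G2.  PROOF.  If `1 < ε` take `k₀ = 1`, `P = 1`: the degree condition is impossible (`∑ d i ≥ 1`, `D ≥ 1`, `e ≥ 1`, so the right-hand side is negative).  Otherwise `smtI (n + 1) N δ (ε / 2)` for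
`I = imageIdeal J f` (`imageIdeal_isPrime`, `imageIdealW_isHomogeneous`) gives `k₀` (take `max k₀ 1`) and `P₀`; `P = P₀ * ∏ i, F i ∉ I` (prime, `hF.nonzero`).  For a curve `v` in `X` let `y z = f (v z)`: `IsHol` by
`hX.free`; its values are zeros of `I` (`eval (y z) G = eval (v z) (aeval f G)`); `CurvePosF N d F y` by `posX_bound`.  Then `cov_eq_zeroS` with `ε / 2`, `B = ∑ i, d i`,
`κ = (1 - ε) * B < (1 - ε / 2) * B`. -/
theorem coversW (n N δ : ℕ) (ε : ℝ) (hε : 0 < ε) : ∃ k₀ : ℕ, 1 ≤ k₀ ∧ ∀ (ι : Type) [Fintype ι],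
    k₀ ≤ Fintype.card ι → ∀ (d : ι → ℕ) (F : ι → MvPolynomial (Fin (n + 1)) ℂ)
    (m D : ℕ) (w : Fin m → ℕ) (J : Ideal (MvPolynomial (Fin m) ℂ))
    (f : Fin (n + 1) → MvPolynomial (Fin m) ℂ), WMapD w J D f → (∀ i, 1 ≤ d i ∧ d i ≤ δ) →
    (∀ i, (F i).IsHomogeneous (d i)) → HypI (imageIdeal J f) F → PosX N J f F →
    ∃ P : MvPolynomial (Fin (n + 1)) ℂ, P ∉ imageIdeal J f ∧
      ∀ (e a : ℕ) (R : MvPolynomial (Fin m) ℂ), 1 ≤ e → R.IsWeightedHomogeneous w a →
        (a : ℝ) ≤ e * ((1 - ε) * (∑ i, d i : ℕ) * D) →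
        ∀ u : ℂ → Fin m → ℂ, IsHol u → (∀ z, ∀ G ∈ J, eval (u z) G = 0) →
          (∃ z z', ∀ t : ℂ, u z' ≠ act w t (u z)) →
          (∀ (z : ℂ) (U : Finset ι), (∀ i ∈ U, eval (fun j => eval (u z) (f j)) (F i) = 0) →
            ((e * U.card : ℕ) : ℕ∞) ≤ analyticOrderAt (fun z => eval (u z) R) z) →
          ∀ z, eval (u z) (aeval f P * R) = 0 := by
  rcases lt_or_ge 1 ε with hε1 | hε1
  · refine ⟨1, le_rfl, fun ι _ hcard d F m D w J f hX hd hF hI hpos => ⟨1, ?_, ?_⟩⟩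
    · intro h
      exact (imageIdeal_isPrime hX.prime f).ne_top ((Ideal.eq_top_iff_one _).2 h)
    · intro e a R he hR ha
      exfalso
      have h1 : (1 : ℝ) ≤ (∑ i, d i : ℕ) := by
        obtain ⟨i⟩ : Nonempty ι := Fintype.card_pos_iff.1 (by omega)
        have h2 : d i ≤ ∑ i, d i := Finset.single_le_sum (fun j _ => Nat.zero_le _) (Finset.mem_univ i)
        have h3 := (hd i).1
        exact_mod_cast h3.trans h2
      have h2 : (1 : ℝ) ≤ D := by exact_mod_cast hX.pos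
      have h3 : (1 : ℝ) ≤ e := by exact_mod_cast he
      have h4 : (0 : ℝ) ≤ a := Nat.cast_nonneg a
      have h5 : 0 < (e : ℝ) * ((ε - 1) * (∑ i, d i : ℕ) * D) := by
        have : 0 < ε - 1 := by linarith
        positivity
      have h6 : (e : ℝ) * ((1 - ε) * (∑ i, d i : ℕ) * D) = -((e : ℝ) * ((ε - 1) * (∑ i, d i : ℕ) * D)) := by
        ring
      linarith
  obtain ⟨k₀, hk₀⟩ := smtI (n + 1) N δ (ε / 2) (by linarith) (by linarith)
  refine ⟨max k₀ 1, le_max_right _ _, fun ι _ hcard d F m D w J f hX hd hF hI hpos => ?_⟩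
  have hprime : (imageIdeal J f).IsPrime := imageIdeal_isPrime hX.prime f
  obtain ⟨P₀, hP₀, hsmt⟩ := hk₀ ι ((le_max_left _ _).trans hcard) d F (imageIdeal J f) hprime
    (imageIdealW_isHomogeneous hX) hd hF hI
  refine ⟨P₀ * ∏ i, F i, ?_, ?_⟩
  · intro h
    rcases hprime.mem_or_mem h with h1 | h1
    · exact hP₀ h1
    · obtain ⟨i, _, hi⟩ := hprime.prod_mem_iff.1 h1
      exact hI.nonzero i hi
  · intro e a R he hR ha u hu huJ hnc hord z₁
    have hB : (1 : ℝ) ≤ (∑ i, d i : ℕ) := by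
      obtain ⟨i⟩ : Nonempty ι := Fintype.card_pos_iff.1 (by have := le_max_right k₀ 1; omega)
      have h2 : d i ≤ ∑ i, d i := Finset.single_le_sum (fun j _ => Nat.zero_le _) (Finset.mem_univ i)
      have h3 := (hd i).1
      exact_mod_cast h3.trans h2
    refine cov_eq_zeroS (ε := ε / 2) (κ := (1 - ε) * (∑ i, d i : ℕ)) (B := (∑ i, d i : ℕ)) he ?_ hX
      ?_ hR ha hu huJ hord hnc z₁
    · nlinarith
    · intro v hv hvJ hvP
      have hyh : IsHol fun z j => eval (v z) (f j) := by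
        refine ⟨fun j => differentiable_eval hv.diff (f j), fun z h => ?_⟩
        obtain ⟨j, hj⟩ := hX.free (v z) (hv.ne_zero z) (hvJ z)
        exact hj (congrFun h j)
      have hyI : ∀ z, ∀ G ∈ imageIdeal J f, eval (fun j => eval (v z) (f j)) G = 0 := by
        intro z G hG
        rw [← G2_eval]
        exact hvJ z _ (mem_imageIdeal.mp hG)
      obtain ⟨z₀, hz₀⟩ := hvP
      rw [map_mul, map_prod] at hz₀
      refine ⟨fun i => ⟨z₀, fun h => ?_⟩, ?_⟩
      · exact hz₀ (mul_eq_zero_of_right _ (Finset.prod_eq_zero (Finset.mem_univ i) h))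
      · obtain ⟨c, hc, hcb⟩ := posX_bound hX hF hpos
        exact hsmt _ hyh hyI ⟨c, hc, fun s hs z => hcb s hs (v z) (hv.ne_zero z) (hvJ z)⟩
          ⟨z₀, left_ne_zero_of_mul hz₀⟩

end Pool.Agent.H53S
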