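import Mathlib

set_option autoImplicit false

/-!
H53S, G4.  Algebra of the cyclic covers `z ^ μ = G`.
-/

open MvPolynomial

namespace Pool.Agent.H53S

/-- The equation `z ^ μ = G`. -/
noncomputable def cyc {n : ℕ} (μ : ℕ) (G : MvPolynomial (Fin n) ℂ) : MvPolynomial (Fin (n + 1)) ℂ :=
  X 0 ^ μ - rename Fin.succ G

theorem finSucc_rename {n : ℕ} (G : MvPolynomial (Fin n) ℂ) :
    finSuccEquiv ℂ n (rename Fin.succ G) = Polynomial.C G := by
  induction G using MvPolynomial.induction_on with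
  | C a => simp [finSuccEquiv_apply]
  | add p q hp hq => simp only [map_add, hp, hq]
  | mul_X p i hp => simp only [map_mul, hp, rename_X, finSuccEquiv_X_succ]

theorem eval_cyc {n μ : ℕ} (G : MvPolynomial (Fin n) ℂ) (v : Fin (n + 1) → ℂ) :
    eval v (cyc μ G) = v 0 ^ μ - eval (fun j => v j.succ) G := by
  rw [cyc, map_sub, map_pow, eval_X, eval_rename]
  rfl

theorem cyc_prime {n μ : ℕ} (hμ : 1 ≤ μ) {G : MvPolynomial (Fin n) ℂ} (hsq : Squarefree G)
    (hG : ¬ IsUnit G) : (Ideal.span {cyc μ G}).IsPrime := by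
  have hG0 : G ≠ 0 := hsq.ne_zero
  have he : finSuccEquiv ℂ n (cyc μ G) = Polynomial.X ^ μ - Polynomial.C G := by
    rw [cyc, map_sub, map_pow, finSuccEquiv_X_zero, finSucc_rename]
  have hmon : (Polynomial.X ^ μ - Polynomial.C G).Monic := Polynomial.monic_X_pow_sub_C G (by omega)
  have hdeg : (Polynomial.X ^ μ - Polynomial.C G).degree = (μ : WithBot ℕ) :=
    Polynomial.degree_X_pow_sub_C (show 0 < μ by omega) G
  obtain ⟨p, hp, q, hq⟩ := WfDvdMonoid.exists_irreducible_factor hG hG0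
  have hirr : Irreducible (Polynomial.X ^ μ - Polynomial.C G) := by
    refine Polynomial.irreducible_of_eisenstein_criterion (P := Ideal.span {p})
      ((Ideal.span_singleton_prime hp.ne_zero).2 hp.prime) ?_ ?_ ?_ ?_ hmon.isPrimitive
    · rw [hmon.leadingCoeff]
      intro h
      exact ((Ideal.span_singleton_prime hp.ne_zero).2 hp.prime).ne_top
        ((Ideal.eq_top_iff_one _).2 h)
    · intro i hi
      rw [hdeg] at hi
      have hi' : i < μ := by exact_mod_cast hi
      rw [Polynomial.coeff_sub, Polynomial.coeff_X_pow, if_neg (by omega), zero_sub,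
        Polynomial.coeff_C]
      split_ifs
      · rw [neg_mem_iff, hq]
        exact Ideal.mul_mem_right _ _ (Ideal.mem_span_singleton_self p)
      · rw [neg_zero]
        exact zero_mem _
    · rw [hdeg]
      exact_mod_cast (show 0 < μ by omega)
    · rw [Polynomial.coeff_sub, Polynomial.coeff_X_pow, if_neg (by omega), zero_sub,
        Polynomial.coeff_C_zero, neg_mem_iff, Ideal.span_singleton_pow,
        Ideal.mem_span_singleton, pow_two]
      intro h
      exact hp.not_isUnit (hsq p h)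
  have h1 : Prime (Polynomial.X ^ μ - Polynomial.C G) := hirr.prime
  have h2 : Prime (cyc μ G) := by
    rw [← he] at h1
    exact (MulEquiv.prime_iff (finSuccEquiv ℂ n).toMulEquiv).1 h1
  exact (Ideal.span_singleton_prime h2.ne_zero).2 h2

attribute [local instance] MvPolynomial.weightedGradedAlgebra

theorem cyc_homogeneous {n μ c : ℕ} {G : MvPolynomial (Fin n) ℂ} (hG : G.IsHomogeneous (μ * c)) :
    (cyc μ G).IsWeightedHomogeneous (Fin.cons c fun _ => 1 : Fin (n + 1) → ℕ) (μ * c) := by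
  have h1 : (X 0 ^ μ : MvPolynomial (Fin (n + 1)) ℂ).IsWeightedHomogeneous
      (Fin.cons c fun _ => 1 : Fin (n + 1) → ℕ) (μ * c) := by
    have h := (isWeightedHomogeneous_X ℂ (Fin.cons c fun _ => 1 : Fin (n + 1) → ℕ) 0).pow μ
    simpa using h
  have h2 : (rename Fin.succ G : MvPolynomial (Fin (n + 1)) ℂ).IsWeightedHomogeneous
      (Fin.cons c fun _ => 1 : Fin (n + 1) → ℕ) (μ * c) := by
    intro s hs
    obtain ⟨u, hu, hu'⟩ := coeff_rename_ne_zero _ _ _ hs
    have h3 := hG hu'
    rw [← hu, ← h3]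
    simp [Finsupp.weight_apply, Finsupp.sum_mapDomain_index, add_mul]
  exact h1.sub h2

theorem cyc_component {n μ c : ℕ} {G : MvPolynomial (Fin n) ℂ} (hG : G.IsHomogeneous (μ * c)) :
    ∀ F ∈ Ideal.span {cyc μ G}, ∀ d,
      weightedHomogeneousComponent (Fin.cons c fun _ => 1 : Fin (n + 1) → ℕ) d F ∈
        Ideal.span {cyc μ G} := by
  have h1 : (Ideal.span {cyc μ G}).IsHomogeneous
      (weightedHomogeneousSubmodule ℂ (Fin.cons c fun _ => 1 : Fin (n + 1) → ℕ)) := by
    apply Ideal.homogeneous_span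
    rintro x rfl
    exact ⟨_, cyc_homogeneous hG⟩
  intro F hF d
  exact weightedHomogeneousComponent_mem_of_mem ℂ _ h1 hF d

/-- The points of the cyclic cover. -/
theorem mem_cyc {n μ : ℕ} {G : MvPolynomial (Fin n) ℂ} {v : Fin (n + 1) → ℂ} :
    (∀ F ∈ Ideal.span {cyc μ G}, eval v F = 0) ↔ v 0 ^ μ = eval (fun j => v j.succ) G := by
  constructor
  · intro h
    have h1 := h _ (Ideal.mem_span_singleton_self _)
    rw [eval_cyc] at h1
    exact sub_eq_zero.1 h1
  · intro h F hF
    obtain ⟨q, rfl⟩ := Ideal.mem_span_singleton.1 hF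
    rw [map_mul, eval_cyc, h, sub_self, zero_mul]

theorem imageIdeal_cyc {n μ : ℕ} (hμ : 1 ≤ μ) {G : MvPolynomial (Fin n) ℂ} :
    (Ideal.span {cyc μ G}).comap (aeval fun j : Fin n => (X j.succ : MvPolynomial (Fin (n + 1)) ℂ)) =
      (⊥ : Ideal (MvPolynomial (Fin n) ℂ)) := by
  rw [eq_bot_iff]
  intro P hP
  rw [Ideal.mem_bot]
  apply MvPolynomial.funext
  intro x
  obtain ⟨z, hz⟩ := IsAlgClosed.exists_pow_nat_eq (eval x G) (show 0 < μ by omega)
  have h1 := mem_cyc.2 (show (Fin.cons z x : Fin (n + 1) → ℂ) 0 ^ μ =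
    eval (fun j => (Fin.cons z x : Fin (n + 1) → ℂ) j.succ) G by simpa using hz) _ hP
  have h2 : (aeval fun j : Fin n => (X j.succ : MvPolynomial (Fin (n + 1)) ℂ)) P =
      rename Fin.succ P :=
    DFunLike.congr_fun (algHom_ext fun i => by rw [aeval_X, rename_X]) P
  rw [h2, eval_rename] at h1
  have h3 : ((Fin.cons z x : Fin (n + 1) → ℂ) ∘ Fin.succ) = x := by
    funext j
    simp
  rw [h3] at h1
  rw [h1, map_zero]

end Pool.Agent.H53S
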