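import Pool.Agent.Lib.H53S.V2b

set_option autoImplicit false

/-!
H53S, CHUNK V2 (S/M).  The hypotheses `DataR` for the Veronese image.
-/

open MvPolynomial Module Real MeasureTheory
open Pool.Agent.H89.Sect Pool.Agent.H89.Arr

namespace Pool.Agent.H53S

open Pool.Agent.H67T

attribute [local instance] MvPolynomial.gradedAlgebra

theorem V2_comap {m n M : ℕ} (J : Ideal (MvPolynomial (Fin m) ℂ))
    (f : Fin n → MvPolynomial (Fin m) ℂ) (g : Fin M → MvPolynomial (Fin n) ℂ) :
    imageIdeal J (fun l => aeval f (g l)) = (imageIdeal J f).comap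
      (aeval g : MvPolynomial (Fin M) ℂ →ₐ[ℂ] MvPolynomial (Fin n) ℂ) := by
  ext G
  rw [Ideal.mem_comap, mem_imageIdeal, mem_imageIdeal, comp_aeval_apply]

/-- CHUNK V2 (S/M).  PROOF.  `imageIdeal J (fun l => aeval f (g l)) = (imageIdeal J f).comap (aeval g)` (`MvPolynomial.comp_aeval`/`aeval` of `aeval`); prime and homogeneous: `imageIdeal_isPrime`,
`imageIdeal_isHomogeneous` (degree `δ * D`; `aeval f (g l)` is homogeneous); nondegenerate: `hg.indep`; distinct: `p i = c • p j` gives `F i - C c * F j ∈ I`; reduced: `reduced_veronese`. -/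
theorem dataR_veronese {m n D δ M : ℕ} (hδ : 1 ≤ δ) {J : Ideal (MvPolynomial (Fin m) ℂ)}
    {f : Fin (n + 1) → MvPolynomial (Fin m) ℂ} (hX : MapD J D f)
    {g : Fin (M + 1) → MvPolynomial (Fin (n + 1)) ℂ} (hg : BasisD (imageIdeal J f) δ g) {ι : Type} {N : ℕ}
    {F : ι → MvPolynomial (Fin (n + 1)) ℂ} (hFδ : ∀ i, (F i).IsHomogeneous δ) (hF : HypD N J f F)
    {p : ι → Fin (M + 1) → ℂ} (hp : ∀ i, F i - ∑ l, C (p i l) * g l ∈ imageIdeal J f) :
    DataR p (imageIdeal J (fun l => aeval f (g l))) where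
  distinct := by
    intro i j hij c hc
    refine hF.distinct i j hij c ?_
    have h1 : ∑ l, C (p i l) * g l = C c * ∑ l, C (p j l) * g l := by
      rw [Finset.mul_sum]
      refine Finset.sum_congr rfl fun l _ => ?_
      rw [hc, Pi.smul_apply, smul_eq_mul, C_mul, mul_assoc]
    have h2 : F i - C c * F j = (F i - ∑ l, C (p i l) * g l) -
        C c * (F j - ∑ l, C (p j l) * g l) := by
      rw [h1]
      ring
    rw [h2]
    exact sub_mem (hp i) (Ideal.mul_mem_left _ _ (hp j))
  prime := imageIdeal_isPrime hX.prime _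
  homogeneous := imageIdeal_isHomogeneous (D := D * δ) (Nat.mul_pos hX.pos hδ) hX.homogeneous
    fun l => (hg.forms l).aeval f hX.forms
  nondegenerate := by
    intro y hy hmem
    rw [V2_comap, Ideal.mem_comap, V2b_lf] at hmem
    exact hy (hg.indep y hmem)
  reduced := by
    intro i
    rw [V2_comap]
    exact reduced_veronese hδ (imageIdeal_isHomogeneous hX.pos hX.homogeneous hX.forms) hg (hFδ i)
      (hF.reduced i) (hp i)

end Pool.Agent.H53S
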