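import Pool.Agent.Lib.H53S.D0

set_option autoImplicit false

/-!
H53S, CHUNK V2a (M).  Forms of degree `δ * e` as forms of degree `e` in the Veronese coordinates.
-/

open MvPolynomial Module Real MeasureTheory
open Pool.Agent.H89.Sect Pool.Agent.H89.Arr

namespace Pool.Agent.H53S

open Pool.Agent.H67T

attribute [local instance] MvPolynomial.gradedAlgebra

theorem V2a_split {n : ℕ} (δ : ℕ) (μ : Fin n →₀ ℕ) (h : δ ≤ μ.degree) :
    ∃ μ₁ : Fin n →₀ ℕ, μ₁ ≤ μ ∧ μ₁.degree = δ := by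
  induction δ with
  | zero => exact ⟨0, zero_le, map_zero _⟩
  | succ δ ih =>
    obtain ⟨μ₁, hle, hd⟩ := ih (by omega)
    have hex : ∃ i, μ₁ i < μ i := by
      by_contra hcon
      push Not at hcon
      have : μ = μ₁ := le_antisymm (fun i => hcon i) hle
      rw [this, hd] at h
      omega
    obtain ⟨i, hi⟩ := hex
    refine ⟨μ₁ + Finsupp.single i 1, ?_, ?_⟩
    · intro j
      rw [Finsupp.add_apply, Finsupp.single_apply]
      split_ifs with hj
      · subst hj; omega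
      · have := hle j
        omega
    · rw [map_add, hd, Finsupp.degree_single]

theorem V2a_mono {n M δ : ℕ} {I : Ideal (MvPolynomial (Fin n) ℂ)} {g : Fin M → MvPolynomial (Fin n) ℂ}
    (hg : BasisD I δ g) (e : ℕ) : ∀ μ : Fin n →₀ ℕ, μ.degree = δ * e →
    ∃ V : MvPolynomial (Fin M) ℂ, V.IsHomogeneous e ∧ monomial μ (1 : ℂ) - aeval g V ∈ I := by
  induction e with
  | zero =>
    intro μ hμ
    rw [Nat.mul_zero, Finsupp.degree_eq_zero_iff] at hμ
    refine ⟨1, isHomogeneous_one _ _, ?_⟩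
    have h1 : monomial (0 : Fin n →₀ ℕ) (1 : ℂ) = 1 := rfl
    have h2 : aeval g (1 : MvPolynomial (Fin M) ℂ) = 1 := map_one _
    rw [hμ, h1, h2, sub_self]
    exact I.zero_mem
  | succ e ih =>
    intro μ hμ
    obtain ⟨μ₁, hle, hd⟩ := V2a_split δ μ (by rw [hμ]; exact Nat.le_mul_of_pos_right δ (Nat.succ_pos e))
    have hsum : μ₁ + (μ - μ₁) = μ := add_tsub_cancel_of_le hle
    have hd2 : (μ - μ₁).degree = δ * e := by
      have h1 : (μ₁ + (μ - μ₁)).degree = δ * (e + 1) := by rw [hsum, hμ]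
      rw [map_add, hd, Nat.mul_succ] at h1
      omega
    obtain ⟨V₂, hV₂, hV₂I⟩ := ih _ hd2
    obtain ⟨c, hc⟩ := hg.span (monomial μ₁ (1 : ℂ)) (isHomogeneous_monomial 1 hd)
    refine ⟨(∑ l, C (c l) * X l) * V₂, ?_, ?_⟩
    · rw [Nat.add_comm e 1]
      refine IsHomogeneous.mul (IsHomogeneous.sum _ _ _ fun l _ => ?_) hV₂
      exact isHomogeneous_C_mul_X (c l) l
    · have e1 : aeval g ((∑ l, C (c l) * X l) * V₂) = (∑ l, C (c l) * g l) * aeval g V₂ := by
        rw [map_mul, map_sum]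
        congr 1
        refine Finset.sum_congr rfl fun l _ => ?_
        rw [map_mul, aeval_C, aeval_X, algebraMap_eq]
      have e2 : monomial μ (1 : ℂ) = monomial μ₁ (1 : ℂ) * monomial (μ - μ₁) (1 : ℂ) := by
        rw [monomial_mul, hsum, one_mul]
      have e3 : monomial μ (1 : ℂ) - aeval g ((∑ l, C (c l) * X l) * V₂) =
          (monomial μ₁ (1 : ℂ) - ∑ l, C (c l) * g l) * monomial (μ - μ₁) (1 : ℂ) +
            (∑ l, C (c l) * g l) * (monomial (μ - μ₁) (1 : ℂ) - aeval g V₂) := by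
        rw [e1, e2]; ring
      rw [e3]
      exact I.add_mem (I.mul_mem_right _ hc) (I.mul_mem_left _ hV₂I)

/-- CHUNK V2a (M).  Products of `e` forms of degree `δ`: every form `W` of degree `δ * e` in `x` is, modulo `I`, a form of degree `e` in the `g l`.
PROOF.  By linearity `W = monomial μ 1` with `μ.degree = δ * e` (`W.as_sum`, `Submodule` or choose).  Induction on `e`: `e = 0`: `W = 1`.  `e + 1`: `μ = μ₁ + μ₂` with `μ₁.degree = δ`,
`μ₂.degree = δ * e` (any `μ` with `δ ≤ μ.degree` has a `μ₁ ≤ μ` of degree `δ`: induction on `δ`, or Finsupp lemma), `monomial μ₁ 1 ≡ ∑ c l g l` by `hg.span`,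
`monomial μ₂ 1 ≡ aeval g V₂`; `V = (∑ l, C (c l) * X l) * V₂`. -/
theorem veronese_lift {n M δ : ℕ} {I : Ideal (MvPolynomial (Fin n) ℂ)} {g : Fin M → MvPolynomial (Fin n) ℂ}
    (hg : BasisD I δ g) (e : ℕ) {W : MvPolynomial (Fin n) ℂ} (hW : W.IsHomogeneous (δ * e)) :
    ∃ V : MvPolynomial (Fin M) ℂ, V.IsHomogeneous e ∧ W - aeval g V ∈ I := by
  classical
  have hdeg : ∀ μ ∈ W.support, μ.degree = δ * e := by
    intro μ hμ
    rw [Finsupp.degree_eq_weight_one]
    exact hW (mem_support_iff.1 hμ)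
  choose! V hV hVI using V2a_mono hg e
  refine ⟨∑ μ ∈ W.support, C (coeff μ W) * V μ, ?_, ?_⟩
  · refine IsHomogeneous.sum _ _ _ fun μ hμ => ?_
    have h1 := (isHomogeneous_C (Fin M) (coeff μ W)).mul (hV μ (hdeg μ hμ))
    rwa [Nat.zero_add] at h1
  · have e1 : W - aeval g (∑ μ ∈ W.support, C (coeff μ W) * V μ) =
        ∑ μ ∈ W.support, C (coeff μ W) * (monomial μ (1 : ℂ) - aeval g (V μ)) := by
      rw [map_sum]
      conv_lhs => enter [1]; rw [W.as_sum]
      rw [← Finset.sum_sub_distrib]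
      refine Finset.sum_congr rfl fun μ _ => ?_
      rw [map_mul, aeval_C, algebraMap_eq, mul_sub, C_mul_monomial, mul_one]
    rw [e1]
    exact I.sum_mem fun μ hμ => I.mul_mem_left _ (hVI μ (hdeg μ hμ))

end Pool.Agent.H53S
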