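import Pool.Agent.Lib.H53S.V3b

set_option autoImplicit false

/-!
H53S, CHUNK V3 (S).  The characteristic function of the Veronese curve.
-/

open MvPolynomial Module Real MeasureTheory
open Pool.Agent.H89.Sect Pool.Agent.H89.Arr

namespace Pool.Agent.H53S

open Pool.Agent.H67T

attribute [local instance] MvPolynomial.gradedAlgebra

theorem V3_differentiable_eval {m : ℕ} (F : MvPolynomial (Fin m) ℂ) {u : ℂ → Fin m → ℂ}
    (hu : ∀ j, Differentiable ℂ fun z => u z j) : Differentiable ℂ fun z => eval (u z) F := by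
  induction F using MvPolynomial.induction_on with
  | C a => simp only [eval_C]; exact differentiable_const a
  | add p q hp hq => simp only [map_add]; exact hp.add hq
  | mul_X p j hp => simp only [map_mul, eval_X]; exact hp.mul (hu j)

/-- CHUNK V3 (S).  PROOF.  `veronese_norm` and `chi_comp_ge` (Lib/H67T/GH3.lean) with `D := δ`, `δ := 1 / A`; `IsHol` of `fun z j => eval (u z) (f j)` by `hX.free`. -/
theorem veronese_chi {m n D δ M : ℕ} {J : Ideal (MvPolynomial (Fin m) ℂ)}
    {f : Fin (n + 1) → MvPolynomial (Fin m) ℂ} (hX : MapD J D f)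
    {g : Fin M → MvPolynomial (Fin (n + 1)) ℂ} (hg : BasisD (imageIdeal J f) δ g)
    {u : ℂ → Fin m → ℂ} (hu : IsHol u) (huJ : ∀ z, ∀ G ∈ J, eval (u z) G = 0)
    (hu' : IsHol (fun z l => eval (u z) (aeval f (g l)))) :
    ∃ K : ℝ, ∀ r : ℝ, 0 < r →
      δ * chi (fun z j => eval (u z) (f j)) r - K ≤ chi (fun z l => eval (u z) (aeval f (g l))) r := by
  obtain ⟨A, hA, hn⟩ := veronese_norm hX hg
  have hf : IsHol (fun z j => eval (u z) (f j)) := by
    refine ⟨fun j => V3_differentiable_eval (f j) hu.diff, fun z hz => ?_⟩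
    obtain ⟨j, hj⟩ := hX.free (u z) (hu.ne_zero z) (huJ z)
    exact hj (congrFun hz j)
  refine ⟨log A, fun r hr => ?_⟩
  have h := chi_comp_ge hf hu' (one_div_pos.mpr hA) (D := δ) (fun z => ?_) hr
  · rw [one_div, log_inv] at h
    linarith
  · have h1 := hn (u z) (huJ z)
    rw [one_div, inv_mul_le_iff₀ hA]
    exact h1

end Pool.Agent.H53S
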