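import Pool.Agent.Lib.H53S.D0

set_option autoImplicit false

/-!
H53S, CHUNK V3a (S/M).  Norms of the Veronese coordinates.
-/

open MvPolynomial Module Real MeasureTheory
open Pool.Agent.H89.Sect Pool.Agent.H89.Arr

namespace Pool.Agent.H53S

open Pool.Agent.H67T

attribute [local instance] MvPolynomial.gradedAlgebra

/-- The main estimate of the chunk V3a, for an arbitrary ideal. -/
theorem v3a_main {n δ M : ℕ} {I : Ideal (MvPolynomial (Fin (n + 1)) ℂ)}
    {g : Fin M → MvPolynomial (Fin (n + 1)) ℂ} (hg : BasisD I δ g) :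
    ∃ A : ℝ, 0 < A ∧ ∀ y : Fin (n + 1) → ℂ, (∀ G ∈ I, eval y G = 0) →
      ‖y‖ ^ δ ≤ A * ‖fun l => eval y (g l)‖ := by
  have h1 : ∀ j : Fin (n + 1), ∃ c : Fin M → ℂ, (X j ^ δ : MvPolynomial (Fin (n + 1)) ℂ) -
      ∑ l, C (c l) * g l ∈ I := by
    intro j
    apply hg.span
    have := (isHomogeneous_X ℂ j).pow δ
    simpa using this
  choose c hc using h1
  refine ⟨1 + ∑ j, ∑ l, ‖c j l‖, by positivity, ?_⟩
  intro y hy
  obtain ⟨j, -, hj⟩ := Finset.exists_max_image Finset.univ (fun j => ‖y j‖) ⟨0, Finset.mem_univ _⟩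
  have hyn : ‖y‖ = ‖y j‖ := by
    apply le_antisymm
    · exact (pi_norm_le_iff_of_nonneg (norm_nonneg _)).2 fun i => hj i (Finset.mem_univ _)
    · exact norm_le_pi_norm y j
  have h2 : y j ^ δ = ∑ l, c j l * eval y (g l) := by
    have := hy _ (hc j)
    rw [map_sub, sub_eq_zero, map_pow, eval_X, map_sum] at this
    rw [this]
    refine Finset.sum_congr rfl fun l _ => ?_
    rw [map_mul, eval_C]
  rw [hyn, ← norm_pow, h2]
  calc ‖∑ l, c j l * eval y (g l)‖ ≤ ∑ l, ‖c j l * eval y (g l)‖ := norm_sum_le _ _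
    _ ≤ ∑ l, ‖c j l‖ * ‖fun l => eval y (g l)‖ := by
        refine Finset.sum_le_sum fun l _ => ?_
        rw [norm_mul]
        exact mul_le_mul_of_nonneg_left (norm_le_pi_norm (fun l => eval y (g l)) l) (norm_nonneg _)
    _ = (∑ l, ‖c j l‖) * ‖fun l => eval y (g l)‖ := by rw [Finset.sum_mul]
    _ ≤ (1 + ∑ j, ∑ l, ‖c j l‖) * ‖fun l => eval y (g l)‖ := by
        apply mul_le_mul_of_nonneg_right _ (norm_nonneg _)
        have : ∑ l, ‖c j l‖ ≤ ∑ j, ∑ l, ‖c j l‖ :=
          Finset.single_le_sum (f := fun j => ∑ l, ‖c j l‖) (fun i _ => by positivity)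
            (Finset.mem_univ j)
        linarith

/-- CHUNK V3a (S/M).  PROOF.  `(X j) ^ δ` is homogeneous of degree `δ`, so `X j ^ δ ≡ ∑ l, c j l g l mod I`, `I = imageIdeal J f`, and at a point `x` of `X` with `y = f (x)`:
`y j ^ δ = ∑ l, c j l * g l (y)`; take `A = 1 + ∑ j, ∑ l, ‖c j l‖`. -/
theorem veronese_norm {m n D δ M : ℕ} {J : Ideal (MvPolynomial (Fin m) ℂ)}
    {f : Fin (n + 1) → MvPolynomial (Fin m) ℂ} (hX : MapD J D f)
    {g : Fin M → MvPolynomial (Fin (n + 1)) ℂ} (hg : BasisD (imageIdeal J f) δ g) :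
    ∃ A : ℝ, 0 < A ∧ ∀ x : Fin m → ℂ, (∀ G ∈ J, eval x G = 0) →
      ‖fun j => eval x (f j)‖ ^ δ ≤ A * ‖fun l => eval x (aeval f (g l))‖ := by
  obtain ⟨A, hA, h⟩ := v3a_main hg
  refine ⟨A, hA, fun x hx => ?_⟩
  have hcomp : ∀ G : MvPolynomial (Fin (n + 1)) ℂ,
      eval x (aeval f G) = eval (fun j => eval x (f j)) G := by
    intro G
    induction G using MvPolynomial.induction_on with
    | C a => simp
    | add p q hp hq => rw [map_add, map_add, map_add, hp, hq]
    | mul_X p i hp => rw [map_mul, map_mul, map_mul, hp, aeval_X, eval_X]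
  have := h (fun j => eval x (f j)) (fun G hG => by
    rw [← hcomp]
    exact hx _ (mem_imageIdeal.1 hG))
  simpa only [hcomp] using this

end Pool.Agent.H53S
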