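import Pool.Agent.Lib.H53S.V3a

set_option autoImplicit false

/-!
H53S, CHUNK V3b (M).  The Veronese curve: no common zeros, position.
-/

open MvPolynomial Module Real MeasureTheory
open Pool.Agent.H89.Sect Pool.Agent.H89.Arr

namespace Pool.Agent.H53S

open Pool.Agent.H67T

attribute [local instance] MvPolynomial.gradedAlgebra

/-- CHUNK V3b (M).  PROOF.  For `s : Fin (N + 1) → ι` injective: `norm_ge` (Lib/H67T/GH2.lean) for the family `fun a => aeval f (F (s a))` of degree `δ * D` gives `c s > 0` with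
`c s * ‖x‖ ^ (δ * D) ≤ ‖fun a => eval x (aeval f (F (s a)))‖ ≤ ∑ a, ‖..‖`; the minimum over the finitely many `s` (`Finite`, `ι` is finite; if there is no `s` any `c` will do).  Upper bound:
`‖fun l => eval x (aeval f (g l))‖ ≤ A' ‖x‖ ^ (δ * D)` for forms of degree `δ * D` (`norm_eval_le` in H67T.GH4 or H89T; or `∑ ‖coeff‖`).  `lin (p i) (y z) = eval (u z) (aeval f (F i))` for points of
`X` by `hp` (`mem_imageIdeal`).  `IsHol`: no common zeros by `veronese_norm` and `hX.free`; `differentiable_eval`. -/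
theorem veronese_curve {m n D δ M N : ℕ} (hδ : 1 ≤ δ) {J : Ideal (MvPolynomial (Fin m) ℂ)}
    {f : Fin (n + 1) → MvPolynomial (Fin m) ℂ} (hX : MapD J D f)
    {g : Fin M → MvPolynomial (Fin (n + 1)) ℂ} (hg : BasisD (imageIdeal J f) δ g) {ι : Type} [Fintype ι]
    {F : ι → MvPolynomial (Fin (n + 1)) ℂ} (hFδ : ∀ i, (F i).IsHomogeneous δ) (hF : HypD N J f F)
    {p : ι → Fin M → ℂ} (hp : ∀ i, F i - ∑ l, C (p i l) * g l ∈ imageIdeal J f)
    {u : ℂ → Fin m → ℂ} (hu : IsHol u) (huJ : ∀ z, ∀ G ∈ J, eval (u z) G = 0) :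
    IsHol (fun z l => eval (u z) (aeval f (g l))) ∧
      CurvePos N p (fun z l => eval (u z) (aeval f (g l))) ∧
      ∀ i z, lin (p i) (fun l => eval (u z) (aeval f (g l))) = eval (u z) (aeval f (F i)) := by
  sorry

end Pool.Agent.H53S
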