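import Pool.Agent.Lib.H53S.S2
import Pool.Agent.Lib.H53S.V1
import Pool.Agent.Lib.H53S.V2
import Pool.Agent.Lib.H53S.V3

set_option autoImplicit false

/-!
H53S, CHUNK V4 (M).  The second main theorem for hypersurfaces of one degree.
-/

open MvPolynomial Module Real MeasureTheory
open Pool.Agent.H89.Sect Pool.Agent.H89.Arr

namespace Pool.Agent.H53S

open Pool.Agent.H67T

attribute [local instance] MvPolynomial.gradedAlgebra

private theorem v4_eval {m M : ℕ} (G : Fin M → MvPolynomial (Fin m) ℂ) (x : Fin m → ℂ)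
    (P : MvPolynomial (Fin M) ℂ) : eval x (aeval G P) = eval (fun l => eval x (G l)) P := by
  induction P using MvPolynomial.induction_on with
  | C a => simp [aeval_C, MvPolynomial.algebraMap_eq]
  | add p q hp hq => simp only [map_add, hp, hq]
  | mul_X p i hp => simp only [map_mul, hp, aeval_X, eval_X]

private theorem v4_two {n M N m : ℕ} {J : Ideal (MvPolynomial (Fin m) ℂ)}
    {f : Fin (n + 1) → MvPolynomial (Fin m) ℂ} {ι : Type} [Fintype ι]
    {F : ι → MvPolynomial (Fin (n + 1)) ℂ} (hF : HypD N J f F) (hc : 2 ≤ Fintype.card ι)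
    {g : Fin M → MvPolynomial (Fin (n + 1)) ℂ} {p : ι → Fin M → ℂ}
    (hp : ∀ i, F i - ∑ l, C (p i l) * g l ∈ imageIdeal J f) : 2 ≤ M := by
  obtain ⟨i, j, hij⟩ := Fintype.one_lt_card_iff.1 hc
  by_contra hM
  have hM2 : M = 0 ∨ M = 1 := by omega
  rcases hM2 with rfl | rfl
  · have h1 := hp i
    rw [Finset.univ_eq_empty, Finset.sum_empty, sub_zero] at h1
    exact hF.nonzero i h1
  · have h1 := hp i
    have h2 := hp j
    rw [Fin.sum_univ_one] at h1 h2
    have h3 : p j 0 ≠ 0 := by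
      intro h0
      rw [h0, C_0, zero_mul, sub_zero] at h2
      exact hF.nonzero j h2
    refine hF.distinct i j hij (p i 0 / p j 0) ?_
    have h4 : F i - C (p i 0 / p j 0) * F j = (F i - C (p i 0) * g 0) -
        C (p i 0 / p j 0) * (F j - C (p j 0) * g 0) := by
      have h5 : (C (p i 0) : MvPolynomial (Fin (n + 1)) ℂ) = C (p i 0 / p j 0) * C (p j 0) := by
        rw [← C_mul, div_mul_cancel₀ _ h3]
      rw [h5]
      ring
    rw [h4]
    exact Ideal.sub_mem _ h1 (Ideal.mul_mem_left _ _ h2)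

/-- CHUNK V4.  PROOF.  `k₀ = max 2 (the maximum of the k₀ of smtR M N ε over 1 ≤ M ≤ (δ + 1) ^ (n + 1))`.  Given the data: `exists_basisD (imageIdeal J f) δ` gives `M'`, `g`.  `M' ≥ 2`: otherwise any two
`F i`, `F j` (`i ≠ j`, the cardinality is at least `2`) are proportional modulo `I` (`M' = 1`: `F j ≡ c g 0` with `c ≠ 0` by `nonzero`; `M' = 0`: `F i ∈ I`).  So `M' = M + 1` with `M ≥ 1`; `p` from
`hg.span`; `smtR M N ε` for `DataR p (imageIdeal J (fun l => aeval f (g l)))` (`dataR_veronese`) gives `P'`; `P = aeval (fun l => aeval f (g l)) P' ∉ J`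
(`mem_imageIdeal`).  For `u`: `veronese_curve`, `veronese_chi` (`chi y' ≥ δ chi y - K`; multiply by `(1 - ε) card ≥ 0` — for `ε > 1` use `hε1`), `K ≤ (K / log 2) log r`. -/
theorem smt_degree (n N δ : ℕ) (hδ : 1 ≤ δ) (ε : ℝ) (hε : 0 < ε) (hε1 : ε ≤ 1) : ∃ k₀ : ℕ, ∀ (ι : Type)
    [Fintype ι], k₀ ≤ Fintype.card ι → ∀ (F : ι → MvPolynomial (Fin (n + 1)) ℂ)
    (m D : ℕ) (J : Ideal (MvPolynomial (Fin m) ℂ)) (f : Fin (n + 1) → MvPolynomial (Fin m) ℂ),
    MapD J D f → (∀ i, (F i).IsHomogeneous δ) → HypD N J f F →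
    ∃ P : MvPolynomial (Fin m) ℂ, P ∉ J ∧
      ∀ u : ℂ → Fin m → ℂ, IsHol u → (∀ z, ∀ G ∈ J, eval (u z) G = 0) → (∃ z, eval (u z) P ≠ 0) →
        ∃ (C : ℝ) (E : Set ℝ), volume E < ⊤ ∧ ∀ r : ℝ, 2 ≤ r → r ∉ E →
          (1 - ε) * Fintype.card ι * δ * chi (fun z j => eval (u z) (f j)) r ≤
            ∑ i, N1 (fun z => eval (u z) (aeval f (F i))) r + C * log r := by
  choose kk hkk using fun (M : ℕ) (hM : 1 ≤ M) => smtR M N hM ε hε
  refine ⟨2 + ∑ M ∈ Finset.range ((δ + 1) ^ (n + 1) + 1), (if h : 1 ≤ M then kk M h else 0), ?_⟩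
  intro ι _ hcard F m D J f hX hFδ hF
  obtain ⟨M', g, hM', hg⟩ := exists_basisD (imageIdeal J f) δ
  choose p hp using fun i => hg.span (F i) (hFδ i)
  have hM2 : 2 ≤ M' := v4_two hF (by omega) hp
  obtain ⟨M, rfl⟩ : ∃ M, M' = M + 1 := ⟨M' - 1, by omega⟩
  have hM1 : 1 ≤ M := by omega
  have hD : DataR p (imageIdeal J (fun l => aeval f (g l))) := dataR_veronese hδ hX hg hFδ hF hp
  have hkM : kk M hM1 ≤ Fintype.card ι := by
    have hmem : M ∈ Finset.range ((δ + 1) ^ (n + 1) + 1) := Finset.mem_range.2 (by omega)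
    have h1 := Finset.single_le_sum (f := fun M => (if h : 1 ≤ M then kk M h else 0))
      (fun _ _ => Nat.zero_le _) hmem
    simp only [dif_pos hM1] at h1
    omega
  obtain ⟨P', hP', hsm⟩ := hkk M hM1 ι hkM p _ hD
  refine ⟨aeval (fun l => aeval f (g l)) P', hP', ?_⟩
  rintro u hu huJ ⟨z₀, hz₀⟩
  obtain ⟨hu', hpos, hlin⟩ := veronese_curve hδ hX hg hFδ hF hp hu huJ
  rw [v4_eval] at hz₀
  obtain ⟨C₁, E, hE, hineq⟩ := hsm _ hu' hpos ⟨z₀, hz₀⟩
  obtain ⟨K, hK⟩ := veronese_chi hX hg hu huJ hu'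
  have hq : (0 : ℝ) ≤ (1 - ε) * Fintype.card ι := mul_nonneg (by linarith) (Nat.cast_nonneg _)
  refine ⟨C₁ + (1 - ε) * Fintype.card ι * |K| / log 2, E, hE, ?_⟩
  intro r hr hrE
  have h1 := hineq r hr hrE
  have h2 := hK r (by linarith)
  have hl2 : 0 < log 2 := Real.log_pos (by norm_num)
  have hlr : log 2 ≤ log r := Real.log_le_log (by norm_num) hr
  have h3 : (1 - ε) * Fintype.card ι * (δ * chi (fun z j => eval (u z) (f j)) r - |K|) ≤
      (1 - ε) * Fintype.card ι * chi (fun z l => eval (u z) (aeval f (g l))) r := by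
    refine mul_le_mul_of_nonneg_left ?_ hq
    linarith [le_abs_self K]
  have h4 : (1 - ε) * Fintype.card ι * |K| ≤ (1 - ε) * Fintype.card ι * |K| / log 2 * log r := by
    rw [div_mul_eq_mul_div, le_div_iff₀ hl2]
    exact mul_le_mul_of_nonneg_left hlr (mul_nonneg hq (abs_nonneg K))
  have h5 : ∑ i, N1 (fun z => lin (p i) (fun l => eval (u z) (aeval f (g l)))) r =
      ∑ i, N1 (fun z => eval (u z) (aeval f (F i))) r := by
    refine Finset.sum_congr rfl fun i _ => ?_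
    congr 1
    funext z
    exact hlin i z
  have h6 : (1 - ε) * Fintype.card ι * chi (fun z l => eval (u z) (aeval f (g l))) r ≤
      ∑ i, N1 (fun z => eval (u z) (aeval f (F i))) r + C₁ * log r := by
    rw [← h5]
    exact h1
  have h7 : (C₁ + (1 - ε) * Fintype.card ι * |K| / log 2) * log r =
      C₁ * log r + (1 - ε) * Fintype.card ι * |K| / log 2 * log r := by ring
  rw [h7]
  linarith

end Pool.Agent.H53S
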