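import Pool.Agent.Lib.H53S.V4

set_option autoImplicit false

/-!
H53S, CHUNK V5 (M/L).  The second main theorem for hypersurfaces of bounded degrees.
-/

open MvPolynomial Module Real MeasureTheory
open Pool.Agent.H89.Sect Pool.Agent.H89.Arr

namespace Pool.Agent.H53S

open Pool.Agent.H67T

attribute [local instance] MvPolynomial.gradedAlgebra

theorem v5_sum {ι : Type} [Fintype ι] (d : ι → ℕ) (δ : ℕ) (hd : ∀ i, 1 ≤ d i ∧ d i ≤ δ)
    (g : ι → ℝ) :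
    ∑ δ' ∈ Finset.Icc 1 δ, ∑ i : {i // d i = δ'}, g i.1 = ∑ i, g i := by
  have h1 : ∀ δ' ∈ Finset.Icc 1 δ, ∑ i : {i // d i = δ'}, g i.1 =
      ∑ i ∈ Finset.univ.filter (fun i => d i = δ'), g i := by
    intro δ' _
    exact (Finset.sum_subtype _ (fun x => by simp) g).symm
  rw [Finset.sum_congr rfl h1]
  exact Finset.sum_fiberwise_of_maps_to (fun i _ => Finset.mem_Icc.mpr (hd i)) g

theorem v5_hyp {m n N : ℕ} {ι : Type} {J : Ideal (MvPolynomial (Fin m) ℂ)}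
    {f : Fin (n + 1) → MvPolynomial (Fin m) ℂ} {F : ι → MvPolynomial (Fin (n + 1)) ℂ}
    (h : HypD N J f F) (p : ι → Prop) : HypD N J f (fun i : {i // p i} => F i.1) where
  distinct := fun i j hij c => h.distinct i.1 j.1 (fun he => hij (Subtype.ext he)) c
  nonzero := fun i => h.nonzero i.1
  reduced := fun i => h.reduced i.1
  position := fun x hx hxJ s hs => h.position x hx hxJ (fun a => (s a).1)
    (fun _ _ hab => hs (Subtype.ext hab))

/-- CHUNK V5.  PROOF.  `K` = the maximum of the `k₀` of `smt_degree n N δ' (ε / 2)` over `1 ≤ δ' ≤ δ`, `k₀ ≥ 1` with `2 δ ^ 2 K / ε ≤ k₀`.  For `δ'` let `ι δ' = {i // d i = δ'}`; the data of a subfamily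
(`HypD` restricts to subtypes).  For the `δ'` with `card (ι δ') ≥ K` take the `P` of `smt_degree`, otherwise `P = 1`; `P = ∏` over `Finset.Icc 1 δ` (`∉ J`, prime).  For `u`: add the
inequalities (`E` = the union of the `E`, `C` = sum), the big degrees only: `N1 ≥ 0` (`N1_nonneg`).  `∑ i, d i = ∑ δ', card (ι δ') δ'` (`Finset.sum_fiberwise`-like), the small
degrees contribute at most `δ * K * δ ≤ (ε / 2) k₀ ≤ (ε / 2) ∑ i, d i` (each `d i ≥ 1`).  So with `B = ∑ (big) card δ' ≥ (1 - ε / 2) ∑ d i`: `(1 - ε / 2) B ≥ (1 - ε) ∑ d i`.  `chi` may be negative: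
`chi y r ≥ -K'` (`chi_mono` from `r = 1`), `(1 - ε / 2) B chi ≥ (1 - ε) (∑ d i) chi - ((1 - ε/2) B - (1 - ε) ∑ d) K'`. -/
theorem smtH (n N δ : ℕ) (ε : ℝ) (hε : 0 < ε) (hε1 : ε ≤ 1) : ∃ k₀ : ℕ, ∀ (ι : Type)
    [Fintype ι], k₀ ≤ Fintype.card ι → ∀ (d : ι → ℕ) (F : ι → MvPolynomial (Fin (n + 1)) ℂ)
    (m D : ℕ) (J : Ideal (MvPolynomial (Fin m) ℂ)) (f : Fin (n + 1) → MvPolynomial (Fin m) ℂ),
    MapD J D f → (∀ i, 1 ≤ d i ∧ d i ≤ δ) → (∀ i, (F i).IsHomogeneous (d i)) → HypD N J f F →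
    ∃ P : MvPolynomial (Fin m) ℂ, P ∉ J ∧
      ∀ u : ℂ → Fin m → ℂ, IsHol u → (∀ z, ∀ G ∈ J, eval (u z) G = 0) → (∃ z, eval (u z) P ≠ 0) →
        ∃ (C : ℝ) (E : Set ℝ), volume E < ⊤ ∧ ∀ r : ℝ, 2 ≤ r → r ∉ E →
          (1 - ε) * (∑ i, d i : ℕ) * chi (fun z j => eval (u z) (f j)) r ≤
            ∑ i, N1 (fun z => eval (u z) (aeval f (F i))) r + C * log r := by
  classical
  have hsd := fun (δ' : ℕ) (h : 1 ≤ δ') =>
    smt_degree n N δ' h (ε / 2) (by linarith) (by linarith)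
  choose kk hkk using hsd
  obtain ⟨kf, hkf⟩ : ∃ kf : ℕ → ℕ, kf = fun δ' => if h : 1 ≤ δ' then kk δ' h else 0 := ⟨_, rfl⟩
  obtain ⟨K, hK⟩ : ∃ K : ℕ, K = (Finset.Icc 1 δ).sup kf := ⟨_, rfl⟩
  have hKk : ∀ δ' (h1 : 1 ≤ δ'), δ' ≤ δ → kk δ' h1 ≤ K := by
    intro δ' h1 h2
    have h3 : kf δ' ≤ K := by
      rw [hK]
      exact Finset.le_sup (f := kf) (Finset.mem_Icc.mpr ⟨h1, h2⟩)
    rw [hkf] at h3
    simpa [h1] using h3
  refine ⟨max 1 ⌈2 * (δ : ℝ) ^ 2 * K / ε⌉₊, ?_⟩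
  intro ι _ hcard d F m D J f hM hd hF hH
  have := hM.prime
  have hcard1 : 1 ≤ Fintype.card ι := le_trans (le_max_left _ _) hcard
  have hcard2 : 2 * (δ : ℝ) ^ 2 * K / ε ≤ Fintype.card ι :=
    le_trans (Nat.le_ceil _) (by exact_mod_cast le_trans (le_max_right _ _) hcard)
  obtain ⟨A, hA⟩ : ∃ A : ℕ → ℝ, A = fun δ' =>
    if K ≤ Fintype.card {i // d i = δ'} then (Fintype.card {i // d i = δ'} : ℝ) * δ' else 0 :=
    ⟨_, rfl⟩
  have hA0 : ∀ δ', 0 ≤ A δ' := by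
    intro δ'
    rw [hA]
    dsimp only
    split_ifs <;> positivity
  have h1J : (1 : MvPolynomial (Fin m) ℂ) ∉ J := by
    intro h
    exact hM.prime.ne_top ((Ideal.eq_top_iff_one J).mpr h)
  have claim : ∀ δ' : ℕ, ∃ P : MvPolynomial (Fin m) ℂ, P ∉ J ∧ (δ' ∈ Finset.Icc 1 δ →
      ∀ u : ℂ → Fin m → ℂ, IsHol u → (∀ z, ∀ G ∈ J, eval (u z) G = 0) → (∃ z, eval (u z) P ≠ 0) →
        ∃ (C : ℝ) (E : Set ℝ), volume E < ⊤ ∧ ∀ r : ℝ, 2 ≤ r → r ∉ E →
          (1 - ε / 2) * A δ' * chi (fun z j => eval (u z) (f j)) r ≤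
            ∑ i : {i // d i = δ'}, N1 (fun z => eval (u z) (aeval f (F i.1))) r + C * log r) := by
    intro δ'
    by_cases hmem : δ' ∈ Finset.Icc 1 δ
    · by_cases hbig : K ≤ Fintype.card {i // d i = δ'}
      · obtain ⟨h1, h2⟩ := Finset.mem_Icc.mp hmem
        obtain ⟨P, hPJ, hP⟩ := hkk δ' h1 {i // d i = δ'} (le_trans (hKk δ' h1 h2) hbig)
          (fun i => F i.1) m D J f hM
          (fun i => by have := hF i.1; rwa [i.2] at this) (v5_hyp hH _)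
        refine ⟨P, hPJ, fun _ u hu huJ huP => ?_⟩
        obtain ⟨C, E, hE, hC⟩ := hP u hu huJ huP
        refine ⟨C, E, hE, fun r hr hrE => ?_⟩
        have := hC r hr hrE
        rw [hA]
        dsimp only
        rw [if_pos hbig]
        have e1 : (1 - ε / 2) * ((Fintype.card {i // d i = δ'} : ℝ) * δ') =
          (1 - ε / 2) * (Fintype.card {i // d i = δ'} : ℝ) * δ' := by ring
        rw [e1]
        exact this
      · refine ⟨1, h1J, fun _ u hu huJ huP => ⟨0, ∅, by simp, fun r hr _ => ?_⟩⟩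
        rw [hA]
        dsimp only
        rw [if_neg hbig]
        have : 0 ≤ ∑ i : {i // d i = δ'}, N1 (fun z => eval (u z) (aeval f (F i.1))) r :=
          Finset.sum_nonneg fun i _ => N1_nonneg _ (by linarith)
        simpa using this
    · exact ⟨1, h1J, fun h => absurd h hmem⟩
  choose P hPJ hP using claim
  refine ⟨∏ δ' ∈ Finset.Icc 1 δ, P δ', ?_, ?_⟩
  · intro h
    obtain ⟨δ', _, h'⟩ := (Ideal.IsPrime.prod_mem_iff (p := J)).mp h
    exact hPJ δ' h'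
  intro u hu huJ huP
  obtain ⟨z₀, hz₀⟩ := huP
  rw [map_prod, Finset.prod_ne_zero_iff] at hz₀
  have claim2 : ∀ δ' : ℕ, ∃ (C : ℝ) (E : Set ℝ), volume E < ⊤ ∧ (δ' ∈ Finset.Icc 1 δ →
      ∀ r : ℝ, 2 ≤ r → r ∉ E →
          (1 - ε / 2) * A δ' * chi (fun z j => eval (u z) (f j)) r ≤
            ∑ i : {i // d i = δ'}, N1 (fun z => eval (u z) (aeval f (F i.1))) r + C * log r) := by
    intro δ'
    by_cases hmem : δ' ∈ Finset.Icc 1 δ
    · obtain ⟨C, E, hE, hC⟩ := hP δ' hmem u hu huJ ⟨z₀, hz₀ δ' hmem⟩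
      exact ⟨C, E, hE, fun _ => hC⟩
    · exact ⟨0, ∅, by simp, fun h => absurd h hmem⟩
  choose C E hE hC using claim2
  have hyh : IsHol (fun z (j : Fin (n + 1)) => eval (u z) (f j)) := by
    refine ⟨fun j => differentiable_eval hu.diff (f j), fun z h => ?_⟩
    obtain ⟨j, hj⟩ := hM.free (u z) (hu.ne_zero z) (huJ z)
    exact hj (congrFun h j)
  obtain ⟨c1, hc1⟩ : ∃ c1 : ℝ, c1 = |chi (fun z (j : Fin (n + 1)) => eval (u z) (f j)) 1| :=
    ⟨_, rfl⟩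
  have hc1' : 0 ≤ c1 := by rw [hc1]; exact abs_nonneg _
  have hchi : ∀ r : ℝ, 2 ≤ r → -c1 ≤ chi (fun z (j : Fin (n + 1)) => eval (u z) (f j)) r := by
    intro r hr
    have h1 := chi_mono hyh (r := 1) (R := r) one_pos (by linarith)
    have h2 := neg_abs_le (chi (fun z (j : Fin (n + 1)) => eval (u z) (f j)) 1)
    rw [hc1]
    linarith
  obtain ⟨S, hS⟩ : ∃ S : ℝ, S = ∑ i, (d i : ℝ) := ⟨_, rfl⟩
  obtain ⟨Bt, hBt⟩ : ∃ Bt : ℝ, Bt = ∑ δ' ∈ Finset.Icc 1 δ, A δ' := ⟨_, rfl⟩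
  have hSsum : S = ∑ δ' ∈ Finset.Icc 1 δ, (Fintype.card {i // d i = δ'} : ℝ) * δ' := by
    rw [hS, ← v5_sum d δ hd (fun i => (d i : ℝ))]
    apply Finset.sum_congr rfl
    intro δ' _
    have : ∀ i : {i // d i = δ'}, ((d i.1 : ℕ) : ℝ) = δ' := fun i => by rw [i.2]
    simp only [this]
    simp
  have hSB : S - Bt ≤ (δ : ℝ) ^ 2 * K := by
    rw [hSsum, hBt, ← Finset.sum_sub_distrib]
    have h1 : ∀ δ' ∈ Finset.Icc 1 δ,
        (Fintype.card {i // d i = δ'} : ℝ) * δ' - A δ' ≤ (K : ℝ) * δ := by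
      intro δ' hmem
      obtain ⟨_, h2⟩ := Finset.mem_Icc.mp hmem
      rw [hA]
      dsimp only
      split_ifs with hbig
      · rw [sub_self]
        positivity
      · rw [sub_zero]
        push Not at hbig
        have e1 : (Fintype.card {i // d i = δ'} : ℝ) ≤ K := by exact_mod_cast hbig.le
        have e2 : (δ' : ℝ) ≤ δ := by exact_mod_cast h2
        exact mul_le_mul e1 e2 (Nat.cast_nonneg _) (Nat.cast_nonneg _)
    refine le_trans (Finset.sum_le_card_nsmul _ _ _ h1) ?_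
    rw [Nat.card_Icc, nsmul_eq_mul]
    have : ((δ + 1 - 1 : ℕ) : ℝ) = δ := by simp
    rw [this]
    have : (δ : ℝ) * ((K : ℝ) * δ) = (δ : ℝ) ^ 2 * K := by ring
    linarith
  have hScard : (Fintype.card ι : ℝ) ≤ S := by
    rw [hS]
    have h1 : ∑ i : ι, (1 : ℝ) ≤ ∑ i, (d i : ℝ) :=
      Finset.sum_le_sum fun i _ => by exact_mod_cast (hd i).1
    simpa using h1
  have hKδ : (δ : ℝ) ^ 2 * K ≤ ε / 2 * S := by
    rw [div_le_iff₀ hε] at hcard2
    have : (Fintype.card ι : ℝ) * ε ≤ S * ε := mul_le_mul_of_nonneg_right hScard hε.le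
    linarith
  have hBS : (1 - ε / 2) * S ≤ Bt := by linarith
  have hS0 : 0 ≤ S := le_trans (Nat.cast_nonneg _) hScard
  have hW : 0 ≤ (1 - ε / 2) * Bt - (1 - ε) * S := by
    have h1 : (1 - ε / 2) * ((1 - ε / 2) * S) ≤ (1 - ε / 2) * Bt :=
      mul_le_mul_of_nonneg_left hBS (by linarith)
    have h2 : 0 ≤ ε ^ 2 / 4 * S := by positivity
    nlinarith
  refine ⟨∑ δ' ∈ Finset.Icc 1 δ, C δ' + ((1 - ε / 2) * Bt - (1 - ε) * S) * c1 / log 2,
    ⋃ δ' ∈ Finset.Icc 1 δ, E δ', ?_, ?_⟩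
  · refine lt_of_le_of_lt (measure_biUnion_finset_le _ _) ?_
    exact ENNReal.sum_lt_top.mpr fun δ' _ => hE δ'
  intro r hr hrE
  have hrE' : ∀ δ' ∈ Finset.Icc 1 δ, r ∉ E δ' := by
    intro δ' hmem h
    exact hrE (Set.mem_biUnion (Finset.mem_coe.mpr hmem) h)
  have hsum : (1 - ε / 2) * Bt * chi (fun z j => eval (u z) (f j)) r ≤
      ∑ i, N1 (fun z => eval (u z) (aeval f (F i))) r + (∑ δ' ∈ Finset.Icc 1 δ, C δ') * log r := by
    rw [← v5_sum d δ hd (fun i => N1 (fun z => eval (u z) (aeval f (F i))) r), hBt,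
      Finset.mul_sum, Finset.sum_mul, Finset.sum_mul, ← Finset.sum_add_distrib]
    exact Finset.sum_le_sum fun δ' hmem => hC δ' hmem r hr (hrE' δ' hmem)
  have hScast : ((∑ i, d i : ℕ) : ℝ) = S := by
    rw [hS]
    push_cast
    rfl
  rw [hScast]
  have hlog2 : 0 < log 2 := Real.log_pos (by norm_num)
  have hlogr : log 2 ≤ log r := Real.log_le_log (by norm_num) hr
  have hWc : ((1 - ε / 2) * Bt - (1 - ε) * S) * c1 ≤
      ((1 - ε / 2) * Bt - (1 - ε) * S) * c1 / log 2 * log r := by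
    rw [div_mul_eq_mul_div, le_div_iff₀ hlog2]
    exact mul_le_mul_of_nonneg_left hlogr (mul_nonneg hW hc1')
  have hchir := hchi r hr
  have h5 : ((1 - ε / 2) * Bt - (1 - ε) * S) * (-c1) ≤
      ((1 - ε / 2) * Bt - (1 - ε) * S) * chi (fun z (j : Fin (n + 1)) => eval (u z) (f j)) r :=
    mul_le_mul_of_nonneg_left hchir hW
  rw [add_mul]
  linarith

end Pool.Agent.H53S
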