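import Pool.Agent.Lib.H53S.D1

set_option autoImplicit false

/-!
H53S, CHUNK W3a (S).  Norms of the Veronese coordinates.
-/

open MvPolynomial Module Real MeasureTheory
open Pool.Agent.H89.Sect Pool.Agent.H89.Arr

namespace Pool.Agent.H53S

open Pool.Agent.H67T

attribute [local instance] MvPolynomial.gradedAlgebra

/-- CHUNK W3a.  PROOF.  `(X j) ^ δ ≡ ∑ l, c j l g l mod I` (`hg.span`), so `y j ^ δ = ∑ l, c j l * g l (y)` for the zeros `y` of `I`; `A = 1 + ∑ j, ∑ l, ‖c j l‖`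
(`δ`-th power of the sup norm = sup of the `δ`-th powers: `‖y‖ = ‖y j‖` for some `j` if `n ≠ 0`; for `δ = 0`, `n = 0` note `‖y‖ ^ 0 = 1`: assume `1 ≤ δ`). -/
theorem veronese_normI {n δ M : ℕ} (hδ : 1 ≤ δ) {I : Ideal (MvPolynomial (Fin n) ℂ)}
    {g : Fin M → MvPolynomial (Fin n) ℂ} (hg : BasisD I δ g) :
    ∃ A : ℝ, 0 < A ∧ ∀ y : Fin n → ℂ, (∀ G ∈ I, eval y G = 0) →
      ‖y‖ ^ δ ≤ A * ‖fun l => eval y (g l)‖ := by
  have h1 : ∀ j : Fin n, ∃ c : Fin M → ℂ, (X j ^ δ : MvPolynomial (Fin n) ℂ) -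
      ∑ l, C (c l) * g l ∈ I := by
    intro j
    apply hg.span
    have := (isHomogeneous_X ℂ j).pow δ
    simpa using this
  choose c hc using h1
  refine ⟨1 + ∑ j, ∑ l, ‖c j l‖, by positivity, ?_⟩
  intro y hy
  rcases Nat.eq_zero_or_pos n with hn | hn
  · subst hn
    have h0 : ‖y‖ = 0 := by
      rw [Subsingleton.elim y 0]
      exact norm_zero
    rw [h0, zero_pow (by omega)]
    positivity
  obtain ⟨j, -, hj⟩ := Finset.exists_max_image Finset.univ (fun j => ‖y j‖)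
    ⟨⟨0, hn⟩, Finset.mem_univ _⟩
  have hyn : ‖y‖ = ‖y j‖ := by
    apply le_antisymm
    · exact (pi_norm_le_iff_of_nonneg (norm_nonneg _)).2 fun i => hj i (Finset.mem_univ _)
    · exact norm_le_pi_norm y j
  have h2 : y j ^ δ = ∑ l, c j l * eval y (g l) := by
    have := hy _ (hc j)
    rw [map_sub, sub_eq_zero, map_pow, eval_X, map_sum] at this
    rw [this]
    refine Finset.sum_congr rfl fun l _ => ?_
    rw [map_mul, eval_C]
  rw [hyn, ← norm_pow, h2]
  calc ‖∑ l, c j l * eval y (g l)‖ ≤ ∑ l, ‖c j l * eval y (g l)‖ := norm_sum_le _ _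
    _ ≤ ∑ l, ‖c j l‖ * ‖fun l => eval y (g l)‖ := by
        refine Finset.sum_le_sum fun l _ => ?_
        rw [norm_mul]
        exact mul_le_mul_of_nonneg_left (norm_le_pi_norm (fun l => eval y (g l)) l) (norm_nonneg _)
    _ = (∑ l, ‖c j l‖) * ‖fun l => eval y (g l)‖ := by rw [Finset.sum_mul]
    _ ≤ (1 + ∑ j, ∑ l, ‖c j l‖) * ‖fun l => eval y (g l)‖ := by
        apply mul_le_mul_of_nonneg_right _ (norm_nonneg _)
        have : ∑ l, ‖c j l‖ ≤ ∑ j, ∑ l, ‖c j l‖ :=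
          Finset.single_le_sum (f := fun j => ∑ l, ‖c j l‖) (fun i _ => by positivity)
            (Finset.mem_univ j)
        linarith

end Pool.Agent.H53S
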